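import Pool.Agent.R923.RC.Stm

/-!
# Almost sure properties from the two point function (RC-AE)
-/

open MeasureTheory Set

namespace Pool.Agent.R923.RC

namespace AeAux

theorem swap_real {α β : Type} [MeasurableSpace α] [MeasurableSpace β] (μ : Measure α)
    (ν : Measure β) [IsFiniteMeasure μ] [IsFiniteMeasure ν] (T : Set (α × β))
    (hT : MeasurableSet T) :
    ∫ a, ν.real {b | (a, b) ∈ T} ∂μ = ∫ b, μ.real {a | (a, b) ∈ T} ∂ν := by
  have h1 : ∫ a, ν.real {b | (a, b) ∈ T} ∂μ = ((μ.prod ν) T).toReal := by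
    rw [Measure.prod_apply hT]
    exact integral_toReal (measurable_measure_prodMk_left hT).aemeasurable
      (Filter.Eventually.of_forall fun a => measure_lt_top _ _)
  have h2 : ∫ b, μ.real {a | (a, b) ∈ T} ∂ν = ((μ.prod ν) T).toReal := by
    rw [Measure.prod_apply_symm hT]
    exact integral_toReal (measurable_measure_prodMk_right hT).aemeasurable
      (Filter.Eventually.of_forall fun a => measure_lt_top _ _)
  rw [h1, h2]

end AeAux

open AeAux

/-- RC-AE -/
theorem s_AE (hMOD : S_MOD) : S_AE := by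
  intro Ω _ P X V hP hV hV45 hD hcov
  obtain ⟨hl0, hl16, hlZ, hlint, -, -, hlmeas, hlper⟩ := hMOD V hV hV45
  set D : Set (Ω × ℝ) := {p : Ω × ℝ | p.2 ∈ X p.1} with hDdef
  set c : ℝ := 1 + volume.real V with hc
  have hXm : ∀ ω, MeasurableSet (X ω) := fun ω => measurable_prodMk_left hD
  have hAm : ∀ t : ℝ, MeasurableSet {ω | t ∈ X ω} := fun t => measurable_prodMk_right hD
  have hone : ∀ t : ℝ, P.real {ω | t ∈ X ω} = c / 16 := by
    intro t
    have h := hcov t t
    simp only [and_self, sub_self] at h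
    rw [h, hl0]
  refine ⟨?_, ?_, ?_⟩
  · -- periodicity
    have hmeas : MeasurableSet {p : Ω × ℝ | p.2 ∈ X p.1 ↔ p.2 + 16 ∈ X p.1} := by
      have h16 : MeasurableSet {p : Ω × ℝ | p.2 + 16 ∈ X p.1} := by
        have : Measurable (fun p : Ω × ℝ => (p.1, p.2 + 16)) := by fun_prop
        exact this hD
      have heq : {p : Ω × ℝ | p.2 ∈ X p.1 ↔ p.2 + 16 ∈ X p.1} =
          (D ∩ {p : Ω × ℝ | p.2 + 16 ∈ X p.1}) ∪ (Dᶜ ∩ {p : Ω × ℝ | p.2 + 16 ∈ X p.1}ᶜ) := by
        ext p
        simp only [hDdef, mem_setOf_eq, mem_union, mem_inter_iff, mem_compl_iff]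
        tauto
      rw [heq]
      exact (hD.inter h16).union (hD.compl.inter h16.compl)
    rw [Measure.ae_ae_comm (p := fun ω x => (x ∈ X ω ↔ x + 16 ∈ X ω)) hmeas]
    refine Filter.Eventually.of_forall fun t => ?_
    have hboth : P.real ({ω | t + 16 ∈ X ω} ∩ {ω | t ∈ X ω}) = c / 16 := by
      have h := hcov (t + 16) t
      rw [show t + 16 - t = (16 : ℝ) by ring, hl16] at h
      exact h
    have h1 : P.real ({ω | t + 16 ∈ X ω} \ {ω | t ∈ X ω}) = 0 := by
      have h := measureReal_inter_add_sdiff (μ := P) (s := {ω | t + 16 ∈ X ω})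
        (t := {ω | t ∈ X ω}) (hAm t)
      rw [hboth, hone] at h
      linarith
    have h2 : P.real ({ω | t ∈ X ω} \ {ω | t + 16 ∈ X ω}) = 0 := by
      have h := measureReal_inter_add_sdiff (μ := P) (s := {ω | t ∈ X ω})
        (t := {ω | t + 16 ∈ X ω}) (hAm (t + 16))
      rw [inter_comm, hboth, hone] at h
      linarith
    rw [measureReal_eq_zero_iff] at h1 h2
    have h3 := measure_union_null h1 h2
    rw [ae_iff]
    refine measure_mono_null ?_ h3
    intro ω hω
    simp only [mem_setOf_eq, mem_union, mem_diff] at hω ⊢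
    tauto
  · -- forbidden differences
    have hmeas : MeasurableSet {p : Ω × (ℝ × ℝ) | ¬ (p.2.1 ∈ X p.1 ∧ p.2.2 ∈ X p.1 ∧
        p.2.2 - p.2.1 ∈ Ioo (1 : ℝ) 3 ∪ Ioo (5 : ℝ) 11)} := by
      have ha : MeasurableSet {p : Ω × (ℝ × ℝ) | p.2.1 ∈ X p.1} := by
        have : Measurable (fun p : Ω × (ℝ × ℝ) => (p.1, p.2.1)) := by fun_prop
        exact this hD
      have hb : MeasurableSet {p : Ω × (ℝ × ℝ) | p.2.2 ∈ X p.1} := by
        have : Measurable (fun p : Ω × (ℝ × ℝ) => (p.1, p.2.2)) := by fun_prop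
        exact this hD
      have hc : MeasurableSet {p : Ω × (ℝ × ℝ) | p.2.2 - p.2.1 ∈ Ioo (1 : ℝ) 3 ∪ Ioo (5 : ℝ) 11} := by
        have : Measurable (fun p : Ω × (ℝ × ℝ) => p.2.2 - p.2.1) := by fun_prop
        exact this (measurableSet_Ioo.union measurableSet_Ioo)
      exact (ha.inter (hb.inter hc)).compl
    rw [Measure.ae_ae_comm (p := fun ω (p : ℝ × ℝ) => ¬ (p.1 ∈ X ω ∧ p.2 ∈ X ω ∧
        p.2 - p.1 ∈ Ioo (1 : ℝ) 3 ∪ Ioo (5 : ℝ) 11)) hmeas]
    refine Filter.Eventually.of_forall fun p => ?_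
    by_cases hp : p.2 - p.1 ∈ Ioo (1 : ℝ) 3 ∪ Ioo (5 : ℝ) 11
    · have h := hcov p.2 p.1
      rw [hlZ _ hp, zero_div, measureReal_eq_zero_iff] at h
      rw [ae_iff]
      refine measure_mono_null ?_ h
      intro ω hω
      simp only [mem_setOf_eq, not_not] at hω ⊢
      exact ⟨hω.2.1, hω.1⟩
    · exact Filter.Eventually.of_forall fun ω h => hp h.2.2
  · -- mass in one period
    set μI : Measure ℝ := volume.restrict (Ico (0 : ℝ) 16) with hμI
    have hfin : IsFiniteMeasure μI := by
      rw [hμI]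
      exact ⟨by simp⟩
    have hunivI : μI.real univ = 16 := by
      rw [hμI, measureReal_restrict_apply MeasurableSet.univ, univ_inter, Real.volume_real_Ico]
      norm_num
    have hm : ∀ ω, volume.real (X ω ∩ Ico 0 16) = μI.real (X ω) := by
      intro ω
      rw [hμI, measureReal_restrict_apply (hXm ω)]
    have hm_meas : Measurable (fun ω => μI.real (X ω)) :=
      (measurable_measure_prodMk_left (ν := μI) hD).ennreal_toReal
    have hm_le : ∀ ω, μI.real (X ω) ≤ 16 := by
      intro ω
      rw [← hunivI]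
      exact measureReal_mono (subset_univ _)
    have hm_int : Integrable (fun ω => μI.real (X ω)) P := by
      refine Integrable.of_bound hm_meas.aestronglyMeasurable 16 ?_
      refine Filter.Eventually.of_forall fun ω => ?_
      rw [Real.norm_of_nonneg measureReal_nonneg]
      exact hm_le ω
    have hm2_int : Integrable (fun ω => μI.real (X ω) ^ 2) P := by
      refine Integrable.of_bound (hm_meas.pow_const 2).aestronglyMeasurable (16 ^ 2) ?_
      refine Filter.Eventually.of_forall fun ω => ?_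
      rw [Real.norm_of_nonneg (by positivity)]
      exact pow_le_pow_left₀ measureReal_nonneg (hm_le ω) 2
    -- first moment
    have hE1 : ∫ ω, μI.real (X ω) ∂P = c := by
      have h := swap_real P μI D hD
      have h1 : ∀ ω, {b : ℝ | (ω, b) ∈ D} = X ω := fun ω => rfl
      have h2 : ∀ b : ℝ, {a : Ω | (a, b) ∈ D} = {ω | b ∈ X ω} := fun b => rfl
      simp only [h1, h2, hone] at h
      rw [h, integral_const, hunivI, smul_eq_mul]
      ring
    -- second moment
    have hE2 : ∫ ω, μI.real (X ω) ^ 2 ∂P = c ^ 2 := by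
      have hT : MeasurableSet {p : Ω × (ℝ × ℝ) | p.2.1 ∈ X p.1 ∧ p.2.2 ∈ X p.1} := by
        have ha : MeasurableSet {p : Ω × (ℝ × ℝ) | p.2.1 ∈ X p.1} := by
          have : Measurable (fun p : Ω × (ℝ × ℝ) => (p.1, p.2.1)) := by fun_prop
          exact this hD
        have hb : MeasurableSet {p : Ω × (ℝ × ℝ) | p.2.2 ∈ X p.1} := by
          have : Measurable (fun p : Ω × (ℝ × ℝ) => (p.1, p.2.2)) := by fun_prop
          exact this hD
        exact ha.inter hb
      have h := swap_real P (μI.prod μI) _ hT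
      have h1 : ∀ ω, (μI.prod μI).real {b : ℝ × ℝ |
          (ω, b) ∈ {p : Ω × (ℝ × ℝ) | p.2.1 ∈ X p.1 ∧ p.2.2 ∈ X p.1}} = μI.real (X ω) ^ 2 := by
        intro ω
        have : {b : ℝ × ℝ | (ω, b) ∈ {p : Ω × (ℝ × ℝ) | p.2.1 ∈ X p.1 ∧ p.2.2 ∈ X p.1}} =
          X ω ×ˢ X ω := rfl
        rw [this, measureReal_prod_prod, sq]
      have h2 : ∀ b : ℝ × ℝ, P.real {a : Ω |
          (a, b) ∈ {p : Ω × (ℝ × ℝ) | p.2.1 ∈ X p.1 ∧ p.2.2 ∈ X p.1}} =
            lag (per V) (b.1 - b.2) / 16 := fun b => hcov b.1 b.2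
      simp only [h1, h2] at h
      rw [h]
      have hint : Integrable (fun b : ℝ × ℝ => lag (per V) (b.1 - b.2) / 16) (μI.prod μI) := by
        refine Integrable.of_bound ?_ 1 ?_
        · exact ((hlmeas.comp (measurable_fst.sub measurable_snd)).div_const 16).aestronglyMeasurable
        · refine Filter.Eventually.of_forall fun b => ?_
          rw [← hcov b.1 b.2, Real.norm_of_nonneg measureReal_nonneg]
          exact measureReal_le_one
      rw [integral_prod_symm _ hint]
      have hin : ∀ y : ℝ, ∫ x, lag (per V) (x - y) / 16 ∂μI = c ^ 2 / 16 := by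
        intro y
        rw [integral_div]
        congr 1
        rw [hμI, integral_Ico_eq_integral_Ioc, ← intervalIntegral.integral_of_le (by norm_num),
          intervalIntegral.integral_comp_sub_right (fun x => lag (per V) x) y]
        have hp : Function.Periodic (lag (per V)) 16 := hlper
        have := hp.intervalIntegral_add_eq (0 - y) 0
        rw [show (16 : ℝ) - y = 0 - y + 16 by ring, this, zero_add,
          intervalIntegral.integral_of_le (by norm_num), ← integral_Ico_eq_integral_Ioc, hlint]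
      simp only [hin]
      rw [integral_const, hunivI, smul_eq_mul]
      ring
    -- variance
    have hvar : ∫ ω, (μI.real (X ω) - c) ^ 2 ∂P = 0 := by
      have heq : ∀ ω, (μI.real (X ω) - c) ^ 2 =
          μI.real (X ω) ^ 2 - 2 * c * μI.real (X ω) + c ^ 2 := fun ω => by ring
      simp only [heq]
      have hA : Integrable (fun ω => μI.real (X ω) ^ 2 - 2 * c * μI.real (X ω)) P :=
        hm2_int.sub (hm_int.const_mul _)
      rw [integral_add hA (integrable_const _),
        integral_sub hm2_int (hm_int.const_mul _), integral_const_mul, hE1, hE2, integral_const]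
      simp only [probReal_univ, smul_eq_mul, one_mul]
      ring
    have hint2 : Integrable (fun ω => (μI.real (X ω) - c) ^ 2) P := by
      have heq : (fun ω => (μI.real (X ω) - c) ^ 2) =
          fun ω => μI.real (X ω) ^ 2 - 2 * c * μI.real (X ω) + c ^ 2 := by
        funext ω; ring
      rw [heq]
      exact (hm2_int.sub (hm_int.const_mul _)).add (integrable_const _)
    rw [integral_eq_zero_iff_of_nonneg (fun ω => sq_nonneg _) hint2] at hvar
    filter_upwards [hvar] with ω hω
    rw [hm ω]
    simp only [Pi.zero_apply] at hω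
    have := pow_eq_zero_iff (two_ne_zero) |>.mp hω
    linarith

end Pool.Agent.R923.RC
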