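import Pool.Agent.R923.RC.Stm

/-!
# Project RC, piece RC-ALT: the finite theorem of the alternative (helper37)
-/

open Set Pointwise

namespace Pool.Agent.R923.RC

/-- Theorem of the alternative (finite minimax). -/
theorem s_ALT : S_ALT := by
  intro ι κ _ _ _ g v H
  classical
  let A : (ι → ℝ) →ₗ[ℝ] (κ → ℝ) :=
    { toFun := fun w j => ∑ i, w i * g j i
      map_add' := by
        intro a b; funext j
        simp only [Pi.add_apply, add_mul, Finset.sum_add_distrib]
      map_smul' := by
        intro a b; funext j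
        simp only [Pi.smul_apply, smul_eq_mul, RingHom.id_apply, Finset.mul_sum, mul_assoc] }
  have hA : ∀ w j, A w j = ∑ i, w i * g j i := fun w j => rfl
  let O : Set (κ → ℝ) := {z | ∀ j, 0 ≤ z j}
  let C : Set (κ → ℝ) := A '' stdSimplex ℝ ι + O
  have hKc : IsCompact (A '' stdSimplex ℝ ι) :=
    (isCompact_stdSimplex ℝ ι).image A.continuous_of_finiteDimensional
  have hOc : IsClosed O := by
    have : O = ⋂ j, {z : κ → ℝ | 0 ≤ z j} := by
      ext z; simp [O]
    rw [this]
    exact isClosed_iInter fun j => isClosed_le continuous_const (continuous_apply j)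
  have hC : IsClosed C := hOc.add_left_of_isCompact hKc
  have hOx : Convex ℝ O := by
    intro x hx y hy a b ha hb _ j
    have h1 := hx j
    have h2 := hy j
    simp only [Pi.add_apply, Pi.smul_apply, smul_eq_mul]
    positivity
  have hCx : Convex ℝ C := ((convex_stdSimplex ℝ ι).linear_image A).add hOx
  by_cases hv : v ∈ C
  · obtain ⟨z, ⟨w, hw, rfl⟩, o, ho, hzo⟩ := hv
    refine ⟨w, hw.1, hw.2, fun j => ?_⟩
    rw [← hA, ← hzo]
    show A w j ≤ A w j + o j
    linarith [ho j]
  · exfalso
    obtain ⟨f, u, hfu, hfv⟩ := geometric_hahn_banach_point_closed hCx hC hv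
    have hf : ∀ z : κ → ℝ, f z = ∑ j, f (Pi.single j 1) * z j := by
      intro z
      have h1 : z = ∑ j, z j • (Pi.single j 1 : κ → ℝ) := by
        funext k
        simp [Finset.sum_apply, Pi.single_apply]
      conv_lhs => rw [h1]
      rw [map_sum]
      exact Finset.sum_congr rfl fun j _ => by rw [map_smul, smul_eq_mul, mul_comm]
    obtain ⟨i0⟩ := ‹Nonempty ι›
    have hsx : ∀ i : ι, (Pi.single i 1 : ι → ℝ) ∈ stdSimplex ℝ ι := fun i => single_mem_stdSimplex ℝ i
    have hl : ∀ j, 0 ≤ f (Pi.single j 1) := by
      intro j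
      by_contra hneg
      push Not at hneg
      set a := f (Pi.single j 1) with ha
      set b := f (A (Pi.single i0 1)) with hb
      have h1 : ∀ t : ℝ, 0 ≤ t → u < b + t * a := by
        intro t ht
        have h2 := hfv (A (Pi.single i0 1) + t • (Pi.single j 1 : κ → ℝ))
          ⟨_, ⟨_, hsx i0, rfl⟩, t • (Pi.single j 1 : κ → ℝ), ?_, rfl⟩
        · rwa [map_add, map_smul, smul_eq_mul] at h2
        · intro k
          simp only [Pi.smul_apply, Pi.single_apply, smul_eq_mul]
          split_ifs <;> simp [ht]
      have h3 := h1 ((|u| + |b|) / (-a)) (by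
        have : 0 < -a := by linarith
        positivity)
      have h4 : (|u| + |b|) / (-a) * a = -(|u| + |b|) := by
        have : a ≠ 0 := hneg.ne
        field_simp
      rw [h4] at h3
      have h5 := neg_abs_le u
      have h6 := le_abs_self b
      linarith
    obtain ⟨i, hi⟩ := H (fun j => f (Pi.single j 1)) hl
    have h7 := hfv (A (Pi.single i 1))
      ⟨_, ⟨_, hsx i, rfl⟩, 0, fun k => le_refl _, add_zero _⟩
    rw [hf] at h7
    have h8 : ∀ j, A (Pi.single i 1) j = g j i := by
      intro j
      rw [hA]
      simp [Pi.single_apply]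
    simp only [h8] at h7
    rw [hf v] at hfu
    linarith

end Pool.Agent.R923.RC
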