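import Pool.Agent.R923.RC.Stm2

/-!
# Project RC: closed periodic approximation of the model set (RC-APX)
-/

open MeasureTheory Set

namespace Pool.Agent.R923.RC

namespace Apx

theorem win_le (Q : Set ℝ) (hQ : MeasurableSet Q) (h : ℝ) :
    volume {x : ℝ | x ∈ Ico (0 : ℝ) 16 ∧ ∃ k : ℤ, x + h + 16 * k ∈ Q} ≤ volume Q := by
  have h1 : {x : ℝ | x ∈ Ico (0 : ℝ) 16 ∧ ∃ k : ℤ, x + h + 16 * k ∈ Q} ⊆
      ⋃ k : ℤ, {x : ℝ | x ∈ Ico (0 : ℝ) 16 ∧ x + h + 16 * k ∈ Q} := by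
    rintro x ⟨hx, k, hk⟩
    exact mem_iUnion.2 ⟨k, hx, hk⟩
  have h2 : ∀ k : ℤ, volume {x : ℝ | x ∈ Ico (0 : ℝ) 16 ∧ x + h + 16 * k ∈ Q} =
      volume (Q ∩ Ico (h + k • (16 : ℝ)) (h + (k + 1) • (16 : ℝ))) := by
    intro k
    have e : {x : ℝ | x ∈ Ico (0 : ℝ) 16 ∧ x + h + 16 * k ∈ Q} =
        (fun x : ℝ => x + (h + 16 * k)) ⁻¹' (Q ∩ Ico (h + k • (16 : ℝ)) (h + (k + 1) • (16 : ℝ))) := by
      ext x
      simp only [zsmul_eq_mul, Int.cast_add, Int.cast_one]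
      constructor
      · rintro ⟨⟨a, b⟩, c⟩
        refine ⟨?_, ?_, ?_⟩
        · show x + (h + 16 * k) ∈ Q
          rw [← add_assoc]
          exact c
        · show h + (k : ℝ) * 16 ≤ x + (h + 16 * k)
          linarith
        · show x + (h + 16 * k) < h + ((k : ℝ) + 1) * 16
          linarith
      · rintro ⟨c, a, b⟩
        have a' : h + (k : ℝ) * 16 ≤ x + (h + 16 * k) := a
        have b' : x + (h + 16 * k) < h + ((k : ℝ) + 1) * 16 := b
        have c' : x + (h + 16 * k) ∈ Q := c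
        refine ⟨⟨by linarith, by linarith⟩, ?_⟩
        rw [add_assoc]
        exact c'
    rw [e, measure_preimage_add_right]
  calc volume {x : ℝ | x ∈ Ico (0 : ℝ) 16 ∧ ∃ k : ℤ, x + h + 16 * k ∈ Q}
      ≤ volume (⋃ k : ℤ, {x : ℝ | x ∈ Ico (0 : ℝ) 16 ∧ x + h + 16 * k ∈ Q}) := measure_mono h1
    _ ≤ ∑' k : ℤ, volume {x : ℝ | x ∈ Ico (0 : ℝ) 16 ∧ x + h + 16 * k ∈ Q} :=
        measure_iUnion_le _
    _ = ∑' k : ℤ, volume (Q ∩ Ico (h + k • (16 : ℝ)) (h + (k + 1) • (16 : ℝ))) := by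
        simp_rw [h2]
    _ = volume (⋃ k : ℤ, Q ∩ Ico (h + k • (16 : ℝ)) (h + (k + 1) • (16 : ℝ))) := by
        refine (measure_iUnion ?_ (fun k => hQ.inter measurableSet_Ico)).symm
        intro k l hkl
        exact (pairwise_disjoint_Ico_add_zsmul h (16 : ℝ) hkl).mono inter_subset_right
          inter_subset_right
    _ ≤ volume Q := measure_mono (iUnion_subset (fun k => inter_subset_left))

theorem closed (K : Set ℝ) (hK : IsCompact K) : IsClosed {x : ℝ | ∃ k : ℤ, x + 16 * k ∈ K} := by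
  have e : {x : ℝ | ∃ k : ℤ, x + 16 * k ∈ K} =
      (fun x : ℝ => (x : AddCircle (16 : ℝ))) ⁻¹' ((fun x : ℝ => (x : AddCircle (16 : ℝ))) '' K) := by
    ext x
    constructor
    · rintro ⟨k, hk⟩
      refine ⟨x + 16 * k, hk, ?_⟩
      show ((x + 16 * k : ℝ) : AddCircle (16 : ℝ)) = x
      rw [QuotientAddGroup.eq, AddSubgroup.mem_zmultiples_iff]
      refine ⟨-k, ?_⟩
      rw [zsmul_eq_mul]
      push_cast
      ring
    · rintro ⟨y, hy, hyx⟩
      have h : ((x : ℝ) : AddCircle (16 : ℝ)) = y := hyx.symm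
      rw [QuotientAddGroup.eq, AddSubgroup.mem_zmultiples_iff] at h
      obtain ⟨k, hk⟩ := h
      refine ⟨k, ?_⟩
      rw [zsmul_eq_mul] at hk
      have : x + 16 * k = y := by linarith
      rw [this]
      exact hy
  rw [e]
  exact ((hK.image (AddCircle.continuous_mk' 16)).isClosed).preimage (AddCircle.continuous_mk' 16)

end Apx

open Apx in
theorem s_APX : S_APX := by
  intro V hV hV45 ε hε
  set P0 : Set ℝ := Ioo (0 : ℝ) 1 ∪ V with hP0
  have hP0o : IsOpen P0 := isOpen_Ioo.union hV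
  have hP0s : P0 ⊆ Ioo 0 5 := by
    rintro x (hx | hx)
    · exact ⟨hx.1, by linarith [hx.2]⟩
    · exact ⟨by linarith [(hV45 hx).1], (hV45 hx).2⟩
  have hP0f : volume P0 ≠ ⊤ :=
    ne_top_of_le_ne_top (by rw [Real.volume_Ioo]; exact ENNReal.ofReal_ne_top) (measure_mono hP0s)
  obtain ⟨K, hKP, hK, hKv⟩ := hP0o.measurableSet.exists_isCompact_sdiff_lt hP0f
    (ε := ENNReal.ofReal (ε / 2)) (by
      rw [Ne, ENNReal.ofReal_eq_zero, not_le]
      positivity)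
  set Q : Set ℝ := P0 \ K with hQ
  have hQm : MeasurableSet Q := hP0o.measurableSet.diff hK.isClosed.measurableSet
  refine ⟨{x : ℝ | ∃ k : ℤ, x + 16 * k ∈ K}, closed K hK, ?_, ?_⟩
  · intro x
    constructor
    · rintro ⟨k, hk⟩
      refine ⟨k - 1, ?_⟩
      have : x + 16 + 16 * ((k - 1 : ℤ) : ℝ) = x + 16 * k := by push_cast; ring
      rw [this]
      exact hk
    · rintro ⟨k, hk⟩
      refine ⟨k + 1, ?_⟩
      have : x + 16 * ((k + 1 : ℤ) : ℝ) = x + 16 + 16 * k := by push_cast; ring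
      rw [this]
      exact hk
  · intro h
    have hper : ∀ x : ℝ, x ∈ per V → ∃ k : ℤ, x + 16 * (k : ℝ) ∈ P0 := by
      rintro x ⟨k, hk⟩
      refine ⟨-k, ?_⟩
      have : x + 16 * ((-k : ℤ) : ℝ) = x - 16 * k := by push_cast; ring
      rw [this]
      exact hk
    have hper2 : ∀ x : ℝ, (∃ k : ℤ, x + 16 * (k : ℝ) ∈ K) → x ∈ per V := by
      rintro x ⟨k, hk⟩
      refine ⟨-k, ?_⟩
      have : x - 16 * ((-k : ℤ) : ℝ) = x + 16 * k := by push_cast; ring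
      rw [this]
      exact hKP hk
    set A1 : Set ℝ := {x : ℝ | x ∈ Ico (0 : ℝ) 16 ∧ x ∈ per V ∧ x + h ∈ per V} with hA1
    set A2 : Set ℝ := {x : ℝ | x ∈ Ico (0 : ℝ) 16 ∧ x ∈ {x : ℝ | ∃ k : ℤ, x + 16 * k ∈ K} ∧
      x + h ∈ {x : ℝ | ∃ k : ℤ, x + 16 * k ∈ K}} with hA2
    have hl : lag {x : ℝ | ∃ k : ℤ, x + 16 * k ∈ K} h = volume.real A2 := rfl
    have hl' : lag (per V) h = volume.real A1 := rfl
    rw [hl, hl']
    have hfin : ∀ A : Set ℝ, A ⊆ Ico (0 : ℝ) 16 → volume A ≠ ⊤ := fun A hA =>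
      ne_top_of_le_ne_top (by rw [Real.volume_Ico]; exact ENNReal.ofReal_ne_top) (measure_mono hA)
    have h21 : A2 ⊆ A1 := fun x hx => ⟨hx.1, hper2 _ hx.2.1, hper2 _ hx.2.2⟩
    set D1 : Set ℝ := {x : ℝ | x ∈ Ico (0 : ℝ) 16 ∧ ∃ k : ℤ, x + 0 + 16 * k ∈ Q} with hD1
    set D2 : Set ℝ := {x : ℝ | x ∈ Ico (0 : ℝ) 16 ∧ ∃ k : ℤ, x + h + 16 * k ∈ Q} with hD2
    have h1D : A1 ⊆ A2 ∪ (D1 ∪ D2) := by
      rintro x ⟨hx, h1, h2⟩
      obtain ⟨k, hk⟩ := hper x h1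
      obtain ⟨l, hl⟩ := hper _ h2
      by_cases hk' : x + 16 * k ∈ K
      · by_cases hl' : x + h + 16 * l ∈ K
        · exact Or.inl ⟨hx, ⟨k, hk'⟩, ⟨l, hl'⟩⟩
        · exact Or.inr (Or.inr ⟨hx, l, hl, hl'⟩)
      · refine Or.inr (Or.inl ⟨hx, k, ?_⟩)
        rw [add_zero]
        exact ⟨hk, hk'⟩
    have hD : ∀ D : Set ℝ, volume D ≤ volume Q → volume.real D ≤ ε / 2 := by
      intro D hD
      rw [measureReal_def]
      exact ENNReal.toReal_le_of_le_ofReal (by positivity) (hD.trans hKv.le)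
    have e1 := hD D1 (win_le Q hQm 0)
    have e2 := hD D2 (win_le Q hQm h)
    have e3 : volume.real A1 ≤ volume.real A2 + (volume.real D1 + volume.real D2) :=
      calc volume.real A1 ≤ volume.real (A2 ∪ (D1 ∪ D2)) := measureReal_mono h1D (hfin _ (by
              rintro x (hx | hx | hx)
              · exact hx.1
              · exact hx.1
              · exact hx.1))
        _ ≤ volume.real A2 + volume.real (D1 ∪ D2) := measureReal_union_le _ _
        _ ≤ _ := by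
            gcongr
            exact measureReal_union_le _ _
    have e4 : volume.real A2 ≤ volume.real A1 := measureReal_mono h21 (hfin _ (fun x hx => hx.1))
    rw [abs_le]
    constructor <;> linarith

end Pool.Agent.R923.RC
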