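import Pool.Agent.R923.RC.Stat

open MeasureTheory Set

namespace Pool.Agent.R923.RC

namespace Clos

variable {d : ℕ} {Γ : Type} [AddCommGroup Γ] [Countable Γ]

/-- the points of the field -/
def pts (e : Γ →+ E d) (ξ : Γ → Bool) : Set (E d) := e '' {x | ξ x = true}

/-- the closed set of the field -/
def XX (e : Γ →+ E d) (ξ : Γ → Bool) : ClosedSet d := ⟨closure (pts e ξ), isClosed_closure⟩

omit [Countable Γ] in
theorem XX_hit (e : Γ →+ E d) {K : Set (E d)} (hK : IsCompact K) :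
    {ξ : Γ → Bool | ((XX e ξ).carrier ∩ K).Nonempty}
      = ⋂ n : ℕ, ⋃ x : Γ, {ξ : Γ → Bool |
          e x ∈ Metric.thickening (1 / ((n : ℝ) + 1)) K ∧ ξ x = true} := by
  ext ξ
  rw [mem_iInter]
  constructor
  · intro h n
    have h' : ((XX e ξ).carrier ∩ K).Nonempty := h
    obtain ⟨z, hz, hzK⟩ := h'
    have hz' : z ∈ closure (pts e ξ) := hz
    have hpos : (0 : ℝ) < 1 / ((n : ℝ) + 1) := by positivity
    obtain ⟨y, ⟨x, hx, hxy⟩, hy⟩ := Metric.mem_closure_iff.mp hz' _ hpos
    have hx' : ξ x = true := hx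
    rw [mem_iUnion]
    refine ⟨x, ?_, hx'⟩
    rw [Metric.mem_thickening_iff]
    refine ⟨z, hzK, ?_⟩
    rw [hxy, dist_comm]
    exact hy
  · intro h
    by_contra hcon
    have h1 : K ⊆ (closure (pts e ξ))ᶜ := by
      intro x hx hxF
      exact hcon ⟨x, hxF, hx⟩
    obtain ⟨δ, hδ, hδK⟩ := hK.exists_thickening_subset_open isClosed_closure.isOpen_compl h1
    obtain ⟨n, hn⟩ := exists_nat_one_div_lt hδ
    obtain ⟨x, hx⟩ := mem_iUnion.mp (h n)
    have hx' : e x ∈ Metric.thickening (1 / ((n : ℝ) + 1)) K ∧ ξ x = true := hx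
    exact hδK (Metric.thickening_mono hn.le K hx'.1) (subset_closure ⟨x, hx'.2, rfl⟩)

omit [AddCommGroup Γ] [Countable Γ] in
theorem coord_meas (x : Γ) : MeasurableSet {ξ : Γ → Bool | ξ x = true} := by
  have h1 : Measurable (fun ξ : Γ → Bool => ξ x) := measurable_pi_apply x
  exact h1 (measurableSet_singleton true)

theorem XX_meas (h : S_MEAS) (e : Γ →+ E d) : Measurable (XX e) := by
  apply h d (Γ → Bool) inferInstance (XX e)
  intro K hK
  rw [XX_hit e hK]
  apply MeasurableSet.iInter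
  intro n
  apply MeasurableSet.iUnion
  intro x
  by_cases hx : e x ∈ Metric.thickening (1 / ((n : ℝ) + 1)) K
  · have : {ξ : Γ → Bool | e x ∈ Metric.thickening (1 / ((n : ℝ) + 1)) K ∧ ξ x = true}
        = {ξ : Γ → Bool | ξ x = true} := by
      ext ξ
      exact ⟨fun h => h.2, fun h => ⟨hx, h⟩⟩
    rw [this]
    exact coord_meas x
  · have : {ξ : Γ → Bool | e x ∈ Metric.thickening (1 / ((n : ℝ) + 1)) K ∧ ξ x = true}
        = ∅ := by
      ext ξ
      exact ⟨fun h => absurd h.1 hx, fun h => absurd h (notMem_empty _)⟩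
    rw [this]
    exact MeasurableSet.empty

omit [Countable Γ] in
theorem translate_XX (e : Γ →+ E d) (a : Γ) (ξ : Γ → Bool) :
    translate (e a) (XX e ξ) = XX e (fun x => ξ (x + -a)) := by
  apply ClosedSet.ext
  change {z | z - e a ∈ closure (pts e ξ)} = closure (pts e (fun x => ξ (x + -a)))
  have h1 : {z | z - e a ∈ closure (pts e ξ)}
      = (Homeomorph.subRight (e a)) ⁻¹' (closure (pts e ξ)) := rfl
  rw [h1, Homeomorph.preimage_closure]
  congr 1
  ext z
  constructor
  · intro h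
    have h' : z - e a ∈ pts e ξ := h
    obtain ⟨x, hx, hxz⟩ := h'
    have hx' : ξ x = true := hx
    refine ⟨x + a, ?_, ?_⟩
    · change ξ (x + a + -a) = true
      rw [add_neg_cancel_right]
      exact hx'
    · rw [map_add, hxz]
      abel
  · rintro ⟨x, hx, hxz⟩
    have hx' : ξ (x + -a) = true := hx
    change z - e a ∈ pts e ξ
    refine ⟨x + -a, hx', ?_⟩
    rw [map_add, map_neg, hxz]
    abel

omit [Countable Γ] in
theorem null (e : Γ →+ E d) (S : E d → ℝ) (r : ℕ → ℝ) (P : Measure (Γ → Bool))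
    (hr : ∀ k, 0 < r k) (hP : FieldOK e S r P) (x : Γ) :
    P {ξ : Γ → Bool | ξ x = false ∧ e x ∈ closure (pts e ξ)} = 0 := by
  obtain ⟨h1, _, h3⟩ := hP
  have h4 : ∀ k : ℕ, P.real {ξ : Γ → Bool | ξ x = false ∧ e x ∈ closure (pts e ξ)}
      ≤ (1 / 2) ^ k := by
    intro k
    refine le_trans (measureReal_mono ?_) (h3 k x)
    intro ξ hξ
    have hξ' : ξ x = false ∧ e x ∈ closure (pts e ξ) := hξ
    refine ⟨hξ'.1, ?_⟩
    obtain ⟨y, ⟨z, hz, hzy⟩, hy⟩ := Metric.mem_closure_iff.mp hξ'.2 _ (hr k)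
    have hz' : ξ z = true := hz
    exact ⟨z, by rw [hzy]; exact hy, hz'⟩
  have h5 : P.real {ξ : Γ → Bool | ξ x = false ∧ e x ∈ closure (pts e ξ)} ≤ 0 := by
    have h6 : Filter.Tendsto (fun k : ℕ => ((1 : ℝ) / 2) ^ k) Filter.atTop (nhds 0) :=
      tendsto_pow_atTop_nhds_zero_of_lt_one (by norm_num) (by norm_num)
    exact ge_of_tendsto' h6 h4
  have h6 := le_antisymm h5 measureReal_nonneg
  exact (measureReal_eq_zero_iff).mp h6

end Clos

open Clos in
theorem s_CLOS (h : S_MEAS) : S_CLOS := by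
  intro d S r Γ _ _ e P hd hr hP hinv
  have hPp := hP.1
  have hX := XX_meas h e
  refine ⟨P.map (XX e), Measure.isProbabilityMeasure_map hX.aemeasurable, ?_, ?_⟩
  · intro a B hB
    have hm := Stat.translate_meas h (e a)
    rw [Measure.map_apply hX hB, Measure.map_apply hX (hm hB)]
    have h1 : XX e ⁻¹' (translate (e a) ⁻¹' B)
        = (fun (ξ : Γ → Bool) (x : Γ) => ξ (x + -a)) ⁻¹' (XX e ⁻¹' B) := by
      ext ξ
      change translate (e a) (XX e ξ) ∈ B ↔ XX e (fun x => ξ (x + -a)) ∈ B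
      rw [translate_XX]
    have h2 : Measurable (fun (ξ : Γ → Bool) (x : Γ) => ξ (x + -a)) := by
      rw [measurable_pi_iff]
      intro x
      exact measurable_pi_apply (x + -a)
    rw [h1, ← Measure.map_apply h2 (hX hB), hinv (-a)]
  · intro x y
    rw [← hP.2.1 x y]
    have h1 : MeasurableSet {F : ClosedSet d | e x ∈ F.carrier ∧ e y ∈ F.carrier} := by
      have h2 : {F : ClosedSet d | e x ∈ F.carrier ∧ e y ∈ F.carrier}
          = hit d {e x} ∩ hit d {e y} := by
        ext F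
        constructor
        · intro hF
          have hF' : e x ∈ F.carrier ∧ e y ∈ F.carrier := hF
          exact ⟨⟨e x, hF'.1, rfl⟩, ⟨e y, hF'.2, rfl⟩⟩
        · rintro ⟨⟨u, hu, hu'⟩, ⟨v, hv, hv'⟩⟩
          have hu'' : u = e x := hu'
          have hv'' : v = e y := hv'
          rw [hu''] at hu
          rw [hv''] at hv
          exact ⟨hu, hv⟩
      rw [h2]
      exact (Stat.hit_meas isCompact_singleton).inter (Stat.hit_meas isCompact_singleton)
    rw [measureReal_def, Measure.map_apply hX h1, ← measureReal_def]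
    have n1 := null e S r P hr hP x
    have n2 := null e S r P hr hP y
    apply measureReal_congr
    have a1 : ∀ᵐ ξ ∂P, ¬ (ξ x = false ∧ e x ∈ closure (pts e ξ)) := by
      rw [ae_iff]
      simpa using n1
    have a2 : ∀ᵐ ξ ∂P, ¬ (ξ y = false ∧ e y ∈ closure (pts e ξ)) := by
      rw [ae_iff]
      simpa using n2
    filter_upwards [a1, a2] with ξ b1 b2
    apply propext
    change (e x ∈ closure (pts e ξ) ∧ e y ∈ closure (pts e ξ)) ↔ (ξ x = true ∧ ξ y = true)
    constructor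
    · rintro ⟨c1, c2⟩
      constructor
      · by_contra hc
        exact b1 ⟨by simpa using hc, c1⟩
      · by_contra hc
        exact b2 ⟨by simpa using hc, c2⟩
    · rintro ⟨c1, c2⟩
      exact ⟨subset_closure ⟨x, c1, rfl⟩, subset_closure ⟨y, c2, rfl⟩⟩

end Pool.Agent.R923.RC
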