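import Pool.Agent.R923.RC.Inv

/-!
# RC-COMP: compactness (helper780)
-/

open MeasureTheory Set Filter Topology

namespace Pool.Agent.R923.RC

section Comp

variable {d : ℕ} {Γ : Type}

open Classical in
/-- The field of a finite set. -/
noncomputable def compXi (e : Γ → E d) (T : Finset (E d)) : Γ → Bool := fun x => decide (e x ∈ T)

/-- The law with weights `w`. -/
noncomputable def compP (e : Γ → E d) (F : Finset (E d)) (w : Finset (E d) → ℝ) :
    Measure (Γ → Bool) :=
  ∑ T ∈ F.powerset, ENNReal.ofReal (w T) • Measure.dirac (compXi e T)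

theorem compP_apply (e : Γ → E d) (F : Finset (E d)) (w : Finset (E d) → ℝ)
    {B : Set (Γ → Bool)} (hB : MeasurableSet B) :
    compP e F w B = ∑ T ∈ F.powerset, ENNReal.ofReal (w T) * B.indicator 1 (compXi e T) := by
  unfold compP
  rw [Measure.finsetSum_apply]
  refine Finset.sum_congr rfl fun T _ => ?_
  rw [Measure.smul_apply, smul_eq_mul, Measure.dirac_apply' _ hB]

theorem compP_real (e : Γ → E d) (F : Finset (E d)) (w : Finset (E d) → ℝ) (hw : ∀ T, 0 ≤ w T)
    {B : Set (Γ → Bool)} (hB : MeasurableSet B) :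
    (compP e F w).real B = ∑ T ∈ F.powerset, B.indicator (fun _ => w T) (compXi e T) := by
  unfold Measure.real
  rw [compP_apply e F w hB, ENNReal.toReal_sum]
  · refine Finset.sum_congr rfl fun T _ => ?_
    by_cases h : compXi e T ∈ B
    · rw [indicator_of_mem h, indicator_of_mem h, Pi.one_apply, mul_one,
        ENNReal.toReal_ofReal (hw T)]
    · rw [indicator_of_notMem h, indicator_of_notMem h, mul_zero, ENNReal.toReal_zero]
  · intro T _
    by_cases h : compXi e T ∈ B
    · rw [indicator_of_mem h, Pi.one_apply, mul_one]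
      exact ENNReal.ofReal_ne_top
    · rw [indicator_of_notMem h, mul_zero]
      exact ENNReal.zero_ne_top

theorem compP_prob (e : Γ → E d) (F : Finset (E d)) (w : Finset (E d) → ℝ) (hw : ∀ T, 0 ≤ w T)
    (h1 : ∑ T ∈ F.powerset, w T = 1) : IsProbabilityMeasure (compP e F w) := by
  constructor
  rw [compP_apply e F w MeasurableSet.univ]
  simp only [indicator_univ, Pi.one_apply, mul_one]
  rw [← ENNReal.ofReal_sum_of_nonneg (fun T _ => hw T), h1, ENNReal.ofReal_one]

theorem comp_eval [Countable Γ] {A : Set (Γ → Bool)} (hA : IsClopen A) :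
    Continuous fun Q : ProbabilityMeasure (Γ → Bool) => (Q : Measure (Γ → Bool)).real A := by
  rw [continuous_iff_continuousAt]
  intro Q
  have h1 := ProbabilityMeasure.tendsto_measure_of_null_frontier_of_tendsto' (μ := Q)
    (μs := fun Q' : ProbabilityMeasure (Γ → Bool) => Q') (L := 𝓝 Q) tendsto_id (E := A)
    (by rw [hA.frontier_eq, measure_empty])
  exact (ENNReal.tendsto_toReal (measure_ne_top _ _)).comp h1

theorem invU_mono (e : Γ → E d) (ρ : ℝ) (x : Γ) {G G' : Finset Γ} (h : G ⊆ G') :
    invU e ρ x G ⊆ invU e ρ x G' := by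
  rintro ξ ⟨h1, y, hy, h2⟩
  exact ⟨h1, y, h hy, h2⟩

end Comp

theorem s_COMP : S_COMP := by
  classical
  intro d S r Γ _ e hfin
  have h0 : ∀ (y : Γ) (b : Bool), IsClopen {ξ : Γ → Bool | ξ y = b} := fun y b =>
    (isClopen_discrete {b}).preimage (continuous_apply y)
  have hcl2 : ∀ x y : Γ, IsClopen {ξ : Γ → Bool | ξ x = true ∧ ξ y = true} := fun x y =>
    (h0 x true).inter (h0 y true)
  let K : Finset Γ × ℕ → Set (ProbabilityMeasure (Γ → Bool)) := fun q =>
    {Q | (∀ x ∈ q.1, ∀ y ∈ q.1,
        (Q : Measure (Γ → Bool)).real {ξ | ξ x = true ∧ ξ y = true} = S (e x - e y)) ∧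
      ∀ k < q.2, ∀ x ∈ q.1, (Q : Measure (Γ → Bool)).real (invU e (r k) x q.1) ≤ (1 / 2) ^ k}
  have hclosed : ∀ q, IsClosed (K q) := by
    intro q
    have q1 : IsClosed {Q : ProbabilityMeasure (Γ → Bool) | ∀ x ∈ q.1, ∀ y ∈ q.1,
        (Q : Measure (Γ → Bool)).real {ξ | ξ x = true ∧ ξ y = true} = S (e x - e y)} := by
      simp only [ofPred_forall]
      refine isClosed_iInter fun x => isClosed_iInter fun _ => isClosed_iInter fun y =>
        isClosed_iInter fun _ => ?_
      exact isClosed_eq (comp_eval (hcl2 x y)) continuous_const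
    have q2 : IsClosed {Q : ProbabilityMeasure (Γ → Bool) | ∀ k < q.2, ∀ x ∈ q.1,
        (Q : Measure (Γ → Bool)).real (invU e (r k) x q.1) ≤ (1 / 2) ^ k} := by
      simp only [ofPred_forall]
      refine isClosed_iInter fun k => isClosed_iInter fun _ => isClosed_iInter fun x =>
        isClosed_iInter fun _ => ?_
      exact isClosed_le (comp_eval (invU_clopen e (r k) x q.1)) continuous_const
    exact q1.inter q2
  have hne : ∀ q, (K q).Nonempty := by
    rintro ⟨A, n⟩
    obtain ⟨w, hw0, hw1, hw2, hw3⟩ := hfin (A.image e) n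
    refine ⟨⟨compP e (A.image e) w, compP_prob e _ w hw0 hw1⟩, ?_, ?_⟩
    · intro x hx y hy
      change (compP e (A.image e) w).real _ = _
      rw [compP_real e _ w hw0 (hcl2 x y).isOpen.measurableSet,
        ← hw2 (e x) (Finset.mem_image_of_mem e hx) (e y) (Finset.mem_image_of_mem e hy)]
      refine Finset.sum_congr rfl fun T _ => ?_
      have hiff : compXi e T ∈ {ξ : Γ → Bool | ξ x = true ∧ ξ y = true} ↔ e x ∈ T ∧ e y ∈ T := by
        simp only [mem_ofPred_eq, compXi, decide_eq_true_eq]
      by_cases h : e x ∈ T ∧ e y ∈ T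
      · rw [indicator_of_mem (hiff.mpr h), if_pos h]
      · rw [indicator_of_notMem (fun h' => h (hiff.mp h')), if_neg h]
    · intro k hk x hx
      change (compP e (A.image e) w).real _ ≤ _
      rw [compP_real e _ w hw0 (invU_clopen e (r k) x A).isOpen.measurableSet]
      refine le_trans (Finset.sum_le_sum fun T _ => ?_)
        (hw3 k hk (e x) (Finset.mem_image_of_mem e hx))
      by_cases h : compXi e T ∈ invU e (r k) x A
      · have h' : e x ∉ T ∧ ∃ y ∈ T, dist (e x) y < r k := by
          obtain ⟨h1, y, -, h2, h3⟩ := h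
          refine ⟨?_, e y, ?_, h2⟩
          · simpa [compXi] using h1
          · simpa [compXi] using h3
        rw [indicator_of_mem h, if_pos h']
      · rw [indicator_of_notMem h]
        split_ifs
        · exact hw0 T
        · exact le_refl _
  have hdir : Directed (· ⊇ ·) K := by
    rintro ⟨A, n⟩ ⟨A', n'⟩
    refine ⟨⟨A ∪ A', max n n'⟩, ?_, ?_⟩
    · rintro Q ⟨h1, h2⟩
      refine ⟨fun x hx y hy => h1 x (Finset.mem_union_left _ hx) y (Finset.mem_union_left _ hy),
        fun k hk x hx => ?_⟩
      exact le_trans (measureReal_mono (invU_mono e (r k) x Finset.subset_union_left))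
        (h2 k (lt_of_lt_of_le hk (le_max_left _ _)) x (Finset.mem_union_left _ hx))
    · rintro Q ⟨h1, h2⟩
      refine ⟨fun x hx y hy => h1 x (Finset.mem_union_right _ hx) y (Finset.mem_union_right _ hy),
        fun k hk x hx => ?_⟩
      exact le_trans (measureReal_mono (invU_mono e (r k) x Finset.subset_union_right))
        (h2 k (lt_of_lt_of_le hk (le_max_right _ _)) x (Finset.mem_union_right _ hx))
  obtain ⟨Q, hQ⟩ := IsCompact.nonempty_iInter_of_directed_nonempty_isCompact_isClosed K hdir hne
    (fun q => (hclosed q).isCompact) hclosed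
  rw [mem_iInter] at hQ
  refine ⟨(Q : Measure (Γ → Bool)), inferInstance, ?_, ?_⟩
  · intro x y
    exact (hQ ({x, y}, 0)).1 x (by simp) y (by simp)
  · intro k x
    refine (invU_le e (r k) x _ _ (by positivity)).2 (fun G => ?_)
    exact le_trans (measureReal_mono (invU_mono e (r k) x (Finset.subset_insert x G)))
      ((hQ (insert x G, k + 1)).2 k (Nat.lt_succ_self k) x (Finset.mem_insert_self x G))

end Pool.Agent.R923.RC
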