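import Pool.Agent.R923.RC.Stm

/-!
# RC-CONT1: the inequalities imply continuity (helper806)
-/

set_option autoImplicit false

open MeasureTheory Set Topology

namespace Pool.Agent.R923.RC

open Classical in
/-- the sum of a form concentrated at one pair of points -/
theorem cont1_sum {d : ℕ} (T : Finset (E d)) (a b : E d) (g : E d → E d → ℝ) :
    ∑ x ∈ T, ∑ y ∈ T, (if x = a ∧ y = b then g x y else 0) =
      if a ∈ T ∧ b ∈ T then g a b else 0 := by
  have h1 : ∀ x ∈ T, ∑ y ∈ T, (if x = a ∧ y = b then g x y else 0) =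
      if x = a then (if b ∈ T then g a b else 0) else 0 := by
    intro x _
    by_cases hx : x = a
    · rw [if_pos hx, hx]
      simp only [true_and]
      rw [Finset.sum_ite_eq']
    · simp [hx]
  rw [Finset.sum_congr rfl h1, Finset.sum_ite_eq']
  by_cases ha : a ∈ T <;> by_cases hb : b ∈ T <;> simp [ha, hb]

open Classical in
/-- the inequality for the three points `0, h, h'` -/
theorem cont1_tri {d : ℕ} {S : E d → ℝ} {r : ℕ → ℝ} (H : CondR S r) (h h' : E d) :
    S h - S h' ≤ S 0 - S (h - h') := by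
  obtain ⟨T, hT, hle⟩ := H {0, h, h'} (fun x y => (if x = h ∧ y = h then (1 : ℝ) else 0) +
    (if x = h ∧ y = h' then (-1 : ℝ) else 0) + (if x = h ∧ y = 0 then (-1 : ℝ) else 0) +
    (if x = h' ∧ y = 0 then (1 : ℝ) else 0)) 0 (fun _ _ => 0) (fun _ _ => le_rfl)
  simp only [Finset.range_zero, Finset.sum_empty, add_zero, add_mul, ite_mul, zero_mul,
    Finset.sum_add_distrib] at hle
  rw [cont1_sum T h h (fun _ _ => 1), cont1_sum T h h' (fun _ _ => -1),
    cont1_sum T h 0 (fun _ _ => -1), cont1_sum T h' 0 (fun _ _ => 1),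
    cont1_sum _ h h (fun x y => 1 * S (x - y)), cont1_sum _ h h' (fun x y => -1 * S (x - y)),
    cont1_sum _ h 0 (fun x y => -1 * S (x - y)), cont1_sum _ h' 0 (fun x y => 1 * S (x - y))] at hle
  have m1 : h ∈ ({0, h, h'} : Finset (E d)) := by simp
  have m2 : h' ∈ ({0, h, h'} : Finset (E d)) := by simp
  have m3 : (0 : E d) ∈ ({0, h, h'} : Finset (E d)) := by simp
  simp only [m1, m2, m3, and_self, if_true, sub_self, sub_zero] at hle
  have h0 : 0 ≤ (if h ∈ T ∧ h ∈ T then (1 : ℝ) else 0) + (if h ∈ T ∧ h' ∈ T then (-1 : ℝ) else 0) +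
      (if h ∈ T ∧ (0 : E d) ∈ T then (-1 : ℝ) else 0) +
      (if h' ∈ T ∧ (0 : E d) ∈ T then (1 : ℝ) else 0) := by
    by_cases a1 : h ∈ T <;> by_cases a2 : h' ∈ T <;> by_cases a3 : (0 : E d) ∈ T <;>
      simp [a1, a2, a3]
  simp only [and_self] at h0 hle
  linarith

open Classical in
/-- the inequality for the two points `0, h` -/
theorem cont1_two {d : ℕ} {S : E d → ℝ} {r : ℕ → ℝ} (H : CondR S r) (k : ℕ) (h : E d)
    (hr : ‖h‖ < r k) : S 0 - S h ≤ (1 / 2) ^ k := by
  obtain ⟨T, hT, hle⟩ := H {0, h} (fun x y => (if x = h ∧ y = h then (-1 : ℝ) else 0) +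
    (if x = h ∧ y = 0 then (1 : ℝ) else 0)) (k + 1)
    (fun j x => if j = k ∧ x = 0 then 1 else 0) (fun j x => by split_ifs <;> norm_num)
  simp only [add_mul, ite_mul, zero_mul, Finset.sum_add_distrib] at hle
  rw [cont1_sum T h h (fun _ _ => -1), cont1_sum T h 0 (fun _ _ => 1),
    cont1_sum _ h h (fun x y => -1 * S (x - y)), cont1_sum _ h 0 (fun x y => 1 * S (x - y))] at hle
  have m1 : h ∈ ({0, h} : Finset (E d)) := by simp
  have m3 : (0 : E d) ∈ ({0, h} : Finset (E d)) := by simp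
  simp only [m1, m3, and_self, if_true, sub_self, sub_zero] at hle
  have e1 : ∑ j ∈ Finset.range (k + 1), ∑ x ∈ ({0, h} : Finset (E d)),
      (if j = k ∧ x = 0 then 1 * ((1 : ℝ) / 2) ^ j else 0) = (1 / 2) ^ k := by
    rw [Finset.sum_eq_single k]
    · simp only [true_and]
      rw [Finset.sum_ite_eq', if_pos m3, one_mul]
    · intro j _ hj
      simp [hj]
    · intro hk
      simp at hk
  have e2 : (if h ∈ T ∧ (0 : E d) ∉ T then (1 : ℝ) else 0) ≤
      ∑ j ∈ Finset.range (k + 1), ∑ x ∈ (({0, h} : Finset (E d)) \ T).filter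
        (fun x => ∃ y ∈ T, dist x y < r j), (if j = k ∧ x = 0 then (1 : ℝ) else 0) := by
    have hnn : ∀ j x, (0 : ℝ) ≤ (if j = k ∧ x = (0 : E d) then (1 : ℝ) else 0) := by
      intro j x
      split_ifs <;> norm_num
    by_cases hc : h ∈ T ∧ (0 : E d) ∉ T
    · rw [if_pos hc]
      have h1 : (0 : E d) ∈ (({0, h} : Finset (E d)) \ T).filter
          (fun x => ∃ y ∈ T, dist x y < r k) := by
        rw [Finset.mem_filter, Finset.mem_sdiff]
        refine ⟨⟨m3, hc.2⟩, h, hc.1, ?_⟩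
        rw [dist_zero_left]
        exact hr
      calc (1 : ℝ) = (if k = k ∧ (0 : E d) = 0 then (1 : ℝ) else 0) := by simp
        _ ≤ ∑ x ∈ (({0, h} : Finset (E d)) \ T).filter
              (fun x => ∃ y ∈ T, dist x y < r k), (if k = k ∧ x = 0 then (1 : ℝ) else 0) :=
            Finset.single_le_sum (f := fun x : E d => if k = k ∧ x = 0 then (1 : ℝ) else 0)
              (fun x _ => hnn k x) h1
        _ ≤ _ := Finset.single_le_sum (f := fun j => ∑ x ∈ (({0, h} : Finset (E d)) \ T).filter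
              (fun x => ∃ y ∈ T, dist x y < r j), (if j = k ∧ x = 0 then (1 : ℝ) else 0))
              (fun j _ => Finset.sum_nonneg fun x _ => hnn j x) (Finset.self_mem_range_succ k)
    · rw [if_neg hc]
      exact Finset.sum_nonneg fun j _ => Finset.sum_nonneg fun x _ => hnn j x
  have h0 : 0 ≤ (if h ∈ T ∧ h ∈ T then (-1 : ℝ) else 0) +
      (if h ∈ T ∧ (0 : E d) ∈ T then (1 : ℝ) else 0) +
      (if h ∈ T ∧ (0 : E d) ∉ T then (1 : ℝ) else 0) := by
    by_cases a1 : h ∈ T <;> by_cases a3 : (0 : E d) ∈ T <;> simp [a1, a3]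
  rw [e1] at hle
  simp only [and_self] at h0 hle
  linarith

theorem s_CONT1 : S_CONT1 := by
  rintro d S ⟨r, hr, H⟩
  rw [Metric.continuous_iff]
  intro h ε hε
  obtain ⟨k, hk⟩ := exists_pow_lt_of_lt_one hε (show (1 / 2 : ℝ) < 1 by norm_num)
  refine ⟨r k, hr k, fun a ha => ?_⟩
  rw [dist_eq_norm] at ha
  have h1 := cont1_tri H a h
  have h2 := cont1_tri H h a
  have h3 := cont1_two H k (a - h) ha
  have h4 := cont1_two H k (h - a) (by rwa [norm_sub_rev])
  rw [Real.dist_eq, abs_lt]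
  constructor <;> linarith

end Pool.Agent.R923.RC
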