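import Pool.Agent.R923.RC.Stm

/-!
# RC-CONT2: two point probabilities are continuous (helper806)
-/

set_option autoImplicit false

open MeasureTheory Set Topology Filter

namespace Pool.Agent.R923.RC

theorem cont2_meas {d : ℕ} (x : E d) : MeasurableSet {F : ClosedSet d | x ∈ F.carrier} := by
  have h1 : IsOpen (hit d {x})ᶜ :=
    TopologicalSpace.isOpen_generateFrom_of_mem (Or.inr ⟨{x}, isCompact_singleton, rfl⟩)
  have h2 : {F : ClosedSet d | x ∈ F.carrier} = hit d {x} := by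
    ext F
    simp [hit]
  rw [h2]
  exact h1.measurableSet.of_compl

theorem cont2_measB {d : ℕ} (G : Set (E d)) (hG : IsOpen G) :
    MeasurableSet {F : ClosedSet d | (F.carrier ∩ G).Nonempty} := by
  have h1 : IsOpen (hit d G) :=
    TopologicalSpace.isOpen_generateFrom_of_mem (Or.inl ⟨G, hG, rfl⟩)
  exact h1.measurableSet

theorem cont2_omega {d : ℕ} (μ : Measure (ClosedSet d)) [IsProbabilityMeasure μ] {ε : ℝ}
    (hε : 0 < ε) : ∃ ρ : ℝ, 0 < ρ ∧
      μ.real {F | (0 : E d) ∉ F.carrier ∧ (F.carrier ∩ Metric.ball 0 ρ).Nonempty} < ε := by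
  set A : ℕ → Set (ClosedSet d) := fun m => {F | (0 : E d) ∉ F.carrier ∧
    (F.carrier ∩ Metric.ball 0 (1 / ((m : ℝ) + 1))).Nonempty} with hA
  have hmeas : ∀ m, MeasurableSet (A m) := fun m =>
    (cont2_meas 0).compl.inter (cont2_measB _ Metric.isOpen_ball)
  have hanti : Antitone A := by
    intro m n hmn F hF
    refine ⟨hF.1, hF.2.mono (inter_subset_inter_right _ (Metric.ball_subset_ball ?_))⟩
    exact one_div_le_one_div_of_le (by positivity) (by
      have : (m : ℝ) ≤ n := by exact_mod_cast hmn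
      linarith)
  have hempty : ⋂ m, A m = ∅ := by
    rw [eq_empty_iff_forall_notMem]
    intro F hF
    rw [mem_iInter] at hF
    have h0 : (0 : E d) ∉ F.carrier := (hF 0).1
    obtain ⟨δ, hδ, hb⟩ := Metric.isOpen_iff.1 F.isClosed.isOpen_compl 0 h0
    obtain ⟨m, hm⟩ := exists_nat_one_div_lt hδ
    obtain ⟨y, hy1, hy2⟩ := (hF m).2
    exact hb (Metric.ball_subset_ball hm.le hy2) hy1
  have hlim := tendsto_measure_iInter_atTop (μ := μ) (fun m => (hmeas m).nullMeasurableSet) hanti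
    ⟨0, measure_ne_top μ _⟩
  rw [hempty, measure_empty] at hlim
  have hlim2 : Tendsto (fun m => μ.real (A m)) atTop (𝓝 0) := by
    have := (ENNReal.tendsto_toReal ENNReal.zero_ne_top).comp hlim
    rw [ENNReal.toReal_zero] at this
    exact this
  obtain ⟨m, hm⟩ := (hlim2.eventually (gt_mem_nhds hε)).exists
  exact ⟨1 / ((m : ℝ) + 1), by positivity, hm⟩

theorem cont2_diff {d : ℕ} (μ : Measure (ClosedSet d)) [IsProbabilityMeasure μ]
    (hst : Stationary μ) {ρ : ℝ} (h h' : E d) (hh : ‖h - h'‖ < ρ) :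
    μ.real {F | h ∈ F.carrier ∧ h' ∉ F.carrier} ≤
      μ.real {F | (0 : E d) ∉ F.carrier ∧ (F.carrier ∩ Metric.ball 0 ρ).Nonempty} := by
  have hB : MeasurableSet {F : ClosedSet d | h ∈ F.carrier ∧ h' ∉ F.carrier} :=
    (cont2_meas h).inter (cont2_meas h').compl
  have h1 := hst h' _ hB
  have h2 : μ.real {F | h ∈ F.carrier ∧ h' ∉ F.carrier} =
      μ.real (translate h' ⁻¹' {F : ClosedSet d | h ∈ F.carrier ∧ h' ∉ F.carrier}) := by
    unfold Measure.real
    rw [h1]
  rw [h2]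
  refine measureReal_mono ?_ (measure_ne_top μ _)
  rintro F ⟨h3, h4⟩
  change h - h' ∈ F.carrier at h3
  have h4' : ¬ (h' - h' ∈ F.carrier) := h4
  rw [sub_self] at h4'
  refine ⟨h4', h - h', h3, ?_⟩
  rw [Metric.mem_ball, dist_zero_right]
  exact hh

theorem s_CONT2 : S_CONT2 := by
  intro d μ hμ hst
  rw [Metric.continuous_iff]
  intro h ε hε
  obtain ⟨ρ, hρ, hω⟩ := cont2_omega μ hε
  refine ⟨ρ, hρ, fun a ha => ?_⟩
  rw [dist_eq_norm] at ha
  have key : ∀ x y : E d, ‖x - y‖ < ρ →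
      μ.real {F : ClosedSet d | x ∈ F.carrier ∧ (0 : E d) ∈ F.carrier} ≤
      μ.real {F : ClosedSet d | y ∈ F.carrier ∧ (0 : E d) ∈ F.carrier} +
      μ.real {F | (0 : E d) ∉ F.carrier ∧ (F.carrier ∩ Metric.ball 0 ρ).Nonempty} := by
    intro x y hxy
    have h1 : {F : ClosedSet d | x ∈ F.carrier ∧ (0 : E d) ∈ F.carrier} ⊆
        {F | y ∈ F.carrier ∧ (0 : E d) ∈ F.carrier} ∪ {F | x ∈ F.carrier ∧ y ∉ F.carrier} := by
      rintro F ⟨h2, h3⟩
      by_cases hy : y ∈ F.carrier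
      · exact Or.inl ⟨hy, h3⟩
      · exact Or.inr ⟨h2, hy⟩
    have h2 := (measureReal_mono (μ := μ) h1 (measure_ne_top μ _)).trans
      (measureReal_union_le _ _)
    have h3 := cont2_diff μ hst x y hxy
    linarith
  have k1 := key a h ha
  have k2 := key h a (by rwa [norm_sub_rev])
  rw [Real.dist_eq, abs_lt]
  constructor <;> linarith

end Pool.Agent.R923.RC
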