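import Pool.Agent.R923.RC.Stm

/-!
# RC-CTR: the contradiction, on the line
-/

set_option autoImplicit false

open MeasureTheory Set

namespace Pool.Agent.R923.RC

theorem ctr_ae {X B : Set ℝ} (hB : B ⊆ X) (h0 : volume (X \ B) = 0) :
    ∀ᵐ x : ℝ, (x ∈ B ↔ x ∈ X) := by
  have h1 : ∀ᵐ x : ℝ, x ∉ X \ B := measure_eq_zero_iff_ae_notMem.1 h0
  filter_upwards [h1] with x hx
  constructor
  · exact fun h => hB h
  · intro h
    by_contra h2
    exact hx ⟨h, h2⟩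

theorem ctr_lag {X B : Set ℝ} (hB : B ⊆ X) (h0 : volume (X \ B) = 0) : lag B = lag X := by
  funext h
  unfold lag
  apply measureReal_congr
  have h1 := ctr_ae hB h0
  have h2 : ∀ᵐ x : ℝ, (x + h ∈ B ↔ x + h ∈ X) :=
    (measurePreserving_add_right volume h).quasiMeasurePreserving.ae h1
  filter_upwards [h1, h2] with x k1 k2
  apply propext
  show (x ∈ Ico (0 : ℝ) 16 ∧ x ∈ B ∧ x + h ∈ B) ↔ (x ∈ Ico (0 : ℝ) 16 ∧ x ∈ X ∧ x + h ∈ X)
  rw [k1, k2]

theorem ctr_fin (W : Set ℝ) (t : ℝ) : volume (W ∩ Icc 4 t) ≠ ⊤ :=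
  ((measure_mono inter_subset_right).trans_lt measure_Icc_lt_top).ne

theorem ctr_step (W : Set ℝ) {s t : ℝ} (hst : s ≤ t) :
    volume.real (W ∩ Icc 4 t) ≤ volume.real (W ∩ Icc 4 s) + (t - s) := by
  have h1 : W ∩ Icc 4 t ⊆ (W ∩ Icc 4 s) ∪ Ioc s t := by
    intro x hx
    rcases le_or_gt x s with h | h
    · exact Or.inl ⟨hx.1, hx.2.1, h⟩
    · exact Or.inr ⟨h, hx.2.2⟩
  have h2 : volume ((W ∩ Icc 4 s) ∪ Ioc s t) ≠ ⊤ :=
    ((measure_union_le _ _).trans_lt (ENNReal.add_lt_top.2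
      ⟨(ctr_fin W s).lt_top, measure_Ioc_lt_top⟩)).ne
  calc volume.real (W ∩ Icc 4 t) ≤ volume.real ((W ∩ Icc 4 s) ∪ Ioc s t) := measureReal_mono h1 h2
    _ ≤ volume.real (W ∩ Icc 4 s) + volume.real (Ioc s t) := measureReal_union_le _ _
    _ = _ := by rw [Real.volume_real_Ioc_of_le hst]

theorem ctr_step' {V : Set ℝ} (hV : IsOpen V) {s t : ℝ} (h4 : 4 ≤ s) (hst : s ≤ t)
    (hI : Ioo s t ⊆ V) : volume.real (V ∩ Icc 4 s) + (t - s) ≤ volume.real (V ∩ Icc 4 t) := by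
  have h1 : (V ∩ Icc 4 s) ∪ Ioo s t ⊆ V ∩ Icc 4 t := by
    rintro x (hx | hx)
    · exact ⟨hx.1, hx.2.1, hx.2.2.trans hst⟩
    · exact ⟨hI hx, h4.trans hx.1.le, hx.2.le⟩
  have hd : Disjoint (V ∩ Icc 4 s) (Ioo s t) := by
    rw [Set.disjoint_left]
    intro x hx hy
    exact absurd hx.2.2 (not_le.2 hy.1)
  have h2 : volume.real ((V ∩ Icc 4 s) ∪ Ioo s t) = volume.real (V ∩ Icc 4 s) + (t - s) := by
    rw [measureReal_union hd measurableSet_Ioo (ctr_fin V s) measure_Ioo_lt_top.ne,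
      Real.volume_real_Ioo_of_le hst]
  rw [← h2]
  exact measureReal_mono h1 (ctr_fin V t)

theorem s_CTR (h1 : S_STR) (h2 : S_ESS) (h3 : S_MOD) (h4 : S_AE) (h5 : S_EX) : S_CTR := by
  intro Ω _ P X V hP hVo hV hVc hV1 hXc hXm hcov
  haveI := hP
  set a := volume.real V with ha
  have hVfin : volume V ≠ ⊤ := ((measure_mono hV).trans_lt measure_Ioo_lt_top).ne
  have ha0 : 0 < a := by
    have h6 : V.Nonempty := by
      have : (closure V).Nonempty := ⟨4, hVc ⟨le_rfl, by norm_num⟩⟩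
      exact closure_nonempty_iff.1 this
    exact ENNReal.toReal_pos (hVo.measure_pos volume h6).ne' hVfin
  obtain ⟨_, _, _, _, m3, m4, _, _⟩ := h3 V hVo hV
  obtain ⟨a1, a2, a3⟩ := h4 Ω _ P X V hP hVo hV hXm hcov
  obtain ⟨e1, e2, e3⟩ := h5 Ω _ P X V hP hVo hV hXm hcov
  have hW : ∀ᵐ ω ∂P, a ≤ ∫ h in Icc (3 : ℝ) 5, lag (X ω) h ∧
      ((∫ h in Icc (3 : ℝ) 5, lag (X ω) h) = a →
        ∃ W : Set ℝ, IsClosed W ∧ W ⊆ Icc 4 5 ∧ volume.real W = a ∧
          ∀ h ∈ Icc (3 : ℝ) 4, lag (X ω) h = volume.real (W ∩ Icc 4 (h + 1))) := by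
    filter_upwards [a1, a2, a3] with ω b1 b2 b3
    obtain ⟨B, hBX, hBc, hB0, hBp, hBf⟩ := h2 (X ω) (hXc ω) b1 b2
    have hlag : lag B = lag (X ω) := ctr_lag hBX hB0
    have hvol : volume.real (B ∩ Ico 0 16) = 1 + a := by
      rw [← b3]
      apply measureReal_congr
      filter_upwards [ctr_ae hBX hB0] with x hx
      apply propext
      show (x ∈ B ∧ x ∈ Ico (0 : ℝ) 16) ↔ (x ∈ X ω ∧ x ∈ Ico (0 : ℝ) 16)
      rw [hx]
    have h6 := h1 B a hBc hBp hBf ha0 hV1 hvol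
    rwa [hlag] at h6
  have hE : ∀ᵐ ω ∂P, ∫ h in Icc (3 : ℝ) 5, lag (X ω) h = a := by
    have h6 : 0 ≤ᵐ[P] fun ω => (∫ h in Icc (3 : ℝ) 5, lag (X ω) h) - a := by
      filter_upwards [hW] with ω hω
      exact sub_nonneg.2 hω.1
    have h7 : ∫ ω, ((∫ h in Icc (3 : ℝ) 5, lag (X ω) h) - a) ∂P = 0 := by
      rw [integral_sub e2 (integrable_const _), e3, m3, integral_const, probReal_univ, one_smul,
        ← ha, sub_self]
    have h8 := (integral_eq_zero_iff_of_nonneg_ae h6 (e2.sub (integrable_const _))).1 h7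
    filter_upwards [h8] with ω hω
    exact sub_eq_zero.1 hω
  have hR : ∀ᵐ ω ∂P, ∀ q : ℚ × ℚ, (4 : ℝ) ≤ q.1 → (q.1 : ℝ) < q.2 → (q.2 : ℝ) ≤ 5 →
      Ioo (q.1 : ℝ) q.2 ⊆ V →
      lag (X ω) ((q.2 : ℝ) - 1) - lag (X ω) ((q.1 : ℝ) - 1) = (q.2 : ℝ) - q.1 := by
    rw [ae_all_iff]
    intro q
    by_cases hq : (4 : ℝ) ≤ q.1 ∧ (q.1 : ℝ) < q.2 ∧ (q.2 : ℝ) ≤ 5 ∧ Ioo (q.1 : ℝ) q.2 ⊆ V
    swap
    · exact Filter.Eventually.of_forall fun ω k1 k2 k3 k4 => absurd ⟨k1, k2, k3, k4⟩ hq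
    obtain ⟨q1, q2, q3, q4⟩ := hq
    set s : ℝ := (q.1 : ℝ) with hs
    set t : ℝ := (q.2 : ℝ) with ht
    have es : s - 1 + 1 = s := by ring
    have et : t - 1 + 1 = t := by ring
    have ms : s - 1 ∈ Icc (3 : ℝ) 4 := ⟨by linarith, by linarith⟩
    have mt : t - 1 ∈ Icc (3 : ℝ) 4 := ⟨by linarith, by linarith⟩
    have h6 : 0 ≤ᵐ[P] fun ω => (t - s) - (lag (X ω) (t - 1) - lag (X ω) (s - 1)) := by
      filter_upwards [hW, hE] with ω hw he
      obtain ⟨W, _, _, _, hWl⟩ := hw.2 he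
      have k1 := hWl _ ms
      have k2 := hWl _ mt
      rw [es] at k1
      rw [et] at k2
      have k3 := ctr_step W q2.le
      show 0 ≤ (t - s) - (lag (X ω) (t - 1) - lag (X ω) (s - 1))
      rw [k1, k2]
      linarith
    have i1 : Integrable (fun ω => lag (X ω) (t - 1) - lag (X ω) (s - 1)) P :=
      (e1 _).1.sub (e1 _).1
    have i2 : Integrable (fun ω => (t - s) - (lag (X ω) (t - 1) - lag (X ω) (s - 1))) P :=
      (integrable_const _).sub i1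
    have h7 : ∫ ω, ((t - s) - (lag (X ω) (t - 1) - lag (X ω) (s - 1))) ∂P = 0 := by
      apply le_antisymm
      · rw [integral_sub (integrable_const _) i1, integral_sub (e1 _).1 (e1 _).1, (e1 _).2, (e1 _).2,
          m4 _ mt, m4 _ ms, es, et, integral_const]
        have := ctr_step' hVo q1 q2.le q4
        rw [probReal_univ, one_smul]
        linarith
      · exact integral_nonneg_of_ae h6
    have h8 := (integral_eq_zero_iff_of_nonneg_ae h6 i2).1 h7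
    filter_upwards [h8] with ω hω _ _ _ _
    have : (t - s) - (lag (X ω) (t - 1) - lag (X ω) (s - 1)) = 0 := hω
    linarith
  obtain ⟨ω, hw, he, hr⟩ := (hW.and (hE.and hR)).exists
  obtain ⟨W, hWc, hWs, hWa, hWl⟩ := hw.2 he
  have hVW : V ⊆ W := by
    intro x hx
    by_contra hxW
    have ho : IsOpen (V \ W) := hVo.sdiff hWc
    obtain ⟨ε, hε, hb⟩ := Metric.isOpen_iff.1 ho x ⟨hx, hxW⟩
    obtain ⟨q1, k1, k2⟩ := exists_rat_btwn (show x - ε < x by linarith)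
    obtain ⟨q2, k3, k4⟩ := exists_rat_btwn (show x < x + ε by linarith)
    have hsub : ∀ y ∈ Icc (q1 : ℝ) q2, y ∈ V \ W := by
      intro y hy
      apply hb
      rw [Metric.mem_ball, Real.dist_eq, abs_lt]
      constructor
      · linarith [hy.1]
      · linarith [hy.2]
    have hlt : (q1 : ℝ) < q2 := k2.trans k3
    have v1 := hV (hsub q1 ⟨le_rfl, hlt.le⟩).1
    have v2 := hV (hsub q2 ⟨hlt.le, le_rfl⟩).1
    have h6 := hr (q1, q2) v1.1.le hlt v2.2.le (fun y hy => (hsub y ⟨hy.1.le, hy.2.le⟩).1)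
    simp only at h6
    rw [hWl _ ⟨by linarith [v2.1], by linarith [v2.2]⟩, hWl _ ⟨by linarith [v1.1], by linarith [v1.2]⟩] at h6
    have h7 : W ∩ Icc 4 ((q2 : ℝ) - 1 + 1) = W ∩ Icc 4 ((q1 : ℝ) - 1 + 1) := by
      rw [sub_add_cancel, sub_add_cancel]
      ext y
      constructor
      · rintro ⟨y1, y2, y3⟩
        refine ⟨y1, y2, ?_⟩
        by_contra hcon
        push Not at hcon
        exact (hsub y ⟨hcon.le, y3⟩).2 y1
      · rintro ⟨y1, y2, y3⟩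
        exact ⟨y1, y2, y3.trans hlt.le⟩
    rw [h7, sub_self] at h6
    linarith
  have h45 : Icc 4 5 ⊆ W := hVc.trans (closure_minimal hVW hWc)
  have hfin : volume W ≠ ⊤ := ((measure_mono hWs).trans_lt measure_Icc_lt_top).ne
  have h9 := measureReal_mono h45 hfin
  rw [Real.volume_real_Icc_of_le (by norm_num), hWa] at h9
  linarith

end Pool.Agent.R923.RC
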