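import Mathlib

/-!
# Covariances of stationary random closed sets (problem MP_81397d_pr): definitions

Project RC (helper923).
-/

open MeasureTheory Set

namespace Pool.Agent.R923.RC

/-- Euclidean space `ℝ^d`. -/
abbrev E (d : ℕ) := EuclideanSpace ℝ (Fin d)

/-- Closed subsets of `ℝ^d`. -/
@[ext] structure ClosedSet (d : ℕ) where
  /-- the underlying set -/
  carrier : Set (E d)
  isClosed : IsClosed carrier

/-- The family of closed sets which hit `A`. -/
def hit (d : ℕ) (A : Set (E d)) : Set (ClosedSet d) := {F | (F.carrier ∩ A).Nonempty}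

/-- The Fell (hit-or-miss) topology on the closed subsets of `ℝ^d`: generated by the families
of closed sets hitting an open set and of closed sets missing a compact set. -/
instance fellTopology (d : ℕ) : TopologicalSpace (ClosedSet d) :=
  TopologicalSpace.generateFrom
    ({U | ∃ G : Set (E d), IsOpen G ∧ U = hit d G} ∪
      {U | ∃ K : Set (E d), IsCompact K ∧ U = (hit d K)ᶜ})

/-- The Borel σ-algebra of the Fell topology. -/
instance (d : ℕ) : MeasurableSpace (ClosedSet d) := borel (ClosedSet d)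

instance (d : ℕ) : BorelSpace (ClosedSet d) := ⟨rfl⟩

/-- Translation of a closed set by `a`: the set `F + a`. -/
def translate {d : ℕ} (a : E d) (F : ClosedSet d) : ClosedSet d :=
  ⟨{x | x - a ∈ F.carrier}, F.isClosed.preimage (continuous_id.sub continuous_const)⟩

/-- A law `μ` on closed sets is stationary: invariant under all translations. -/
def Stationary {d : ℕ} (μ : Measure (ClosedSet d)) : Prop :=
  ∀ (a : E d) (B : Set (ClosedSet d)), MeasurableSet B → μ (translate a ⁻¹' B) = μ B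

/-- `S` is the covariance of a stationary random closed set in `ℝ^d`. -/
def IsCovariance {d : ℕ} (S : E d → ℝ) : Prop :=
  ∃ μ : Measure (ClosedSet d), IsProbabilityMeasure μ ∧ Stationary μ ∧
    ∀ x y : E d, μ.real {F | x ∈ F.carrier ∧ y ∈ F.carrier} = S (x - y)

/-- `S` is the covariance of a stationary random open set in `ℝ^d` (the complement of a
stationary random closed set `F`). -/
def IsOpenCovariance {d : ℕ} (S : E d → ℝ) : Prop :=
  ∃ μ : Measure (ClosedSet d), IsProbabilityMeasure μ ∧ Stationary μ ∧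
    ∀ x y : E d, μ.real {F | x ∉ F.carrier ∧ y ∉ F.carrier} = S (x - y)

/-- `γ` is the variogram `γ(h) = Σ(0) - Σ(h)` of a stationary random closed set. -/
def IsVariogram {d : ℕ} (γ : E d → ℝ) : Prop :=
  ∃ S : E d → ℝ, IsCovariance S ∧ ∀ h, γ h = S 0 - S h

open Classical in
/-- The inequalities with a fixed sequence of radii `r k`: for every finite set `F` of points,
every quadratic form `c` and all nonnegative weights `l k x` (`k < n`) the function
`T ↦ ∑_{x,y ∈ T} c x y + ∑_{k<n} ∑ {l k x : x ∈ F \ T and T has a point at distance < r k of x}`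
of the subsets `T` of `F` has a value which is at most
`∑_{x,y ∈ F} c x y S(x-y) + ∑_{k<n} ∑_{x ∈ F} l k x 2^{-k}`. -/
def CondR {d : ℕ} (S : E d → ℝ) (r : ℕ → ℝ) : Prop :=
  ∀ (F : Finset (E d)) (c : E d → E d → ℝ) (n : ℕ) (l : ℕ → E d → ℝ),
    (∀ k x, 0 ≤ l k x) →
    ∃ T ⊆ F, ∑ x ∈ T, ∑ y ∈ T, c x y
        + ∑ k ∈ Finset.range n, ∑ x ∈ (F \ T).filter (fun x => ∃ y ∈ T, dist x y < r k), l k x
      ≤ ∑ x ∈ F, ∑ y ∈ F, c x y * S (x - y)
        + ∑ k ∈ Finset.range n, ∑ x ∈ F, l k x * (1 / 2) ^ k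

/-- Uniform corner positivity: the inequalities `CondR` hold for some positive radii. -/
def Cond {d : ℕ} (S : E d → ℝ) : Prop :=
  ∃ r : ℕ → ℝ, (∀ k, 0 < r k) ∧ CondR S r

/-! ### The objects of the proof -/

open Classical in
/-- Finite version: a probability weight on the subsets of `F`. -/
def FinOK {d : ℕ} (S : E d → ℝ) (r : ℕ → ℝ) : Prop :=
  ∀ (F : Finset (E d)) (n : ℕ), ∃ w : Finset (E d) → ℝ, (∀ T, 0 ≤ w T) ∧
    ∑ T ∈ F.powerset, w T = 1 ∧
    (∀ x ∈ F, ∀ y ∈ F, ∑ T ∈ F.powerset, (if x ∈ T ∧ y ∈ T then w T else 0) = S (x - y)) ∧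
    (∀ k < n, ∀ x ∈ F,
      ∑ T ∈ F.powerset, (if x ∉ T ∧ ∃ y ∈ T, dist x y < r k then w T else 0) ≤ (1 / 2) ^ k)

/-- A law on `0-1` fields indexed by `Γ` (points `e x` of `ℝ^d`). -/
def FieldOK {d : ℕ} {Γ : Type} (e : Γ → E d) (S : E d → ℝ) (r : ℕ → ℝ)
    (P : Measure (Γ → Bool)) : Prop :=
  IsProbabilityMeasure P ∧
    (∀ x y, P.real {ξ | ξ x = true ∧ ξ y = true} = S (e x - e y)) ∧
    (∀ k x, P.real {ξ | ξ x = false ∧ ∃ y, dist (e x) (e y) < r k ∧ ξ y = true} ≤ (1 / 2) ^ k)

/-- Measure of the points of one period `[0,16)` which belong to `B` together with their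
translate by `h`. -/
noncomputable def lag (B : Set ℝ) (h : ℝ) : ℝ :=
  volume.real {x : ℝ | x ∈ Ico (0 : ℝ) 16 ∧ x ∈ B ∧ x + h ∈ B}

/-- The `16`-periodic set with one period `(0,1) ∪ V`. -/
def per (V : Set ℝ) : Set ℝ := {x | ∃ k : ℤ, x - 16 * k ∈ Ioo (0 : ℝ) 1 ∪ V}

end Pool.Agent.R923.RC
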