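import Pool.Agent.R923.RC.Stm

/-!
# RC-ESS: essential support (helper806)
-/

set_option autoImplicit false

open MeasureTheory Set Topology

namespace Pool.Agent.R923.RC

/-- the essential support -/
def ess_B (X : Set ℝ) : Set ℝ := {x | ∀ ε : ℝ, 0 < ε → 0 < volume (X ∩ Ioo (x - ε) (x + ε))}

theorem ess_not {X : Set ℝ} {x : ℝ} (h : x ∉ ess_B X) :
    ∃ ε : ℝ, 0 < ε ∧ volume (X ∩ Ioo (x - ε) (x + ε)) = 0 := by
  unfold ess_B at h
  simp only [mem_setOf_eq] at h
  push Not at h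
  obtain ⟨ε, hε, h1⟩ := h
  exact ⟨ε, hε, le_antisymm h1 zero_le⟩

theorem ess_subset {X : Set ℝ} (hX : IsClosed X) : ess_B X ⊆ X := by
  intro x hx
  rw [← hX.closure_eq, Metric.mem_closure_iff]
  intro ε hε
  have h1 := hx ε hε
  obtain ⟨y, hy, hy2⟩ := nonempty_of_measure_ne_zero h1.ne'
  refine ⟨y, hy, ?_⟩
  rw [Real.dist_eq, abs_lt]
  constructor <;> linarith [hy2.1, hy2.2]

theorem ess_closed (X : Set ℝ) : IsClosed (ess_B X) := by
  rw [← isOpen_compl_iff, Metric.isOpen_iff]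
  intro x hx
  obtain ⟨ε, hε, h1⟩ := ess_not hx
  refine ⟨ε / 2, by positivity, fun y hy hyB => ?_⟩
  have h2 := hyB (ε / 2) (by positivity)
  rw [Metric.mem_ball, Real.dist_eq, abs_lt] at hy
  have h3 : X ∩ Ioo (y - ε / 2) (y + ε / 2) ⊆ X ∩ Ioo (x - ε) (x + ε) := by
    refine inter_subset_inter_right _ (Ioo_subset_Ioo ?_ ?_)
    · linarith [hy.1]
    · linarith [hy.2]
  exact absurd (measure_mono_null h3 h1) h2.ne'

theorem ess_null (X : Set ℝ) : volume (X \ ess_B X) = 0 := by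
  refine measure_null_of_locally_null _ fun x hx => ?_
  obtain ⟨ε, hε, h1⟩ := ess_not hx.2
  refine ⟨X ∩ Ioo (x - ε) (x + ε), ?_, h1⟩
  rw [mem_nhdsWithin]
  refine ⟨Ioo (x - ε) (x + ε), isOpen_Ioo, ⟨by linarith, by linarith⟩, ?_⟩
  rintro y ⟨hy1, hy2⟩
  exact ⟨hy2.1, hy1⟩

theorem s_ESS : S_ESS := by
  intro X hX hper hdiff
  refine ⟨ess_B X, ess_subset hX, ess_closed X, ess_null X, fun x => ?_, fun x hx y hy => ?_⟩
  · have key : ∀ ε : ℝ, volume (X ∩ Ioo (x - ε) (x + ε)) =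
        volume (X ∩ Ioo (x + 16 - ε) (x + 16 + ε)) := by
      intro ε
      rw [← measure_preimage_add_right volume (16 : ℝ) (X ∩ Ioo (x + 16 - ε) (x + 16 + ε))]
      refine measure_congr ?_
      filter_upwards [hper] with t ht
      apply propext
      constructor
      · rintro ⟨h1, h2, h3⟩
        exact ⟨ht.1 h1, by linarith, by linarith⟩
      · rintro ⟨h1, h2, h3⟩
        exact ⟨ht.2 h1, by linarith, by linarith⟩
    constructor
    · intro hx ε hε
      rw [← key]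
      exact hx ε hε
    · intro hx ε hε
      rw [key]
      exact hx ε hε
  · have key : y - x ∉ Ioo (1 : ℝ) 3 ∪ Ioo (5 : ℝ) 11 := by
      intro hZ
      have hZo : IsOpen (Ioo (1 : ℝ) 3 ∪ Ioo (5 : ℝ) 11) := isOpen_Ioo.union isOpen_Ioo
      obtain ⟨ε, hε, hball⟩ := Metric.isOpen_iff.1 hZo _ hZ
      have h1 := hx (ε / 2) (by positivity)
      have h2 := hy (ε / 2) (by positivity)
      have h3 : volume ((X ∩ Ioo (x - ε / 2) (x + ε / 2)) ×ˢ (X ∩ Ioo (y - ε / 2) (y + ε / 2))) =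
          0 := by
        rw [ae_iff] at hdiff
        refine measure_mono_null ?_ hdiff
        rintro ⟨s, t⟩ ⟨⟨hs1, hs2, hs3⟩, ht1, ht2, ht3⟩
        simp only [mem_setOf_eq, not_not]
        dsimp only at hs1 hs2 hs3 ht1 ht2 ht3
        refine ⟨hs1, ht1, hball ?_⟩
        rw [Metric.mem_ball, Real.dist_eq, abs_lt]
        constructor <;> linarith
      rw [Measure.volume_eq_prod, Measure.prod_prod, mul_eq_zero] at h3
      rcases h3 with h3 | h3
      · exact h1.ne' h3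
      · exact h2.ne' h3
    rw [mem_union, not_or] at key
    exact ⟨key.1, key.2⟩

end Pool.Agent.R923.RC
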