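import Pool.Agent.R923.RC.Stm

/-!
# RC-EX: expectations of the lag function (piece by helper391)
-/

set_option autoImplicit false

open MeasureTheory Set

namespace Pool.Agent.R923.RC

/-- The jointly measurable set behind the lag function. -/
private def exSet {Ω : Type} (X : Ω → Set ℝ) : Set ((Ω × ℝ) × ℝ) :=
  {q | q.2 ∈ Ico (0 : ℝ) 16 ∧ q.2 ∈ X q.1.1 ∧ q.2 + q.1.2 ∈ X q.1.1}

private lemma measurableSet_exSet {Ω : Type} [MeasurableSpace Ω] {X : Ω → Set ℝ}
    (hm : MeasurableSet {p : Ω × ℝ | p.2 ∈ X p.1}) : MeasurableSet (exSet X) := by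
  have h1 : MeasurableSet {q : (Ω × ℝ) × ℝ | q.2 ∈ Ico (0 : ℝ) 16} :=
    measurable_snd measurableSet_Ico
  have h2 : MeasurableSet {q : (Ω × ℝ) × ℝ | q.2 ∈ X q.1.1} := by
    have hf : Measurable (fun q : (Ω × ℝ) × ℝ => ((q.1.1, q.2) : Ω × ℝ)) := by fun_prop
    exact hf hm
  have h3 : MeasurableSet {q : (Ω × ℝ) × ℝ | q.2 + q.1.2 ∈ X q.1.1} := by
    have hf : Measurable (fun q : (Ω × ℝ) × ℝ => ((q.1.1, q.2 + q.1.2) : Ω × ℝ)) := by fun_prop
    exact hf hm
  exact h1.inter (h2.inter h3)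

private lemma lag_eq_exSet {Ω : Type} (X : Ω → Set ℝ) (ω : Ω) (h : ℝ) :
    lag (X ω) h = (volume (Prod.mk ((ω, h) : Ω × ℝ) ⁻¹' exSet X)).toReal := rfl

private lemma lag_le (B : Set ℝ) (h : ℝ) : lag B h ≤ 16 := by
  have h0 : volume (Ico (0 : ℝ) 16) ≠ ⊤ := by simp
  have h1 : lag B h ≤ volume.real (Ico (0 : ℝ) 16) :=
    measureReal_mono (fun x hx => hx.1) h0
  have h2 : volume.real (Ico (0 : ℝ) 16) = 16 := by simp [Measure.real]
  linarith

private lemma lag_nonneg (B : Set ℝ) (h : ℝ) : 0 ≤ lag B h := measureReal_nonneg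

private lemma measurable_lag_joint {Ω : Type} [MeasurableSpace Ω] {X : Ω → Set ℝ}
    (hm : MeasurableSet {p : Ω × ℝ | p.2 ∈ X p.1}) :
    Measurable (fun q : Ω × ℝ => lag (X q.1) q.2) := by
  have := (measurable_measure_prodMk_left (ν := (volume : Measure ℝ))
    (measurableSet_exSet hm)).ennreal_toReal
  exact this

private lemma integral_lag {Ω : Type} [MeasurableSpace Ω] {P : Measure Ω}
    [IsProbabilityMeasure P] {X : Ω → Set ℝ} {c : ℝ} {h : ℝ}
    (hm : MeasurableSet {p : Ω × ℝ | p.2 ∈ X p.1}) (hc0 : 0 ≤ c)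
    (hc : ∀ x : ℝ, P.real {ω | x + h ∈ X ω ∧ x ∈ X ω} = c) :
    ∫ ω, lag (X ω) h ∂P = 16 * c := by
  let B : Set (Ω × ℝ) := {p | p.2 ∈ Ico (0 : ℝ) 16 ∧ p.2 ∈ X p.1 ∧ p.2 + h ∈ X p.1}
  have hB : MeasurableSet B := by
    have hf : Measurable (fun p : Ω × ℝ => (((p.1, h), p.2) : (Ω × ℝ) × ℝ)) := by fun_prop
    exact hf (measurableSet_exSet hm)
  have e1 : ∫ ω, lag (X ω) h ∂P = (∫⁻ ω, volume (Prod.mk ω ⁻¹' B) ∂P).toReal := by
    rw [← integral_toReal]
    · rfl
    · exact (measurable_measure_prodMk_left hB).aemeasurable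
    · refine Filter.Eventually.of_forall fun ω => ?_
      have : volume (Prod.mk ω ⁻¹' B) ≤ volume (Ico (0 : ℝ) 16) := by
        apply measure_mono
        intro x hx
        exact hx.1
      exact lt_of_le_of_lt this (by simp)
  have e2 : ∫⁻ ω, volume (Prod.mk ω ⁻¹' B) ∂P = ∫⁻ x, P ((fun ω => (ω, x)) ⁻¹' B) ∂volume := by
    rw [← Measure.prod_apply hB, Measure.prod_apply_symm hB]
  have e3 : ∀ x : ℝ, P ((fun ω => (ω, x)) ⁻¹' B)
      = (Ico (0 : ℝ) 16).indicator (fun _ => ENNReal.ofReal c) x := by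
    intro x
    by_cases hx : x ∈ Ico (0 : ℝ) 16
    · rw [indicator_of_mem hx]
      have : (fun ω => (ω, x)) ⁻¹' B = {ω | x + h ∈ X ω ∧ x ∈ X ω} := by
        ext ω
        constructor
        · rintro ⟨_, h1, h2⟩
          exact ⟨h2, h1⟩
        · rintro ⟨h1, h2⟩
          exact ⟨hx, h2, h1⟩
      rw [this, ← hc x, ofReal_measureReal]
    · rw [indicator_of_notMem hx]
      have : (fun ω => (ω, x)) ⁻¹' B = ∅ := by
        ext ω
        constructor
        · rintro ⟨h0, _⟩
          exact hx h0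
        · intro h0
          exact h0.elim
      rw [this, measure_empty]
  rw [e1, e2, lintegral_congr e3, lintegral_indicator measurableSet_Ico, setLIntegral_const,
    Real.volume_Ico, ENNReal.toReal_mul, ENNReal.toReal_ofReal hc0,
    ENNReal.toReal_ofReal (by norm_num)]
  ring

/-- RC-EX. -/
theorem s_EX : S_EX := by
  intro Ω _ P X V hP hV hV' hm hcov
  have hjoint := measurable_lag_joint hm
  have hI : ∀ h : ℝ, ∫ ω, lag (X ω) h ∂P = lag (per V) h := by
    intro h
    have := integral_lag (P := P) (X := X) (c := lag (per V) h / 16) (h := h) hm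
      (div_nonneg (lag_nonneg _ _) (by norm_num)) (by
        intro x
        rw [hcov (x + h) x]
        congr 2
        ring)
    rw [this]
    ring
  have hint : ∀ h : ℝ, Integrable (fun ω => lag (X ω) h) P := by
    intro h
    refine Integrable.of_bound (C := 16) ?_ (Filter.Eventually.of_forall fun ω => ?_)
    · exact (hjoint.comp (measurable_id.prodMk measurable_const)).aestronglyMeasurable
    · rw [Real.norm_of_nonneg (lag_nonneg _ _)]
      exact lag_le _ _
  have hint2 : Integrable (fun q : Ω × ℝ => lag (X q.1) q.2)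
      (P.prod (volume.restrict (Icc (3 : ℝ) 5))) := by
    refine Integrable.of_bound (C := 16) hjoint.aestronglyMeasurable
      (Filter.Eventually.of_forall fun q => ?_)
    rw [Real.norm_of_nonneg (lag_nonneg _ _)]
    exact lag_le _ _
  refine ⟨fun h => ⟨hint h, hI h⟩, hint2.integral_prod_left, ?_⟩
  rw [integral_integral_swap hint2]
  exact integral_congr_ae (Filter.Eventually.of_forall fun h => hI h)

end Pool.Agent.R923.RC
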