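import Pool.Agent.R923.RC.Suf

/-!
# Project RC: the example, assembly (helper923)
-/

open MeasureTheory Set

namespace Pool.Agent.R923.RC

/-- Corner positivity: all linear inequalities between two point probabilities which hold for
finite configurations. -/
def CornerPositive {d : ℕ} (S : E d → ℝ) : Prop :=
  ∀ (F : Finset (E d)) (c : E d → E d → ℝ),
    ∃ T ⊆ F, ∑ x ∈ T, ∑ y ∈ T, c x y ≤ ∑ x ∈ F, ∑ y ∈ F, c x y * S (x - y)

lemma real_nmem2_eq {d : ℕ} {μ : Measure (ClosedSet d)} [IsProbabilityMeasure μ] (x y : E d) :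
    μ.real {F | x ∉ F.carrier ∧ y ∉ F.carrier} =
      1 - μ.real {F | x ∈ F.carrier ∧ x ∈ F.carrier}
        - μ.real {F | y ∈ F.carrier ∧ y ∈ F.carrier}
        + μ.real {F | x ∈ F.carrier ∧ y ∈ F.carrier} := by
  have hx := measurableSet_mem x
  have hy := measurableSet_mem y
  have h1 : {F : ClosedSet d | x ∉ F.carrier ∧ y ∉ F.carrier} =
      ({F : ClosedSet d | x ∈ F.carrier} ∪ {F | y ∈ F.carrier})ᶜ := by
    ext F; simp
  rw [h1, probReal_compl_eq_one_sub (hx.union hy)]
  have h2 := measureReal_union_add_inter (μ := μ) (s := {F : ClosedSet d | x ∈ F.carrier}) hy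
  have h3 : {F : ClosedSet d | x ∈ F.carrier} ∩ {F | y ∈ F.carrier} =
    {F | x ∈ F.carrier ∧ y ∈ F.carrier} := rfl
  rw [h3] at h2
  simp only [and_self]
  linarith

theorem open_continuous (h7 : S_CONT2) {d : ℕ} {S : E d → ℝ} (hS : IsOpenCovariance S) :
    Continuous S := by
  obtain ⟨μ, hμ, hst, hc⟩ := hS
  have h1 := h7 d μ hμ hst
  have : S = fun h => 1 - μ.real {F | (0 : E d) ∈ F.carrier ∧ (0 : E d) ∈ F.carrier}
        - μ.real {F | (0 : E d) ∈ F.carrier ∧ (0 : E d) ∈ F.carrier}
        + μ.real {F | h ∈ F.carrier ∧ (0 : E d) ∈ F.carrier} := by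
    funext h
    have h2 := hc h 0
    rw [sub_zero] at h2
    rw [← h2, real_nmem2_eq, real_mem2_eq hst h h, sub_self]
  rw [this]
  exact continuous_const.add h1

/-- finite quadratic inequality for the complement of a random closed set -/
theorem open_cornerPositive {d : ℕ} {S : E d → ℝ} (hS : IsOpenCovariance S) :
    CornerPositive S := by
  classical
  obtain ⟨μ, hμ, hst, hc⟩ := hS
  intro F c
  by_contra hcon
  push Not at hcon
  set φ : ClosedSet d → ℝ := fun G => ∑ x ∈ F, ∑ y ∈ F,
    c x y * ({G : ClosedSet d | x ∉ G.carrier ∧ y ∉ G.carrier}.indicator (fun _ => (1 : ℝ)) G)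
    with hφ
  have hm : ∀ x y : E d, MeasurableSet {G : ClosedSet d | x ∉ G.carrier ∧ y ∉ G.carrier} :=
    fun x y => (measurableSet_mem x).compl.inter (measurableSet_mem y).compl
  have hint : ∀ x y : E d, Integrable
      ({G : ClosedSet d | x ∉ G.carrier ∧ y ∉ G.carrier}.indicator (fun _ => (1 : ℝ))) μ :=
    fun x y => (integrable_const (1 : ℝ)).indicator (hm x y)
  have hI : ∫ G, φ G ∂μ = ∑ x ∈ F, ∑ y ∈ F, c x y * S (x - y) := by
    rw [hφ]
    rw [integral_finsetSum _ (fun x _ => integrable_finsetSum _ (fun y _ => (hint x y).const_mul _))]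
    refine Finset.sum_congr rfl (fun x _ => ?_)
    rw [integral_finsetSum _ (fun y _ => (hint x y).const_mul _)]
    refine Finset.sum_congr rfl (fun y _ => ?_)
    rw [integral_const_mul, integral_indicator (hm x y)]
    simp only [integral_const, smul_eq_mul, mul_one]
    rw [← hc x y]
    simp [Measure.real]
  have hφT : ∀ G : ClosedSet d, φ G = ∑ x ∈ F.filter (· ∉ G.carrier),
      ∑ y ∈ F.filter (· ∉ G.carrier), c x y := by
    intro G
    rw [hφ]
    simp only [Finset.sum_filter]
    refine Finset.sum_congr rfl (fun x _ => ?_)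
    by_cases hx : x ∉ G.carrier
    · simp only [hx, not_false_eq_true, if_true]
      refine Finset.sum_congr rfl (fun y _ => ?_)
      by_cases hy : y ∉ G.carrier
      · simp [hx, hy, Set.indicator]
      · simp [hx, hy, Set.indicator]
    · simp only [hx, if_false]
      refine Finset.sum_eq_zero (fun y _ => ?_)
      simp [hx, Set.indicator]
  have hlt : ∀ G : ClosedSet d, ∑ x ∈ F, ∑ y ∈ F, c x y * S (x - y) < φ G := by
    intro G
    rw [hφT]
    exact hcon _ (Finset.filter_subset _ _)
  have hφint : Integrable φ μ := by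
    rw [hφ]
    exact integrable_finsetSum _ (fun x _ => integrable_finsetSum _
      (fun y _ => (hint x y).const_mul _))
  obtain ⟨G, hG⟩ := exists_le_integral (μ := μ) hφint
  rw [hI] at hG
  exact absurd (hlt G) (not_lt.mpr hG)

theorem exa (h0 : S_CTR) (h1 : S_JOINT) (h2 : S_OPEN) (h3 : S_V) (h7 : S_CONT2)
    (d : ℕ) (hd : 1 ≤ d) : ∃ S : E d → ℝ, IsOpenCovariance S ∧ Continuous S ∧
      CornerPositive S ∧ ¬ IsCovariance S := by
  obtain ⟨V, hV1, hV2, hV3, hV4⟩ := h3
  let i : Fin d := ⟨0, hd⟩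
  have hO := h2 d i V hV1 hV2
  refine ⟨_, hO, open_continuous h7 hO, open_cornerPositive hO, ?_⟩
  rintro ⟨μ, hμ, hst, hc⟩
  let u : E d := EuclideanSpace.single i (1 : ℝ)
  refine h0 (ClosedSet d) inferInstance μ (fun F => {t : ℝ | t • u ∈ F.carrier}) V hμ hV1 hV2
    hV3 hV4 (fun F => F.isClosed.preimage (by fun_prop)) ?_ ?_
  · exact h1 d u
  · intro s t
    have := hc (s • u) (t • u)
    simp only [mem_setOf_eq]
    rw [this]
    have h5 : (s • u - t • u) i = s - t := by
      simp [u]
    show lag (per V) ((s • u - t • u) i) / 16 = lag (per V) (s - t) / 16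
    rw [h5]

end Pool.Agent.R923.RC
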