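import Pool.Agent.R923.RC.Stm

/-!
# Project RC: two more statements (periodic sets)
-/

open MeasureTheory Set

namespace Pool.Agent.R923.RC

/-- RC-PER: a uniformly shifted periodic closed set (and its complement). It contains
`S_OPEN` (take `B = (per V)ᶜ`). -/
def S_PER : Prop := ∀ (d : ℕ) (i : Fin d) (B : Set ℝ), IsClosed B → (∀ x, x ∈ B ↔ x + 16 ∈ B) →
  IsCovariance (fun h : E d => lag B (h i) / 16) ∧
    IsOpenCovariance (fun h : E d => lag Bᶜ (h i) / 16)

/-- RC-APX: closed periodic approximations from inside. -/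
def S_APX : Prop := ∀ V : Set ℝ, IsOpen V → V ⊆ Ioo 4 5 → ∀ ε : ℝ, 0 < ε →
  ∃ B : Set ℝ, IsClosed B ∧ (∀ x, x ∈ B ↔ x + 16 ∈ B) ∧ ∀ h, |lag B h - lag (per V) h| ≤ ε

end Pool.Agent.R923.RC
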