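import Pool.Agent.R923.RC.Exa
import Pool.Agent.R923.RC.Stm2

/-!
# Project RC: the class of covariances is not closed under uniform limits (helper923)
-/

open MeasureTheory Set Filter

namespace Pool.Agent.R923.RC

lemma isOpen_per' {V : Set ℝ} (hV : IsOpen V) : IsOpen (per V) := by
  have : per V = ⋃ k : ℤ, (fun x : ℝ => x - 16 * k) ⁻¹' (Ioo (0 : ℝ) 1 ∪ V) := by
    ext x
    simp only [per, mem_iUnion, mem_preimage]
    rfl
  rw [this]
  exact isOpen_iUnion fun k => (isOpen_Ioo.union hV).preimage (by fun_prop)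

lemma per_periodic' (V : Set ℝ) (x : ℝ) : x ∈ per V ↔ x + 16 ∈ per V := by
  constructor
  · rintro ⟨k, hk⟩
    refine ⟨k + 1, ?_⟩
    have : x + 16 - 16 * ((k + 1 : ℤ) : ℝ) = x - 16 * k := by push_cast; ring
    rwa [this]
  · rintro ⟨k, hk⟩
    refine ⟨k - 1, ?_⟩
    have : x - 16 * ((k - 1 : ℤ) : ℝ) = x + 16 - 16 * k := by push_cast; ring
    rwa [this]

theorem s_OPEN_of_PER (h : S_PER) : S_OPEN := by
  intro d i V hV _
  have := (h d i (per V)ᶜ (isOpen_per' hV).isClosed_compl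
    (fun x => not_congr (per_periodic' V x))).2
  rwa [compl_compl] at this

theorem exa2 (h0 : S_CTR) (h1 : S_JOINT) (h2 : S_PER) (h3 : S_V) (h7 : S_CONT2) (h8 : S_APX)
    (d : ℕ) (hd : 1 ≤ d) : ∃ S : E d → ℝ, IsOpenCovariance S ∧ Continuous S ∧
      CornerPositive S ∧ ¬ IsCovariance S ∧
      ∃ Sn : ℕ → E d → ℝ, (∀ n, IsCovariance (Sn n)) ∧ TendstoUniformly Sn S atTop := by
  obtain ⟨V, hV1, hV2, hV3, hV4⟩ := h3
  let i : Fin d := ⟨0, hd⟩
  have hO := s_OPEN_of_PER h2 d i V hV1 hV2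
  refine ⟨_, hO, open_continuous h7 hO, open_cornerPositive hO, ?_, ?_⟩
  · rintro ⟨μ, hμ, hst, hc⟩
    let u : E d := EuclideanSpace.single i (1 : ℝ)
    refine h0 (ClosedSet d) inferInstance μ (fun F => {t : ℝ | t • u ∈ F.carrier}) V hμ hV1 hV2
      hV3 hV4 (fun F => F.isClosed.preimage (by fun_prop)) ?_ ?_
    · exact h1 d u
    · intro s t
      have := hc (s • u) (t • u)
      simp only [mem_setOf_eq]
      rw [this]
      have h5 : (s • u - t • u) i = s - t := by
        simp [u]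
      show lag (per V) ((s • u - t • u) i) / 16 = lag (per V) (s - t) / 16
      rw [h5]
  · choose B hB1 hB2 hB3 using fun n : ℕ => h8 V hV1 hV2 (1 / ((n : ℝ) + 1)) (by positivity)
    refine ⟨fun n h => lag (B n) (h i) / 16, fun n => (h2 d i (B n) (hB1 n) (hB2 n)).1, ?_⟩
    rw [Metric.tendstoUniformly_iff]
    intro ε hε
    filter_upwards [tendsto_one_div_add_atTop_nhds_zero_nat.eventually (gt_mem_nhds hε)] with n hn h
    have := hB3 n (h i)
    rw [Real.dist_eq, abs_sub_comm, ← sub_div, abs_div]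
    have h16 : |(16 : ℝ)| = 16 := by norm_num
    rw [h16]
    have h0 := abs_nonneg (lag (B n) (h i) - lag (per V) (h i))
    calc |lag (B n) (h i) - lag (per V) (h i)| / 16 ≤ |lag (B n) (h i) - lag (per V) (h i)| := by
          linarith
      _ ≤ 1 / ((n : ℝ) + 1) := this
      _ < ε := hn

end Pool.Agent.R923.RC
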