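import Pool.Agent.R923.RC.Alt

/-!
# Project RC, piece RC-FIN: finite weights from the inequalities (helper37)
-/

open Set

namespace Pool.Agent.R923.RC

open Classical in
/-- Finite weights from the inequalities `CondR`. -/
theorem s_FIN : S_FIN := by
  intro d S r HC F n
  -- indices
  let ι := {T : Finset (E d) // T ∈ F.powerset}
  let κ := ((F × F) × Bool) ⊕ (Fin n × F)
  have : Nonempty ι := ⟨⟨∅, by simp⟩⟩
  let sgn : Bool → ℝ := fun b => if b then 1 else -1
  let g : κ → ι → ℝ := fun j T => match j with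
    | Sum.inl (p, b) => sgn b * (if (p.1 : E d) ∈ T.1 ∧ (p.2 : E d) ∈ T.1 then 1 else 0)
    | Sum.inr (k, x) => if (x : E d) ∉ T.1 ∧ ∃ y ∈ T.1, dist (x : E d) y < r k then 1 else 0
  let v : κ → ℝ := fun j => match j with
    | Sum.inl (p, b) => sgn b * S ((p.1 : E d) - p.2)
    | Sum.inr (k, _) => (1 / 2) ^ (k : ℕ)
  have key := s_ALT ι κ inferInstance inferInstance inferInstance g v
  obtain ⟨w, hw0, hw1, hw⟩ := key (by
    intro lam hlam
    -- multipliers
    let c : E d → E d → ℝ := fun x y =>
      if h : x ∈ F ∧ y ∈ F then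
        lam (Sum.inl ((⟨x, h.1⟩, ⟨y, h.2⟩), true)) - lam (Sum.inl ((⟨x, h.1⟩, ⟨y, h.2⟩), false))
      else 0
    let l : ℕ → E d → ℝ := fun k x =>
      if h : k < n ∧ x ∈ F then lam (Sum.inr (⟨k, h.1⟩, ⟨x, h.2⟩)) else 0
    obtain ⟨T, hTF, hT⟩ := HC F c n l (by
      intro k x
      simp only [l]
      split_ifs
      · exact hlam _
      · exact le_rfl)
    refine ⟨⟨T, Finset.mem_powerset.2 hTF⟩, ?_⟩
    -- left side
    have hL : ∑ j, lam j * g j ⟨T, Finset.mem_powerset.2 hTF⟩ =
        ∑ x ∈ T, ∑ y ∈ T, c x y + ∑ k ∈ Finset.range n,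
          ∑ x ∈ (F \ T).filter (fun x => ∃ y ∈ T, dist x y < r k), l k x := by
      rw [Fintype.sum_sum_type]
      congr 1
      · rw [Fintype.sum_prod_type]
        simp only [Fintype.sum_bool]
        have e1 : ∀ p : F × F, lam (Sum.inl (p, true)) * g (Sum.inl (p, true)) ⟨T, Finset.mem_powerset.2 hTF⟩
            + lam (Sum.inl (p, false)) * g (Sum.inl (p, false)) ⟨T, Finset.mem_powerset.2 hTF⟩ =
            (if (p.1 : E d) ∈ T ∧ (p.2 : E d) ∈ T then c p.1 p.2 else 0) := by
          rintro ⟨x, y⟩
          have hc : c x y = lam (Sum.inl ((x, y), true)) - lam (Sum.inl ((x, y), false)) := by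
            simp only [c]
            rw [dif_pos ⟨x.2, y.2⟩]
          simp only [g, sgn]
          by_cases h : (x : E d) ∈ T ∧ (y : E d) ∈ T
          · simp only [h, if_true, hc]; simp; ring
          · simp only [h, if_false]; simp
        rw [Finset.sum_congr rfl fun p _ => e1 p, Fintype.sum_prod_type]
        have e2 : ∀ x : F, ∑ y : F, (if (x : E d) ∈ T ∧ (y : E d) ∈ T then c x y else 0) =
            if (x : E d) ∈ T then ∑ y ∈ T, c x y else 0 := by
          intro x
          rw [Finset.sum_coe_sort F (fun y => if (x : E d) ∈ T ∧ y ∈ T then c x y else 0)]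
          by_cases hx : (x : E d) ∈ T
          · simp only [hx, true_and, if_true]
            rw [← Finset.sum_filter]
            congr 1
            ext y
            simp only [Finset.mem_filter]
            exact ⟨fun h => h.2, fun h => ⟨hTF h, h⟩⟩
          · simp [hx]
        rw [Finset.sum_congr rfl fun x _ => e2 x,
          Finset.sum_coe_sort F (fun x => if x ∈ T then ∑ y ∈ T, c x y else 0), ← Finset.sum_filter]
        congr 1
        ext y
        simp only [Finset.mem_filter]
        exact ⟨fun h => h.2, fun h => ⟨hTF h, h⟩⟩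
      · rw [Fintype.sum_prod_type, ← Fin.sum_univ_eq_sum_range
          (fun k => ∑ x ∈ (F \ T).filter (fun x => ∃ y ∈ T, dist x y < r k), l k x) n]
        refine Finset.sum_congr rfl fun k _ => ?_
        have e3 : ∀ x : F, lam (Sum.inr (k, x)) * g (Sum.inr (k, x)) ⟨T, Finset.mem_powerset.2 hTF⟩ =
            if (x : E d) ∉ T ∧ ∃ y ∈ T, dist (x : E d) y < r k then l k x else 0 := by
          intro x
          have hl : l k x = lam (Sum.inr (k, x)) := by
            simp only [l]
            rw [dif_pos ⟨k.2, x.2⟩]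
          simp only [g, hl]
          split_ifs <;> simp
        rw [Finset.sum_congr rfl fun x _ => e3 x,
          Finset.sum_coe_sort F (fun x => if x ∉ T ∧ ∃ y ∈ T, dist x y < r k then l k x else 0),
          ← Finset.sum_filter]
        congr 1
        ext x
        simp only [Finset.mem_filter, Finset.mem_sdiff]
        tauto
    have hR : ∑ j, lam j * v j = ∑ x ∈ F, ∑ y ∈ F, c x y * S (x - y)
        + ∑ k ∈ Finset.range n, ∑ x ∈ F, l k x * (1 / 2) ^ k := by
      rw [Fintype.sum_sum_type]
      congr 1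
      · rw [Fintype.sum_prod_type]
        simp only [Fintype.sum_bool]
        have e1 : ∀ p : F × F, lam (Sum.inl (p, true)) * v (Sum.inl (p, true))
            + lam (Sum.inl (p, false)) * v (Sum.inl (p, false)) =
            c p.1 p.2 * S ((p.1 : E d) - p.2) := by
          rintro ⟨x, y⟩
          have hc : c x y = lam (Sum.inl ((x, y), true)) - lam (Sum.inl ((x, y), false)) := by
            simp only [c]
            rw [dif_pos ⟨x.2, y.2⟩]
          simp only [v, sgn, hc]
          simp
          ring
        rw [Finset.sum_congr rfl fun p _ => e1 p, Fintype.sum_prod_type,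
          ← Finset.sum_coe_sort F (fun x => ∑ y ∈ F, c x y * S (x - y))]
        refine Finset.sum_congr rfl fun x _ => ?_
        rw [← Finset.sum_coe_sort F (fun y => c x y * S (x - y))]
      · rw [Fintype.sum_prod_type, ← Fin.sum_univ_eq_sum_range
          (fun k => ∑ x ∈ F, l k x * (1 / 2) ^ k) n]
        refine Finset.sum_congr rfl fun k _ => ?_
        rw [← Finset.sum_coe_sort F (fun x => l k x * (1 / 2) ^ (k : ℕ))]
        refine Finset.sum_congr rfl fun x _ => ?_
        have hl : l k x = lam (Sum.inr (k, x)) := by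
          simp only [l]
          rw [dif_pos ⟨k.2, x.2⟩]
        simp only [v, hl]
    rw [hL, hR]
    exact hT)
  -- the weights
  let W : Finset (E d) → ℝ := fun T => if h : T ∈ F.powerset then w ⟨T, h⟩ else 0
  have hW : ∀ T : ι, W T.1 = w T := by
    rintro ⟨T, hT⟩
    simp only [W]
    rw [dif_pos hT]
  have hsum : ∀ φ : Finset (E d) → ℝ, ∑ T ∈ F.powerset, W T * φ T = ∑ T : ι, w T * φ T.1 := by
    intro φ
    rw [← Finset.sum_coe_sort F.powerset (fun T => W T * φ T)]
    exact Finset.sum_congr rfl fun T _ => by rw [hW T]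
  have hite : ∀ (p : Finset (E d) → Prop) [DecidablePred p],
      ∑ T ∈ F.powerset, (if p T then W T else 0) = ∑ T : ι, w T * (if p T.1 then 1 else 0) := by
    intro p _
    rw [← hsum (fun T => if p T then 1 else 0)]
    exact Finset.sum_congr rfl fun T _ => by split_ifs <;> simp
  refine ⟨W, fun T => ?_, ?_, fun x hx y hy => ?_, fun k hk x hx => ?_⟩
  · simp only [W]
    split_ifs
    · exact hw0 _
    · exact le_rfl
  · have := hsum (fun _ => 1)
    simpa [hw1] using this
  · rw [hite (fun T => x ∈ T ∧ y ∈ T)]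
    have h1 := hw (Sum.inl ((⟨x, hx⟩, ⟨y, hy⟩), true))
    have h2 := hw (Sum.inl ((⟨x, hx⟩, ⟨y, hy⟩), false))
    simp only [g, v, sgn, if_true, one_mul] at h1
    simp only [g, v, sgn, Bool.false_eq_true, if_false, neg_mul, one_mul, mul_neg,
      Finset.sum_neg_distrib, neg_le_neg_iff] at h2
    exact le_antisymm h1 h2
  · rw [hite (fun T => x ∉ T ∧ ∃ y ∈ T, dist x y < r k)]
    exact hw (Sum.inr (⟨k, hk⟩, ⟨x, hx⟩))

end Pool.Agent.R923.RC
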