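import Pool.Agent.R923.RC.Stm

/-!
# RC-INV: an invariant law by averaging over a countable abelian group
-/

open MeasureTheory Set Filter Topology

namespace Pool.Agent.R923.RC

section Inv

variable {Γ : Type} [AddCommGroup Γ]

/-- The shift of a field. -/
def invSh (a : Γ) (ξ : Γ → Bool) : Γ → Bool := fun x => ξ (x + a)

theorem invSh_cont (a : Γ) : Continuous (invSh a) := continuous_pi fun _ => continuous_apply _

theorem invSh_meas (a : Γ) : Measurable (invSh a) :=
  measurable_pi_lambda _ fun _ => measurable_pi_apply _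

theorem invSh_comp (a b : Γ) : invSh a ∘ invSh b = invSh (a + b) := by
  funext ξ x
  simp only [Function.comp, invSh, add_assoc]

theorem invSh_zero : invSh (0 : Γ) = id := by
  funext ξ x
  simp [invSh]

variable [Countable Γ]

theorem inv_eval {A : Set (Γ → Bool)} (hA : IsClopen A) :
    Continuous fun Q : ProbabilityMeasure (Γ → Bool) => (Q : Measure (Γ → Bool)).real A := by
  rw [continuous_iff_continuousAt]
  intro Q
  have h1 := ProbabilityMeasure.tendsto_measure_of_null_frontier_of_tendsto' (μ := Q)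
    (μs := fun Q' : ProbabilityMeasure (Γ → Bool) => Q') (L := 𝓝 Q) tendsto_id (E := A)
    (by rw [hA.frontier_eq, measure_empty])
  exact (ENNReal.tendsto_toReal (measure_ne_top _ _)).comp h1

theorem inv_ext {μ ν : Measure (Γ → Bool)} [IsProbabilityMeasure μ] [IsProbabilityMeasure ν]
    (h : ∀ A : Set (Γ → Bool), IsClopen A → μ.real A = ν.real A) : μ = ν := by
  refine ext_of_generate_finite _ generateFrom_measurableCylinders.symm
    isPiSystem_measurableCylinders ?_ (by simp)
  intro A hA
  obtain ⟨s, S, -, rfl⟩ := (mem_measurableCylinders _).1 hA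
  have h1 : IsClopen (cylinder (α := fun _ : Γ => Bool) s S) := by
    unfold cylinder
    refine IsClopen.preimage ?_ (by unfold Finset.restrict; fun_prop)
    exact isClopen_discrete S
  have h2 := h _ h1
  exact (measureReal_eq_measureReal_iff).1 h2

/-- The average of the translates. -/
noncomputable def invAvg (b : Γ) (N : ℕ) (P : Measure (Γ → Bool)) : Measure (Γ → Bool) :=
  ((N : ENNReal)⁻¹) • ∑ i ∈ Finset.range N, P.map (invSh (i • b))

theorem invAvg_apply (b : Γ) (N : ℕ) (P : Measure (Γ → Bool)) {A : Set (Γ → Bool)}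
    (hA : MeasurableSet A) : invAvg b N P A =
      (N : ENNReal)⁻¹ * ∑ i ∈ Finset.range N, P (invSh (i • b) ⁻¹' A) := by
  unfold invAvg
  rw [Measure.smul_apply, Measure.finsetSum_apply, smul_eq_mul]
  congr 1
  exact Finset.sum_congr rfl fun i _ => Measure.map_apply (invSh_meas _) hA

theorem invAvg_real (b : Γ) (N : ℕ) (P : Measure (Γ → Bool)) [IsProbabilityMeasure P]
    {A : Set (Γ → Bool)}
    (hA : MeasurableSet A) : (invAvg b N P).real A =
      (N : ℝ)⁻¹ * ∑ i ∈ Finset.range N, P.real (invSh (i • b) ⁻¹' A) := by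
  unfold Measure.real
  rw [invAvg_apply b N P hA, ENNReal.toReal_mul, ENNReal.toReal_inv, ENNReal.toReal_natCast,
    ENNReal.toReal_sum fun i _ => measure_ne_top _ _]

theorem invAvg_prob (b : Γ) {N : ℕ} (hN : 1 ≤ N) (P : Measure (Γ → Bool))
    [IsProbabilityMeasure P] : IsProbabilityMeasure (invAvg b N P) := by
  constructor
  rw [invAvg_apply b N P MeasurableSet.univ]
  simp only [preimage_univ, measure_univ, Finset.sum_const, Finset.card_range, nsmul_eq_mul,
    mul_one]
  exact ENNReal.inv_mul_cancel (by simp; omega) (by simp)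

/-- A closed convex class. -/
structure InvGood (K : Set (ProbabilityMeasure (Γ → Bool))) : Prop where
  closed : IsClosed K
  ne : K.Nonempty
  avg : ∀ P ∈ K, ∀ (b : Γ) (N : ℕ) (hN : 1 ≤ N),
    (⟨invAvg b N (P : Measure (Γ → Bool)), invAvg_prob b hN _⟩ :
      ProbabilityMeasure (Γ → Bool)) ∈ K

theorem InvGood.step {K : Set (ProbabilityMeasure (Γ → Bool))} (hK : InvGood K) (a : Γ) :
    InvGood (K ∩ {Q | ∀ A : Set (Γ → Bool), IsClopen A →
      (Q : Measure (Γ → Bool)).real (invSh a ⁻¹' A) = (Q : Measure (Γ → Bool)).real A}) := by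
  refine ⟨?_, ?_, ?_⟩
  · refine hK.closed.inter ?_
    simp only [ofPred_forall]
    refine isClosed_iInter fun A => isClosed_iInter fun hA => ?_
    exact isClosed_eq (inv_eval (hA.preimage (invSh_cont a))) (inv_eval hA)
  · obtain ⟨P, hP⟩ := hK.ne
    let ν : ℕ → ProbabilityMeasure (Γ → Bool) := fun N =>
      ⟨invAvg a (N + 1) (P : Measure (Γ → Bool)), invAvg_prob a (by omega) _⟩
    have hν : ∀ N, ν N ∈ K := fun N => hK.avg P hP a (N + 1) (by omega)
    have hKc : IsCompact K := hK.closed.isCompact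
    obtain ⟨Q, hQ, hlim⟩ := hKc.ultrafilter_le_nhds ((hyperfilter ℕ).map ν) (by
      rw [le_principal_iff]
      exact Filter.mem_map.2 (Filter.univ_mem' hν))
    have hlim' : Tendsto ν (hyperfilter ℕ : Filter ℕ) (𝓝 Q) := hlim
    refine ⟨Q, hQ, ?_⟩
    intro A hA
    have h1 : Tendsto (fun N => (ν N : Measure (Γ → Bool)).real (invSh a ⁻¹' A) -
        (ν N : Measure (Γ → Bool)).real A) (hyperfilter ℕ : Filter ℕ)
        (𝓝 ((Q : Measure (Γ → Bool)).real (invSh a ⁻¹' A) -
          (Q : Measure (Γ → Bool)).real A)) :=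
      (((inv_eval (hA.preimage (invSh_cont a))).sub (inv_eval hA)).tendsto Q).comp hlim'
    have h2 : Tendsto (fun N => (ν N : Measure (Γ → Bool)).real (invSh a ⁻¹' A) -
        (ν N : Measure (Γ → Bool)).real A) atTop (𝓝 0) := by
      have h3 : ∀ N : ℕ, |(ν N : Measure (Γ → Bool)).real (invSh a ⁻¹' A) -
          (ν N : Measure (Γ → Bool)).real A| ≤ 1 / ((N : ℝ) + 1) := by
        intro N
        have hAm : MeasurableSet A := hA.isOpen.measurableSet
        have e1 := invAvg_real a (N + 1) (P : Measure (Γ → Bool)) (invSh_meas a hAm)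
        have e2 := invAvg_real a (N + 1) (P : Measure (Γ → Bool)) hAm
        change |(invAvg a (N + 1) (P : Measure (Γ → Bool))).real (invSh a ⁻¹' A) -
          (invAvg a (N + 1) (P : Measure (Γ → Bool))).real A| ≤ _
        rw [e1, e2, ← mul_sub, ← Finset.sum_sub_distrib]
        have e3 : ∀ i ∈ Finset.range (N + 1),
            (P : Measure (Γ → Bool)).real (invSh (i • a) ⁻¹' (invSh a ⁻¹' A)) -
              (P : Measure (Γ → Bool)).real (invSh (i • a) ⁻¹' A) =
            (P : Measure (Γ → Bool)).real (invSh ((i + 1) • a) ⁻¹' A) -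
              (P : Measure (Γ → Bool)).real (invSh (i • a) ⁻¹' A) := by
          intro i _
          rw [← preimage_comp, invSh_comp, add_comm a, succ_nsmul]
        rw [Finset.sum_congr rfl e3, Finset.sum_range_sub (fun i =>
          (P : Measure (Γ → Bool)).real (invSh (i • a) ⁻¹' A))]
        have e4 : |(P : Measure (Γ → Bool)).real (invSh ((N + 1) • a) ⁻¹' A) -
            (P : Measure (Γ → Bool)).real (invSh (0 • a) ⁻¹' A)| ≤ 1 := by
          have p1 := measureReal_nonneg (μ := (P : Measure (Γ → Bool)))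
            (s := invSh ((N + 1) • a) ⁻¹' A)
          have p2 := measureReal_nonneg (μ := (P : Measure (Γ → Bool)))
            (s := invSh (0 • a) ⁻¹' A)
          have p3 := measureReal_le_one (μ := (P : Measure (Γ → Bool)))
            (s := invSh ((N + 1) • a) ⁻¹' A)
          have p4 := measureReal_le_one (μ := (P : Measure (Γ → Bool)))
            (s := invSh (0 • a) ⁻¹' A)
          rw [abs_le]
          constructor <;> linarith
        rw [abs_mul, abs_inv, Nat.abs_cast, Nat.cast_add, Nat.cast_one]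
        have h5 : (0 : ℝ) ≤ ((N : ℝ) + 1)⁻¹ := by positivity
        calc ((N : ℝ) + 1)⁻¹ * _ ≤ ((N : ℝ) + 1)⁻¹ * 1 := mul_le_mul_of_nonneg_left e4 h5
          _ = 1 / ((N : ℝ) + 1) := by ring
      refine squeeze_zero_norm (fun N => ?_) tendsto_one_div_add_atTop_nhds_zero_nat
      rw [Real.norm_eq_abs]
      exact h3 N
    have h3 := h2.mono_left (Nat.hyperfilter_le_atTop)
    have h4 := tendsto_nhds_unique h1 h3
    linarith
  · rintro P ⟨hP, hPa⟩ b N hN
    refine ⟨hK.avg P hP b N hN, ?_⟩
    intro A hA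
    have hAm : MeasurableSet A := hA.isOpen.measurableSet
    have e1 := invAvg_real b N (P : Measure (Γ → Bool)) (invSh_meas a hAm)
    have e2 := invAvg_real b N (P : Measure (Γ → Bool)) hAm
    change (invAvg b N (P : Measure (Γ → Bool))).real (invSh a ⁻¹' A) =
      (invAvg b N (P : Measure (Γ → Bool))).real A
    rw [e1, e2]
    congr 1
    refine Finset.sum_congr rfl fun i _ => ?_
    rw [← hPa _ (hA.preimage (invSh_cont (i • b))), ← preimage_comp, ← preimage_comp,
      invSh_comp, invSh_comp, add_comm]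

end Inv

/-- The event that a close point is in the field, with finitely many points. -/
def invU {d : ℕ} {Γ : Type} (e : Γ → E d) (ρ : ℝ) (x : Γ) (G : Finset Γ) : Set (Γ → Bool) :=
  {ξ | ξ x = false ∧ ∃ y ∈ G, dist (e x) (e y) < ρ ∧ ξ y = true}

theorem invU_clopen {d : ℕ} {Γ : Type} (e : Γ → E d) (ρ : ℝ) (x : Γ) (G : Finset Γ) :
    IsClopen (invU e ρ x G) := by
  have h0 : ∀ (y : Γ) (b : Bool), IsClopen {ξ : Γ → Bool | ξ y = b} := fun y b =>
    (isClopen_discrete {b}).preimage (continuous_apply y)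
  have h1 : invU e ρ x G = {ξ : Γ → Bool | ξ x = false} ∩
      ⋃ y ∈ G, (if dist (e x) (e y) < ρ then {ξ : Γ → Bool | ξ y = true} else ∅) := by
    ext ξ
    simp only [invU, mem_ofPred_eq, mem_inter_iff, mem_iUnion, exists_prop]
    refine and_congr_right fun _ => exists_congr fun y => and_congr_right fun _ => ?_
    split_ifs with h
    · simp [h]
    · simp [h]
  rw [h1]
  refine (h0 x false).inter ?_
  refine G.finite_toSet.isClopen_biUnion fun y _ => ?_
  split_ifs
  · exact h0 y true
  · exact isClopen_empty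

theorem invU_le {d : ℕ} {Γ : Type} [Countable Γ] (e : Γ → E d) (ρ : ℝ) (x : Γ)
    (P : Measure (Γ → Bool)) [IsProbabilityMeasure P] (c : ℝ) (hc : 0 ≤ c) :
    P.real {ξ | ξ x = false ∧ ∃ y, dist (e x) (e y) < ρ ∧ ξ y = true} ≤ c ↔
      ∀ G, P.real (invU e ρ x G) ≤ c := by
  constructor
  · intro h G
    refine le_trans (measureReal_mono ?_) h
    rintro ξ ⟨h1, y, -, h2⟩
    exact ⟨h1, y, h2⟩
  · intro h
    have h1 : {ξ : Γ → Bool | ξ x = false ∧ ∃ y, dist (e x) (e y) < ρ ∧ ξ y = true} =
        ⋃ G, invU e ρ x G := by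
      ext ξ
      simp only [mem_ofPred_eq, mem_iUnion, invU]
      constructor
      · rintro ⟨h1, y, h2⟩
        exact ⟨{y}, h1, y, by simp, h2⟩
      · rintro ⟨G, h1, y, -, h2⟩
        exact ⟨h1, y, h2⟩
    have h2 : Directed (· ⊆ ·) (invU e ρ x) := by
      classical
      intro G G'
      refine ⟨G ∪ G', ?_, ?_⟩
      · rintro ξ ⟨h1, y, hy, h2⟩
        exact ⟨h1, y, Finset.mem_union_left _ hy, h2⟩
      · rintro ξ ⟨h1, y, hy, h2⟩
        exact ⟨h1, y, Finset.mem_union_right _ hy, h2⟩
    have h3 : P {ξ : Γ → Bool | ξ x = false ∧ ∃ y, dist (e x) (e y) < ρ ∧ ξ y = true} ≤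
        ENNReal.ofReal c := by
      rw [h1, h2.measure_iUnion]
      refine iSup_le fun G => ?_
      rw [← ENNReal.ofReal_toReal (measure_ne_top P (invU e ρ x G))]
      exact ENNReal.ofReal_le_ofReal (h G)
    exact ENNReal.toReal_le_of_le_ofReal hc h3

theorem s_INV : S_INV := by
  intro d S r Γ _ _ e ⟨P0, hP0⟩
  obtain ⟨hP0p, hP01, hP02⟩ := hP0
  have h0 : ∀ (y : Γ) (b : Bool), IsClopen {ξ : Γ → Bool | ξ y = b} := fun y b =>
    (isClopen_discrete {b}).preimage (continuous_apply y)
  have hcl2 : ∀ x y : Γ, IsClopen {ξ : Γ → Bool | ξ x = true ∧ ξ y = true} := fun x y =>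
    (h0 x true).inter (h0 y true)
  let K0 : Set (ProbabilityMeasure (Γ → Bool)) :=
    {Q | (∀ x y, (Q : Measure (Γ → Bool)).real {ξ | ξ x = true ∧ ξ y = true} = S (e x - e y)) ∧
      ∀ k x G, (Q : Measure (Γ → Bool)).real (invU e (r k) x G) ≤ (1 / 2) ^ k}
  have hK0 : InvGood K0 := by
    refine ⟨?_, ?_, ?_⟩
    · have q1 : IsClosed {Q : ProbabilityMeasure (Γ → Bool) | ∀ x y,
          (Q : Measure (Γ → Bool)).real {ξ | ξ x = true ∧ ξ y = true} = S (e x - e y)} := by
        simp only [ofPred_forall]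
        refine isClosed_iInter fun x => isClosed_iInter fun y => ?_
        exact isClosed_eq (inv_eval (hcl2 x y)) continuous_const
      have q2 : IsClosed {Q : ProbabilityMeasure (Γ → Bool) | ∀ k x G,
          (Q : Measure (Γ → Bool)).real (invU e (r k) x G) ≤ (1 / 2) ^ k} := by
        simp only [ofPred_forall]
        refine isClosed_iInter fun k => isClosed_iInter fun x => isClosed_iInter fun G => ?_
        exact isClosed_le (inv_eval (invU_clopen e (r k) x G)) continuous_const
      exact q1.inter q2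
    · refine ⟨⟨P0, hP0p⟩, hP01, ?_⟩
      intro k x
      exact (invU_le e (r k) x P0 _ (by positivity)).1 (hP02 k x)
    · rintro P ⟨hP1, hP2⟩ b N hN
      have hN' : (0 : ℝ) < N := by exact_mod_cast hN
      refine ⟨?_, ?_⟩
      · intro x y
        have e1 := invAvg_real b N (P : Measure (Γ → Bool)) (hcl2 x y).isOpen.measurableSet
        change (invAvg b N (P : Measure (Γ → Bool))).real _ = _
        rw [e1]
        have e2 : ∀ i ∈ Finset.range N, (P : Measure (Γ → Bool)).real
            (invSh (i • b) ⁻¹' {ξ : Γ → Bool | ξ x = true ∧ ξ y = true}) = S (e x - e y) := by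
          intro i _
          have e3 := hP1 (x + i • b) (y + i • b)
          rw [map_add, map_add, add_sub_add_right_eq_sub] at e3
          exact e3
        rw [Finset.sum_congr rfl e2, Finset.sum_const, Finset.card_range, nsmul_eq_mul]
        field_simp
      · intro k x G
        have e1 := invAvg_real b N (P : Measure (Γ → Bool))
          (invU_clopen e (r k) x G).isOpen.measurableSet
        change (invAvg b N (P : Measure (Γ → Bool))).real _ ≤ _
        rw [e1]
        classical
        have e2 : ∀ i ∈ Finset.range N, (P : Measure (Γ → Bool)).real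
            (invSh (i • b) ⁻¹' (invU e (r k) x G)) ≤ (1 / 2) ^ k := by
          intro i _
          refine le_trans (measureReal_mono ?_) (hP2 k (x + i • b)
            (G.image fun y => y + i • b))
          rintro ξ ⟨h1, y, hy, h2, h3⟩
          refine ⟨h1, y + i • b, Finset.mem_image_of_mem _ hy, ?_, h3⟩
          rw [map_add, map_add, dist_add_right]
          exact h2
        calc (N : ℝ)⁻¹ * _ ≤ (N : ℝ)⁻¹ * ∑ i ∈ Finset.range N, (1 / 2 : ℝ) ^ k :=
              mul_le_mul_of_nonneg_left (Finset.sum_le_sum e2) (by positivity)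
          _ = (1 / 2) ^ k := by
              rw [Finset.sum_const, Finset.card_range, nsmul_eq_mul]
              field_simp
  obtain ⟨a, ha⟩ := exists_surjective_nat Γ
  let R : ℕ → Set (ProbabilityMeasure (Γ → Bool)) := fun j =>
    {Q | ∀ A : Set (Γ → Bool), IsClopen A →
      (Q : Measure (Γ → Bool)).real (invSh (a j) ⁻¹' A) = (Q : Measure (Γ → Bool)).real A}
  let K : ℕ → Set (ProbabilityMeasure (Γ → Bool)) := fun n =>
    Nat.rec K0 (fun j K => K ∩ R j) n
  have hKs : ∀ j, K (j + 1) = K j ∩ R j := fun j => rfl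
  have hK : ∀ j, InvGood (K j) := by
    intro j
    induction j with
    | zero => exact hK0
    | succ j ih =>
      rw [hKs]
      exact ih.step (a j)
  obtain ⟨Q, hQ⟩ := IsCompact.nonempty_iInter_of_sequence_nonempty_isCompact_isClosed K
    (fun j => by rw [hKs]; exact inter_subset_left) (fun j => (hK j).ne)
    ((hK 0).closed.isCompact) (fun j => (hK j).closed)
  rw [mem_iInter] at hQ
  have hQ0 : Q ∈ K0 := hQ 0
  refine ⟨(Q : Measure (Γ → Bool)), ⟨inferInstance, hQ0.1, ?_⟩, ?_⟩
  · intro k x
    exact (invU_le e (r k) x _ _ (by positivity)).2 (hQ0.2 k x)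
  · intro b
    obtain ⟨j, rfl⟩ := ha b
    have h1 := hQ (j + 1)
    rw [hKs] at h1
    have h2 : ∀ A : Set (Γ → Bool), IsClopen A →
      (Q : Measure (Γ → Bool)).real (invSh (a j) ⁻¹' A) = (Q : Measure (Γ → Bool)).real A := h1.2
    change (Q : Measure (Γ → Bool)).map (invSh (a j)) = Q
    have h3 : IsProbabilityMeasure ((Q : Measure (Γ → Bool)).map (invSh (a j))) :=
      Measure.isProbabilityMeasure_map (invSh_meas _).aemeasurable
    refine inv_ext fun A hA => ?_
    rw [← h2 A hA]
    unfold Measure.real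
    rw [Measure.map_apply (invSh_meas _) hA.isOpen.measurableSet]

end Pool.Agent.R923.RC
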