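import Pool.Agent.R923.RC.Stm

/-!
# RC-JOINT: joint measurability of the section of a random closed set by a line
-/

set_option autoImplicit false

open MeasureTheory Set

namespace Pool.Agent.R923.RC

theorem joint_hit {d : ℕ} {G : Set (E d)} (hG : IsOpen G) : MeasurableSet (hit d G) := by
  apply IsOpen.measurableSet
  exact TopologicalSpace.isOpen_generateFrom_of_mem (Or.inl ⟨G, hG, rfl⟩)

theorem s_JOINT : S_JOINT := by
  intro d u
  have key : {p : ClosedSet d × ℝ | p.2 • u ∈ p.1.carrier} =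
      ⋂ n : ℕ, ⋃ q : ℚ, (hit d (Metric.ball ((q : ℝ) • u) (1 / ((n : ℝ) + 1)))) ×ˢ
        {t : ℝ | |t - q| * (‖u‖ + 1) < 1 / ((n : ℝ) + 1)} := by
    ext ⟨F, t⟩
    simp only [mem_setOf_eq, mem_iInter, mem_iUnion, mem_prod]
    constructor
    · intro h n
      have hn : (0 : ℝ) < 1 / ((n : ℝ) + 1) := by positivity
      have hu : (0 : ℝ) < ‖u‖ + 1 := by positivity
      obtain ⟨q, hq1, hq2⟩ := exists_rat_btwn (show t < t + 1 / ((n : ℝ) + 1) / (‖u‖ + 1) by
        have : 0 < 1 / ((n : ℝ) + 1) / (‖u‖ + 1) := by positivity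
        linarith)
      have hlt : |t - q| * (‖u‖ + 1) < 1 / ((n : ℝ) + 1) := by
        rw [← lt_div_iff₀ hu, abs_lt]
        constructor <;> linarith
      refine ⟨q, ⟨t • u, h, ?_⟩, hlt⟩
      rw [Metric.mem_ball, dist_eq_norm, ← sub_smul, norm_smul, Real.norm_eq_abs]
      refine lt_of_le_of_lt ?_ hlt
      exact mul_le_mul_of_nonneg_left (by linarith) (abs_nonneg _)
    · intro h
      rw [← F.isClosed.closure_eq, Metric.mem_closure_iff]
      intro ε hε
      obtain ⟨n, hn⟩ := exists_nat_one_div_lt (half_pos hε)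
      obtain ⟨q, ⟨y, hy, hyb⟩, hq⟩ := h n
      refine ⟨y, hy, ?_⟩
      rw [Metric.mem_ball] at hyb
      have h1 : dist (t • u) ((q : ℝ) • u) < 1 / ((n : ℝ) + 1) := by
        rw [dist_eq_norm, ← sub_smul, norm_smul, Real.norm_eq_abs]
        refine lt_of_le_of_lt ?_ hq
        exact mul_le_mul_of_nonneg_left (by linarith) (abs_nonneg _)
      calc dist (t • u) y ≤ dist (t • u) ((q : ℝ) • u) + dist ((q : ℝ) • u) y :=
            dist_triangle _ _ _
        _ < ε / 2 + ε / 2 := by
            rw [dist_comm ((q : ℝ) • u) y]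
            exact add_lt_add (h1.trans hn) (hyb.trans hn)
        _ = ε := add_halves ε
  rw [key]
  refine MeasurableSet.iInter fun n => MeasurableSet.iUnion fun q => ?_
  refine (joint_hit Metric.isOpen_ball).prod (IsOpen.measurableSet ?_)
  exact isOpen_lt (by fun_prop) continuous_const

end Pool.Agent.R923.RC
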