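import Pool.Agent.R923.RC.Stm

/-!
# RC-MEAS: measurability of maps into the space of closed sets (helper33)
-/

open MeasureTheory Set TopologicalSpace

namespace Pool.Agent.R923.RC

namespace Meas

/-- a closed ball with centre in a countable dense set and rational radius -/
noncomputable def cb (d : ℕ) (p : ℕ × ℚ) : Set (E d) := Metric.closedBall (denseSeq (E d) p.1) (p.2 : ℝ)

/-- an open ball with centre in a countable dense set and rational radius -/
noncomputable def ob (d : ℕ) (p : ℕ × ℚ) : Set (E d) := Metric.ball (denseSeq (E d) p.1) (p.2 : ℝ)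

/-- finite unions of closed balls -/
noncomputable def cu (d : ℕ) (T : Finset (ℕ × ℚ)) : Set (E d) := ⋃ p ∈ T, cb d p

lemma isCompact_cb (d : ℕ) (p : ℕ × ℚ) : IsCompact (cb d p) := isCompact_closedBall _ _

lemma isCompact_cu (d : ℕ) (T : Finset (ℕ × ℚ)) : IsCompact (cu d T) :=
  T.isCompact_biUnion fun p _ => isCompact_cb d p

/-- the countable subbasis -/
def fam (d : ℕ) : Set (Set (ClosedSet d)) :=
  range (fun p : ℕ × ℚ => hit d (ob d p)) ∪ range (fun T : Finset (ℕ × ℚ) => (hit d (cu d T))ᶜ)

lemma fam_countable (d : ℕ) : (fam d).Countable :=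
  (countable_range _).union (countable_range _)

/-- points close to `x`: a small ball of the family -/
lemma small (d : ℕ) (x : E d) (ε : ℝ) (hε : 0 < ε) :
    ∃ p : ℕ × ℚ, x ∈ ob d p ∧ cb d p ⊆ Metric.ball x ε := by
  obtain ⟨s, hs1, hs2⟩ := exists_rat_btwn (show (0 : ℝ) < ε / 2 by linarith)
  obtain ⟨n, hn⟩ := (denseRange_denseSeq (E d)).exists_dist_lt x hs1
  refine ⟨(n, s), ?_, ?_⟩
  · rw [ob, Metric.mem_ball]
    exact hn
  · intro y hy
    rw [cb, Metric.mem_closedBall] at hy
    rw [Metric.mem_ball]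
    calc dist y x ≤ dist y (denseSeq (E d) n) + dist (denseSeq (E d) n) x := dist_triangle _ _ _
      _ < ε := by
        rw [dist_comm (denseSeq (E d) n) x]
        dsimp only at hy
        linarith

lemma fell_eq (d : ℕ) : fellTopology d = generateFrom (fam d) := by
  refine le_antisymm ?_ ?_
  · refine le_generateFrom ?_
    rintro U (⟨p, rfl⟩ | ⟨T, rfl⟩)
    · exact isOpen_generateFrom_of_mem (Or.inl ⟨_, Metric.isOpen_ball, rfl⟩)
    · exact isOpen_generateFrom_of_mem (Or.inr ⟨_, isCompact_cu d T, rfl⟩)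
  · refine le_generateFrom ?_
    rintro U (⟨G, hG, rfl⟩ | ⟨K, hK, rfl⟩)
    · have : hit d G = ⋃ p ∈ {p : ℕ × ℚ | ob d p ⊆ G}, hit d (ob d p) := by
        ext F
        simp only [mem_iUnion, exists_prop, mem_ofPred_eq]
        constructor
        · rintro ⟨x, hxF, hxG⟩
          obtain ⟨ε, hε, hb⟩ := Metric.isOpen_iff.mp hG x hxG
          obtain ⟨p, hp1, hp2⟩ := small d x ε hε
          exact ⟨p, (Metric.ball_subset_closedBall.trans hp2).trans hb, x, hxF, hp1⟩
        · rintro ⟨p, hp, x, hxF, hx⟩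
          exact ⟨x, hxF, hp hx⟩
      rw [this]
      refine @isOpen_biUnion _ _ (generateFrom (fam d)) _ _ fun p _ => ?_
      exact isOpen_generateFrom_of_mem (Or.inl ⟨p, rfl⟩)
    · have : (hit d K)ᶜ = ⋃ T ∈ {T : Finset (ℕ × ℚ) | K ⊆ cu d T}, (hit d (cu d T))ᶜ := by
        ext F
        simp only [mem_iUnion, exists_prop, mem_ofPred_eq]
        constructor
        · intro hF
          have hx : ∀ x ∈ K, ∃ p : ℕ × ℚ, x ∈ ob d p ∧ Disjoint (F.carrier) (cb d p) := by
            intro x hx
            have hxF : x ∉ F.carrier := fun h => hF ⟨x, h, hx⟩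
            obtain ⟨ε, hε, hb⟩ := Metric.isOpen_iff.mp F.isClosed.isOpen_compl x hxF
            obtain ⟨p, hp1, hp2⟩ := small d x ε hε
            refine ⟨p, hp1, ?_⟩
            rw [Set.disjoint_left]
            intro y hy1 hy2
            exact hb (hp2 hy2) hy1
          choose! q hq1 hq2 using hx
          obtain ⟨t, ht, hcov⟩ := hK.elim_nhds_subcover (fun x => ob d (q x))
            (fun x hx => Metric.isOpen_ball.mem_nhds (hq1 x hx))
          classical
          refine ⟨t.image q, ?_, ?_⟩
          · intro x hx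
            obtain ⟨y, hy, hxy⟩ := mem_iUnion₂.mp (hcov hx)
            exact mem_iUnion₂.mpr ⟨q y, Finset.mem_image_of_mem q hy,
              Metric.ball_subset_closedBall hxy⟩
          · rintro ⟨x, hxF, hx⟩
            obtain ⟨p, hp, hxp⟩ := mem_iUnion₂.mp hx
            obtain ⟨y, hy, rfl⟩ := Finset.mem_image.mp hp
            exact Set.disjoint_left.mp (hq2 y (ht y hy)) hxF hxp
        · rintro ⟨T, hT, hF⟩ ⟨x, hxF, hxK⟩
          exact hF ⟨x, hxF, hT hxK⟩
      rw [this]
      refine @isOpen_biUnion _ _ (generateFrom (fam d)) _ _ fun T _ => ?_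
      exact isOpen_generateFrom_of_mem (Or.inr ⟨T, rfl⟩)

end Meas

open Meas in
theorem s_MEAS : S_MEAS := by
  intro d Ω _ f hf
  have : SecondCountableTopology (ClosedSet d) := ⟨⟨fam d, fam_countable d, fell_eq d⟩⟩
  have hborel : borel (ClosedSet d) = MeasurableSpace.generateFrom (fam d) :=
    borel_eq_generateFrom_of_subbasis (fell_eq d)
  change @Measurable Ω (ClosedSet d) _ (borel _) f
  rw [hborel]
  refine measurable_generateFrom ?_
  rintro U (⟨p, rfl⟩ | ⟨T, rfl⟩)
  · have : f ⁻¹' (hit d (ob d p)) = ⋃ n : ℕ, {ω | ((f ω).carrier ∩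
        Metric.closedBall (denseSeq (E d) p.1) ((p.2 : ℝ) - 1 / ((n : ℝ) + 1))).Nonempty} := by
      ext ω
      simp only [mem_preimage, mem_iUnion, mem_ofPred_eq]
      constructor
      · rintro ⟨x, hxF, hx⟩
        rw [ob, Metric.mem_ball] at hx
        obtain ⟨n, hn⟩ := exists_nat_one_div_lt (sub_pos.mpr hx)
        refine ⟨n, x, hxF, ?_⟩
        rw [Metric.mem_closedBall]
        linarith
      · rintro ⟨n, x, hxF, hx⟩
        refine ⟨x, hxF, ?_⟩
        rw [Metric.mem_closedBall] at hx
        rw [ob, Metric.mem_ball]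
        have : (0 : ℝ) < 1 / ((n : ℝ) + 1) := by positivity
        linarith
    rw [this]
    exact MeasurableSet.iUnion fun n => hf _ (isCompact_closedBall _ _)
  · rw [preimage_compl]
    exact (hf _ (isCompact_cu d T)).compl

end Pool.Agent.R923.RC
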