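import Pool.Agent.R923.RC.Stm

/-!
# RC-MOD: computations for the model set (helper564)
-/

open MeasureTheory Set

namespace Pool.Agent.R923.RC

namespace ModAux

theorem per_mem {V : Set ℝ} (hV : V ⊆ Ioo 4 5) {x : ℝ} (hx : x ∈ Ico (0:ℝ) 16) :
    x ∈ per V ↔ x ∈ Ioo (0:ℝ) 1 ∪ V := by
  constructor
  · rintro ⟨k, hk⟩
    have h5 : x - 16 * k ∈ Ioo (0:ℝ) 5 := by
      rcases hk with h | h
      · exact ⟨h.1, by linarith [h.2]⟩
      · have := hV h
        exact ⟨by linarith [this.1], this.2⟩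
    have h1 : (k:ℝ) < 1 := by linarith [h5.1, hx.2]
    have h2 : (-1:ℝ) < k := by linarith [h5.2, hx.1]
    have h1' : k < 1 := by exact_mod_cast h1
    have h2' : -1 < k := by exact_mod_cast h2
    have : k = 0 := by omega
    subst this
    simpa using hk
  · intro h
    exact ⟨0, by simpa using h⟩

theorem per_add {V : Set ℝ} {x : ℝ} : x + 16 ∈ per V ↔ x ∈ per V := by
  constructor
  · rintro ⟨k, hk⟩
    refine ⟨k - 1, ?_⟩
    push_cast
    convert hk using 1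
    ring
  · rintro ⟨k, hk⟩
    refine ⟨k + 1, ?_⟩
    push_cast
    convert hk using 1
    ring

theorem isOpen_per {V : Set ℝ} (hV : IsOpen V) : IsOpen (per V) := by
  have : per V = ⋃ k : ℤ, (fun x : ℝ => x - 16 * k) ⁻¹' (Ioo (0:ℝ) 1 ∪ V) := by
    ext x
    simp only [per, mem_iUnion, mem_preimage]
    rfl
  rw [this]
  exact isOpen_iUnion fun k => (isOpen_Ioo.union hV).preimage (by fun_prop)

/-- elements of the period -/
theorem mem_D {V : Set ℝ} (hV : V ⊆ Ioo 4 5) {x : ℝ} (hx : x ∈ Ioo (0:ℝ) 1 ∪ V) :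
    (x ∈ Ioo (0:ℝ) 1) ∨ (x ∈ V ∧ x ∈ Ioo (4:ℝ) 5) := by
  rcases hx with h | h
  · exact Or.inl h
  · exact Or.inr ⟨h, hV h⟩

theorem D_Ico {V : Set ℝ} (hV : V ⊆ Ioo 4 5) {x : ℝ} (hx : x ∈ Ioo (0:ℝ) 1 ∪ V) :
    x ∈ Ico (0:ℝ) 16 := by
  rcases mem_D hV hx with h | ⟨-, h⟩
  · exact ⟨h.1.le, by linarith [h.2]⟩
  · exact ⟨by linarith [h.1], by linarith [h.2]⟩

theorem lagSet_eq {V : Set ℝ} (hV : V ⊆ Ioo 4 5) (h : ℝ) :
    {x : ℝ | x ∈ Ico (0 : ℝ) 16 ∧ x ∈ per V ∧ x + h ∈ per V} =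
      {x : ℝ | x ∈ Ioo (0:ℝ) 1 ∪ V ∧ x + h ∈ per V} := by
  ext x
  simp only [mem_ofPred_eq]
  constructor
  · rintro ⟨h1, h2, h3⟩
    exact ⟨(per_mem hV h1).1 h2, h3⟩
  · rintro ⟨h1, h2⟩
    have := D_Ico hV h1
    exact ⟨this, (per_mem hV this).2 h1, h2⟩

theorem not_per {V : Set ℝ} (hV : V ⊆ Ioo 4 5) {x : ℝ} (hx : x ∈ Ico (0:ℝ) 16)
    (h1 : 1 ≤ x) (h2 : x ≤ 4 ∨ 5 ≤ x) : x ∉ per V := by
  rw [per_mem hV hx]
  intro h
  rcases mem_D hV h with h | ⟨-, h⟩
  · linarith [h.2]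
  · rcases h2 with h2 | h2
    · linarith [h.1]
    · linarith [h.2]

theorem vol_D {V : Set ℝ} (hVo : IsOpen V) (hV : V ⊆ Ioo 4 5) :
    volume.real (Ioo (0:ℝ) 1 ∪ V) = 1 + volume.real V := by
  have hfin : volume V ≠ ⊤ := ne_top_of_le_ne_top (by simp) (measure_mono hV)
  rw [measureReal_union (s₁ := Ioo (0:ℝ) 1) (s₂ := V) ?_ hVo.measurableSet (by simp) hfin]
  · simp
  · rw [Set.disjoint_left]
    intro x hx hx'
    have := hV hx'
    linarith [hx.2, this.1]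

theorem lag_zero {V : Set ℝ} (hVo : IsOpen V) (hV : V ⊆ Ioo 4 5) :
    lag (per V) 0 = 1 + volume.real V := by
  rw [lag, lagSet_eq hV, ← vol_D hVo hV]
  congr 1
  ext x
  simp only [mem_ofPred_eq, add_zero]
  constructor
  · exact fun h => h.1
  · exact fun h => ⟨h, (per_mem hV (D_Ico hV h)).2 h⟩

theorem lag_add {V : Set ℝ} (h : ℝ) : lag (per V) (h + 16) = lag (per V) h := by
  rw [lag, lag]
  congr 1
  ext x
  simp only [mem_ofPred_eq, ← add_assoc, per_add]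

theorem lag_gap {V : Set ℝ} (hV : V ⊆ Ioo 4 5) {h : ℝ}
    (hh : h ∈ Ioo (1 : ℝ) 3 ∪ Ioo (5 : ℝ) 11) : lag (per V) h = 0 := by
  rw [lag, lagSet_eq hV]
  have : {x : ℝ | x ∈ Ioo (0:ℝ) 1 ∪ V ∧ x + h ∈ per V} = ∅ := by
    ext x
    simp only [mem_ofPred_eq, mem_empty_iff_false, iff_false, not_and]
    intro hx
    rcases mem_D hV hx with h1 | ⟨-, h1⟩ <;> rcases hh with h2 | h2
    · exact not_per hV ⟨by linarith [h1.1, h2.1], by linarith [h1.2, h2.2]⟩
        (by linarith [h1.1, h2.1]) (Or.inl (by linarith [h1.2, h2.2]))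
    · exact not_per hV ⟨by linarith [h1.1, h2.1], by linarith [h1.2, h2.2]⟩
        (by linarith [h1.1, h2.1]) (Or.inr (by linarith [h1.1, h2.1]))
    · exact not_per hV ⟨by linarith [h1.1, h2.1], by linarith [h1.2, h2.2]⟩
        (by linarith [h1.1, h2.1]) (Or.inr (by linarith [h1.1, h2.1]))
    · exact not_per hV ⟨by linarith [h1.1, h2.1], by linarith [h1.2, h2.2]⟩
        (by linarith [h1.1, h2.1]) (Or.inr (by linarith [h1.1, h2.1]))
  rw [this]
  simp

theorem lag_34 {V : Set ℝ} (hV : V ⊆ Ioo 4 5) {h : ℝ} (hh : h ∈ Icc (3 : ℝ) 4) :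
    lag (per V) h = volume.real (V ∩ Icc 4 (h + 1)) := by
  rw [lag, lagSet_eq hV]
  have e1 : {x : ℝ | x ∈ Ioo (0:ℝ) 1 ∪ V ∧ x + h ∈ per V} =
      (fun x => x + h) ⁻¹' (V ∩ Ioo h (h + 1)) := by
    ext x
    simp only [mem_ofPred_eq, mem_preimage, mem_inter_iff]
    constructor
    · rintro ⟨h1, h2⟩
      rcases mem_D hV h1 with h1 | ⟨-, h1⟩
      · have hI : x + h ∈ Ico (0:ℝ) 16 :=
          ⟨by linarith [h1.1, hh.1], by linarith [h1.2, hh.2]⟩
        rw [per_mem hV hI] at h2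
        rcases h2 with h2 | h2
        · linarith [h2.2, h1.1, hh.1]
        · exact ⟨h2, ⟨by linarith [h1.1], by linarith [h1.2]⟩⟩
      · exact absurd h2 (not_per hV ⟨by linarith [h1.1, hh.1], by linarith [h1.2, hh.2]⟩
          (by linarith [h1.1, hh.1]) (Or.inr (by linarith [h1.1, hh.1])))
    · rintro ⟨h1, h2⟩
      have hx : x ∈ Ioo (0:ℝ) 1 := ⟨by linarith [h2.1], by linarith [h2.2]⟩
      refine ⟨Or.inl hx, (per_mem hV (D_Ico hV (Or.inr h1))).2 (Or.inr h1)⟩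
  rw [e1]
  have e2 : volume.real ((fun x => x + h) ⁻¹' (V ∩ Ioo h (h + 1))) =
      volume.real (V ∩ Ioo h (h + 1)) := by
    rw [measureReal_def, measureReal_def, measure_preimage_add_right]
  rw [e2, measureReal_def, measureReal_def]
  congr 1
  apply measure_congr
  have : ∀ᵐ x : ℝ, x ≠ h + 1 := by
    rw [ae_iff]
    simp
  filter_upwards [this] with x hx
  apply propext
  change x ∈ V ∩ Ioo h (h + 1) ↔ x ∈ V ∩ Icc 4 (h + 1)
  constructor
  · rintro ⟨h1, h2⟩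
    exact ⟨h1, (hV h1).1.le, h2.2.le⟩
  · rintro ⟨h1, h2⟩
    exact ⟨h1, by linarith [(hV h1).1, hh.2], lt_of_le_of_ne h2.2 hx⟩

/-- the set in the plane -/
def pl (V : Set ℝ) : Set (ℝ × ℝ) := {p | p.2 ∈ Ioo (0:ℝ) 1 ∪ V ∧ p.2 + p.1 ∈ per V}

theorem meas_pl {V : Set ℝ} (hVo : IsOpen V) : MeasurableSet (pl V) := by
  have h1 : IsOpen {p : ℝ × ℝ | p.2 ∈ Ioo (0:ℝ) 1 ∪ V} :=
    (isOpen_Ioo.union hVo).preimage (continuous_snd)
  have h2 : IsOpen {p : ℝ × ℝ | p.2 + p.1 ∈ per V} :=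
    (isOpen_per hVo).preimage (by fun_prop)
  exact (h1.inter h2).measurableSet

theorem lag_eq {V : Set ℝ} (hV : V ⊆ Ioo 4 5) (h : ℝ) :
    lag (per V) h = (volume (Prod.mk h ⁻¹' pl V)).toReal := by
  rw [lag, lagSet_eq hV, measureReal_def]
  rfl

theorem meas_lag {V : Set ℝ} (hVo : IsOpen V) (hV : V ⊆ Ioo 4 5) :
    Measurable (lag (per V)) := by
  have : lag (per V) = fun h => (volume (Prod.mk h ⁻¹' pl V)).toReal := by
    ext h; exact lag_eq hV h
  rw [this]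
  exact (measurable_measure_prodMk_left (meas_pl hVo)).ennreal_toReal

theorem tonelli {V : Set ℝ} (hVo : IsOpen V) (hV : V ⊆ Ioo 4 5) (I : Set ℝ) :
    (∫ h in I, lag (per V) h) =
      (∫⁻ x in Ioo (0:ℝ) 1 ∪ V, volume {h : ℝ | h ∈ I ∧ x + h ∈ per V}).toReal := by
  have h1 : (∫ h in I, lag (per V) h) =
      (∫⁻ h in I, volume (Prod.mk h ⁻¹' pl V)).toReal := by
    rw [← integral_toReal]
    · exact integral_congr_ae (Filter.Eventually.of_forall fun h => lag_eq hV h)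
    · exact (measurable_measure_prodMk_left (meas_pl hVo)).aemeasurable
    · refine Filter.Eventually.of_forall fun h => ?_
      have : volume (Prod.mk h ⁻¹' pl V) ≤ volume (Ico (0:ℝ) 16) := by
        apply measure_mono
        intro x hx
        exact D_Ico hV hx.1
      exact lt_of_le_of_lt this (by simp)
  rw [h1]
  congr 1
  have h2 := Measure.prod_apply (μ := volume.restrict I) (ν := (volume : Measure ℝ))
    (meas_pl hVo)
  have h3 := Measure.prod_apply_symm (μ := volume.restrict I) (ν := (volume : Measure ℝ))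
    (meas_pl hVo)
  rw [← h2, h3]
  rw [← lintegral_indicator ((isOpen_Ioo.union hVo).measurableSet)]
  congr 1
  ext x
  rw [Measure.restrict_apply ((meas_pl hVo).preimage (by fun_prop))]
  by_cases hx : x ∈ Ioo (0:ℝ) 1 ∪ V
  · rw [indicator_of_mem hx]
    congr 1
    ext h
    simp only [pl, mem_inter_iff, mem_preimage, mem_ofPred_eq]
    tauto
  · rw [indicator_of_notMem hx]
    have : (fun x_1 => (x_1, x)) ⁻¹' pl V ∩ I = ∅ := by
      ext h
      simp only [pl, mem_inter_iff, mem_preimage, mem_ofPred_eq, mem_empty_iff_false, iff_false]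
      tauto
    rw [this, measure_empty]

theorem disjD {V : Set ℝ} (hV : V ⊆ Ioo 4 5) : Disjoint (Ioo (0:ℝ) 1) V := by
  rw [Set.disjoint_left]
  intro x hx hx'
  have := hV hx'
  linarith [hx.2, this.1]

theorem int35 {V : Set ℝ} (hVo : IsOpen V) (hV : V ⊆ Ioo 4 5) :
    (∫ h in Icc (3 : ℝ) 5, lag (per V) h) = volume.real V := by
  rw [tonelli hVo hV, lintegral_union hVo.measurableSet (disjD hV)]
  have h1 : ∫⁻ x in Ioo (0:ℝ) 1, volume {h : ℝ | h ∈ Icc (3:ℝ) 5 ∧ x + h ∈ per V} =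
      ∫⁻ _ in Ioo (0:ℝ) 1, volume V := by
    apply setLIntegral_congr_fun measurableSet_Ioo
    intro x hx
    change volume {h : ℝ | h ∈ Icc (3:ℝ) 5 ∧ x + h ∈ per V} = volume V
    have : {h : ℝ | h ∈ Icc (3:ℝ) 5 ∧ x + h ∈ per V} = (fun h => x + h) ⁻¹' V := by
      ext h
      simp only [mem_ofPred_eq, mem_preimage]
      constructor
      · rintro ⟨h1, h2⟩
        have hI : x + h ∈ Ico (0:ℝ) 16 :=
          ⟨by linarith [h1.1, hx.1], by linarith [h1.2, hx.2]⟩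
        rw [per_mem hV hI] at h2
        rcases h2 with h2 | h2
        · linarith [h2.2, h1.1, hx.1]
        · exact h2
      · intro h2
        have h3 := hV h2
        exact ⟨⟨by linarith [h3.1, hx.2], by linarith [h3.2, hx.1]⟩,
          (per_mem hV (D_Ico hV (Or.inr h2))).2 (Or.inr h2)⟩
    rw [this, measure_preimage_add]
  have h2 : ∫⁻ x in V, volume {h : ℝ | h ∈ Icc (3:ℝ) 5 ∧ x + h ∈ per V} =
      ∫⁻ _ in V, 0 := by
    apply setLIntegral_congr_fun hVo.measurableSet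
    intro x hx
    change volume {h : ℝ | h ∈ Icc (3:ℝ) 5 ∧ x + h ∈ per V} = 0
    have : {h : ℝ | h ∈ Icc (3:ℝ) 5 ∧ x + h ∈ per V} = ∅ := by
      ext h
      simp only [mem_ofPred_eq, mem_empty_iff_false, iff_false, not_and]
      intro h1
      have h3 := hV hx
      exact not_per hV ⟨by linarith [h1.1, h3.1], by linarith [h1.2, h3.2]⟩
        (by linarith [h1.1, h3.1]) (Or.inr (by linarith [h1.1, h3.1]))
    rw [this, measure_empty]
  rw [h1, h2]
  simp [measureReal_def]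

theorem window {V : Set ℝ} (hVo : IsOpen V) (hV : V ⊆ Ioo 4 5) {x : ℝ}
    (hx : x ∈ Ico (0:ℝ) 16) :
    volume {h : ℝ | h ∈ Ico (0:ℝ) 16 ∧ x + h ∈ per V} = volume (Ioo (0:ℝ) 1 ∪ V) := by
  have hm : MeasurableSet (per V) := (isOpen_per hVo).measurableSet
  have e1 : {h : ℝ | h ∈ Ico (0:ℝ) 16 ∧ x + h ∈ per V} =
      (fun h => x + h) ⁻¹' (per V ∩ Ico x (x + 16)) := by
    ext h
    simp only [mem_ofPred_eq, mem_preimage, mem_inter_iff, mem_Ico]
    constructor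
    · rintro ⟨⟨h1, h2⟩, h3⟩
      exact ⟨h3, by linarith, by linarith⟩
    · rintro ⟨h3, h1, h2⟩
      exact ⟨⟨by linarith, by linarith⟩, h3⟩
  have e2 : per V ∩ Ico x (x + 16) = (per V ∩ Ico x 16) ∪ (per V ∩ Ico 16 (x + 16)) := by
    rw [← inter_union_distrib_left, Ico_union_Ico_eq_Ico hx.2.le (by linarith [hx.1])]
  have e3 : volume (per V ∩ Ico 16 (x + 16)) = volume (per V ∩ Ico 0 x) := by
    have : per V ∩ Ico 0 x = (fun y => y + 16) ⁻¹' (per V ∩ Ico 16 (x + 16)) := by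
      ext y
      simp only [mem_preimage, mem_inter_iff, per_add, mem_Ico]
      constructor
      · rintro ⟨h1, h2, h3⟩
        exact ⟨h1, by linarith, by linarith⟩
      · rintro ⟨h1, h2, h3⟩
        exact ⟨h1, by linarith, by linarith⟩
    rw [this, measure_preimage_add_right]
  have e4 : Ioo (0:ℝ) 1 ∪ V = (per V ∩ Ico 0 x) ∪ (per V ∩ Ico x 16) := by
    rw [← inter_union_distrib_left, Ico_union_Ico_eq_Ico hx.1 hx.2.le]
    ext y
    constructor
    · intro h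
      have := D_Ico hV h
      exact ⟨(per_mem hV this).2 h, this⟩
    · rintro ⟨h1, h2⟩
      exact (per_mem hV h2).1 h1
  rw [e1, measure_preimage_add, e2, e4, measure_union _ (hm.inter measurableSet_Ico),
    measure_union _ (hm.inter measurableSet_Ico), e3, add_comm]
  · rw [Set.disjoint_left]
    rintro y ⟨-, h1⟩ ⟨-, h2⟩
    linarith [h1.2, h2.1]
  · rw [Set.disjoint_left]
    rintro y ⟨-, h1⟩ ⟨-, h2⟩
    linarith [h1.2, h2.1]

theorem int016 {V : Set ℝ} (hVo : IsOpen V) (hV : V ⊆ Ioo 4 5) :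
    (∫ h in Ico (0 : ℝ) 16, lag (per V) h) = (1 + volume.real V) ^ 2 := by
  rw [tonelli hVo hV]
  have h1 : ∫⁻ x in Ioo (0:ℝ) 1 ∪ V, volume {h : ℝ | h ∈ Ico (0:ℝ) 16 ∧ x + h ∈ per V} =
      ∫⁻ _ in Ioo (0:ℝ) 1 ∪ V, volume (Ioo (0:ℝ) 1 ∪ V) := by
    apply setLIntegral_congr_fun (isOpen_Ioo.union hVo).measurableSet
    intro x hx
    exact window hVo hV (D_Ico hV hx)
  rw [h1, setLIntegral_const, ENNReal.toReal_mul, ← measureReal_def, vol_D hVo hV, sq]

end ModAux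

theorem s_MOD : S_MOD := by
  intro V hVo hV
  refine ⟨ModAux.lag_zero hVo hV, ?_, fun h hh => ModAux.lag_gap hV hh, ModAux.int016 hVo hV,
    ModAux.int35 hVo hV, fun h hh => ModAux.lag_34 hV hh, ModAux.meas_lag hVo hV,
    ModAux.lag_add⟩
  have := ModAux.lag_add (V := V) 0
  rw [zero_add] at this
  rw [this, ModAux.lag_zero hVo hV]

end Pool.Agent.R923.RC
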