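import Pool.Agent.R923.RC.Stm

/-!
# RC-NEC: necessity of the inequalities
-/

open MeasureTheory Set Filter Topology

namespace Pool.Agent.R923.RC

namespace NEC

lemma isOpen_hit {d : ℕ} {G : Set (E d)} (hG : IsOpen G) : IsOpen (hit d G) :=
  TopologicalSpace.isOpen_generateFrom_of_mem (Or.inl ⟨G, hG, rfl⟩)

lemma isOpen_miss {d : ℕ} {K : Set (E d)} (hK : IsCompact K) : IsOpen (hit d K)ᶜ :=
  TopologicalSpace.isOpen_generateFrom_of_mem (Or.inr ⟨K, hK, rfl⟩)

lemma measSet_mem {d : ℕ} (x : E d) : MeasurableSet {F : ClosedSet d | x ∈ F.carrier} := by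
  have h : {F : ClosedSet d | x ∈ F.carrier} = ((hit d {x})ᶜ)ᶜ := by
    ext F
    rw [compl_compl]
    constructor
    · intro h
      exact ⟨x, h, rfl⟩
    · rintro ⟨y, hy, rfl⟩
      exact hy
  rw [h]
  exact (isOpen_miss isCompact_singleton).measurableSet.compl

/-- the closed sets which miss `x` but come closer than `r` -/
def near {d : ℕ} (x : E d) (r : ℝ) : Set (ClosedSet d) :=
  {F | x ∉ F.carrier ∧ ∃ y ∈ F.carrier, dist x y < r}

lemma measurableSet_near {d : ℕ} (x : E d) (r : ℝ) : MeasurableSet (near x r) := by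
  have h : near x r = {F : ClosedSet d | x ∈ F.carrier}ᶜ ∩ hit d (Metric.ball x r) := by
    ext F
    constructor
    · rintro ⟨h1, y, hy, h2⟩
      refine ⟨h1, y, hy, ?_⟩
      rw [Metric.mem_ball, dist_comm]
      exact h2
    · rintro ⟨h1, y, hy, h2⟩
      refine ⟨h1, y, hy, ?_⟩
      rw [Metric.mem_ball, dist_comm] at h2
      exact h2
  rw [h]
  exact (measSet_mem x).compl.inter (isOpen_hit Metric.isOpen_ball).measurableSet

lemma near_stationary {d : ℕ} {μ : Measure (ClosedSet d)} (hs : Stationary μ) (x : E d) (r : ℝ) :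
    μ (near x r) = μ (near (0 : E d) r) := by
  rw [← hs x _ (measurableSet_near x r)]
  congr 1
  ext F
  constructor
  · rintro ⟨h1, y, hy, h2⟩
    refine ⟨fun h => h1 ?_, y - x, hy, ?_⟩
    · change x - x ∈ F.carrier
      rw [sub_self]
      exact h
    · rw [dist_eq_norm] at h2 ⊢
      have : (0 : E d) - (y - x) = x - y := by abel
      rw [this]
      exact h2
  · rintro ⟨h1, y, hy, h2⟩
    refine ⟨fun h => h1 ?_, y + x, ?_, ?_⟩
    · have h' : x - x ∈ F.carrier := h
      rw [sub_self] at h'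
      exact h'
    · change y + x - x ∈ F.carrier
      rw [add_sub_cancel_right]
      exact hy
    · rw [dist_eq_norm] at h2 ⊢
      have : x - (y + x) = 0 - y := by abel
      rw [this]
      exact h2

lemma near_small {d : ℕ} (μ : Measure (ClosedSet d)) [IsProbabilityMeasure μ] {ε : ℝ}
    (hε : 0 < ε) : ∃ r : ℝ, 0 < r ∧ μ.real (near (0 : E d) r) ≤ ε := by
  have h1 : Tendsto (fun m : ℕ => μ (near (0 : E d) (1 / ((m : ℝ) + 1)))) atTop
      (𝓝 (μ (⋂ m : ℕ, near (0 : E d) (1 / ((m : ℝ) + 1))))) := by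
    apply tendsto_measure_iInter_atTop
    · intro m
      exact (measurableSet_near _ _).nullMeasurableSet
    · intro m n hmn F hF
      obtain ⟨h1, y, hy, h2⟩ := hF
      refine ⟨h1, y, hy, h2.trans_le ?_⟩
      exact one_div_le_one_div_of_le (by positivity) (by
        have : (m : ℝ) ≤ n := by exact_mod_cast hmn
        linarith)
    · exact ⟨0, measure_ne_top _ _⟩
  have h2 : (⋂ m : ℕ, near (0 : E d) (1 / ((m : ℝ) + 1))) = ∅ := by
    rw [Set.eq_empty_iff_forall_notMem]
    intro F hF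
    rw [Set.mem_iInter] at hF
    have h0 : (0 : E d) ∉ F.carrier := (hF 0).1
    obtain ⟨ε, hε, hb⟩ := Metric.isOpen_iff.mp F.isClosed.isOpen_compl 0 h0
    obtain ⟨n, hn⟩ := exists_nat_one_div_lt hε
    obtain ⟨_, y, hy, h3⟩ := hF n
    have : y ∈ F.carrierᶜ := by
      apply hb
      rw [Metric.mem_ball, dist_comm]
      exact h3.trans hn
    exact this hy
  rw [h2, measure_empty] at h1
  have h3 := (ENNReal.tendsto_toReal ENNReal.zero_ne_top).comp h1
  rw [ENNReal.toReal_zero] at h3
  obtain ⟨m, hm⟩ := (h3.eventually (gt_mem_nhds hε)).exists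
  exact ⟨1 / ((m : ℝ) + 1), by positivity, le_of_lt hm⟩

end NEC

open NEC

open Classical in
theorem s_NEC : S_NEC := by
  intro d S ⟨μ, hμ, hs, hS⟩
  have hr : ∀ k : ℕ, ∃ r : ℝ, 0 < r ∧ μ.real (near (0 : E d) r) ≤ (1 / 2) ^ k := fun k =>
    near_small μ (by positivity)
  choose r hr0 hr1 using hr
  refine ⟨r, hr0, ?_⟩
  intro F0 c n l hl
  set A : E d → E d → Set (ClosedSet d) := fun x y => {F | x ∈ F.carrier ∧ y ∈ F.carrier} with hA
  set Bs : ℕ → E d → Set (ClosedSet d) := fun k x =>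
    {F | x ∉ F.carrier ∧ ∃ y ∈ F0, y ∈ F.carrier ∧ dist x y < r k} with hBs
  have hAm : ∀ x y, MeasurableSet (A x y) := fun x y =>
    (measSet_mem x).inter (measSet_mem y)
  have hBm : ∀ k x, MeasurableSet (Bs k x) := by
    intro k x
    have : Bs k x = {F : ClosedSet d | x ∈ F.carrier}ᶜ ∩
        ⋃ y ∈ F0.filter (fun y => dist x y < r k), {F : ClosedSet d | y ∈ F.carrier} := by
      ext F
      simp only [hBs, Set.mem_inter_iff, Set.mem_compl_iff, Set.mem_iUnion, Finset.mem_filter,
        Set.mem_ofPred_eq]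
      constructor
      · rintro ⟨h1, y, h2, h3, h4⟩
        exact ⟨h1, y, ⟨h2, h4⟩, h3⟩
      · rintro ⟨h1, y, ⟨h2, h4⟩, h3⟩
        exact ⟨h1, y, h2, h3, h4⟩
    rw [this]
    exact (measSet_mem x).compl.inter
      (Finset.measurableSet_biUnion _ fun y _ => measSet_mem y)
  have hBle : ∀ k x, μ.real (Bs k x) ≤ (1 / 2) ^ k := by
    intro k x
    have h1 : μ.real (Bs k x) ≤ μ.real (near x (r k)) := by
      apply measureReal_mono ?_ (measure_ne_top _ _)
      rintro F ⟨h1, y, _, h3, h4⟩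
      exact ⟨h1, y, h3, h4⟩
    have h2 : μ.real (near x (r k)) = μ.real (near (0 : E d) (r k)) := by
      unfold Measure.real
      rw [near_stationary hs]
    exact h1.trans (h2.trans_le (hr1 k))
  let Φ : ClosedSet d → ℝ := fun F =>
    ∑ x ∈ F0, ∑ y ∈ F0, c x y * (A x y).indicator (fun _ => (1 : ℝ)) F +
      ∑ k ∈ Finset.range n, ∑ x ∈ F0, l k x * (Bs k x).indicator (fun _ => (1 : ℝ)) F
  have i1 : ∀ x y, Integrable (fun F => c x y * (A x y).indicator (fun _ => (1 : ℝ)) F) μ :=
    fun x y => ((integrable_const (1 : ℝ)).indicator (hAm x y)).const_mul _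
  have i2 : ∀ k x, Integrable (fun F => l k x * (Bs k x).indicator (fun _ => (1 : ℝ)) F) μ :=
    fun k x => ((integrable_const (1 : ℝ)).indicator (hBm k x)).const_mul _
  have i3 : Integrable (fun F => ∑ x ∈ F0, ∑ y ∈ F0,
      c x y * (A x y).indicator (fun _ => (1 : ℝ)) F) μ :=
    integrable_finsetSum _ fun x _ => integrable_finsetSum _ fun y _ => i1 x y
  have i4 : Integrable (fun F => ∑ k ∈ Finset.range n, ∑ x ∈ F0,
      l k x * (Bs k x).indicator (fun _ => (1 : ℝ)) F) μ :=
    integrable_finsetSum _ fun k _ => integrable_finsetSum _ fun x _ => i2 k x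
  have hint : ∫ F, Φ F ∂μ = ∑ x ∈ F0, ∑ y ∈ F0, c x y * S (x - y) +
      ∑ k ∈ Finset.range n, ∑ x ∈ F0, l k x * μ.real (Bs k x) := by
    change ∫ F, (_ + _) ∂μ = _
    rw [integral_add i3 i4, integral_finsetSum _ (fun x _ => integrable_finsetSum _
      fun y _ => i1 x y), integral_finsetSum _ (fun k _ => integrable_finsetSum _
      fun x _ => i2 k x)]
    congr 1
    · apply Finset.sum_congr rfl
      intro x _
      rw [integral_finsetSum _ (fun y _ => i1 x y)]
      apply Finset.sum_congr rfl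
      intro y _
      rw [integral_const_mul, integral_indicator_const _ (hAm x y), ← hS x y]
      simp [hA]
    · apply Finset.sum_congr rfl
      intro k _
      rw [integral_finsetSum _ (fun x _ => i2 k x)]
      apply Finset.sum_congr rfl
      intro x _
      rw [integral_const_mul, integral_indicator_const _ (hBm k x)]
      simp
  obtain ⟨F, hF⟩ := exists_le_integral (μ := μ) (f := Φ) (i3.add i4)
  rw [hint] at hF
  refine ⟨F0.filter (fun x => x ∈ F.carrier), Finset.filter_subset _ _, ?_⟩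
  have e1 : ∑ x ∈ F0.filter (fun x => x ∈ F.carrier), ∑ y ∈ F0.filter (fun x => x ∈ F.carrier),
      c x y = ∑ x ∈ F0, ∑ y ∈ F0, c x y * (A x y).indicator (fun _ => (1 : ℝ)) F := by
    rw [Finset.sum_filter]
    apply Finset.sum_congr rfl
    intro x _
    by_cases hx : x ∈ F.carrier
    · rw [if_pos hx, Finset.sum_filter]
      apply Finset.sum_congr rfl
      intro y _
      by_cases hy : y ∈ F.carrier
      · have : F ∈ A x y := ⟨hx, hy⟩
        simp [hy, this]
      · have : F ∉ A x y := fun h => hy h.2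
        simp [hy, this]
    · rw [if_neg hx]
      symm
      apply Finset.sum_eq_zero
      intro y _
      have : F ∉ A x y := fun h => hx h.1
      simp [this]
  have e2 : ∀ k, ∑ x ∈ (F0 \ F0.filter (fun x => x ∈ F.carrier)).filter
      (fun x => ∃ y ∈ F0.filter (fun x => x ∈ F.carrier), dist x y < r k), l k x =
      ∑ x ∈ F0, l k x * (Bs k x).indicator (fun _ => (1 : ℝ)) F := by
    intro k
    have : (F0 \ F0.filter (fun x => x ∈ F.carrier)).filter
      (fun x => ∃ y ∈ F0.filter (fun x => x ∈ F.carrier), dist x y < r k) =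
      F0.filter (fun x => F ∈ Bs k x) := by
      ext x
      simp only [Finset.mem_filter, Finset.mem_sdiff, hBs, Set.mem_ofPred_eq]
      constructor
      · rintro ⟨⟨h1, h2⟩, y, ⟨h3, h4⟩, h5⟩
        exact ⟨h1, fun h => h2 ⟨h1, h⟩, y, h3, h4, h5⟩
      · rintro ⟨h1, h2, y, h3, h4, h5⟩
        exact ⟨⟨h1, fun h => h2 h.2⟩, y, ⟨h3, h4⟩, h5⟩
    rw [this, Finset.sum_filter]
    apply Finset.sum_congr rfl
    intro x _
    by_cases hx : F ∈ Bs k x
    · simp [hx]
    · simp [hx]
  rw [e1, Finset.sum_congr rfl (fun k _ => e2 k)]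
  refine hF.trans ?_
  gcongr with k _ x _
  · exact hl k x
  · exact hBle k x

end Pool.Agent.R923.RC
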