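import Pool.Agent.R923.RC.Stm

/-!
# RC-OPEN: the covariance of a stationary random open set (helper39)
-/

open MeasureTheory Set
open scoped Pointwise

namespace Pool.Agent.R923.RC

namespace OpenAux

lemma per_isOpen {V : Set ℝ} (hV : IsOpen V) : IsOpen (per V) := by
  have : per V = ⋃ k : ℤ, (fun x : ℝ => x - 16 * k) ⁻¹' (Ioo (0 : ℝ) 1 ∪ V) := by
    ext x; simp only [per, mem_ofPred_eq, mem_iUnion, mem_preimage]
  rw [this]
  refine isOpen_iUnion fun k => ?_
  exact (isOpen_Ioo.union hV).preimage (by fun_prop)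

lemma per_add {V : Set ℝ} (x : ℝ) : x + 16 ∈ per V ↔ x ∈ per V := by
  constructor
  · rintro ⟨k, hk⟩
    refine ⟨k - 1, ?_⟩
    have : x - 16 * ((k - 1 : ℤ) : ℝ) = x + 16 - 16 * k := by push_cast; ring
    rw [this]; exact hk
  · rintro ⟨k, hk⟩
    refine ⟨k + 1, ?_⟩
    have : x + 16 - 16 * ((k + 1 : ℤ) : ℝ) = x - 16 * k := by push_cast; ring
    rw [this]; exact hk

/-- Periodic sets: measure of a period. -/
lemma measure_period {D : Set ℝ} (hD : MeasurableSet D) (hp : ∀ x, x + 16 ∈ D ↔ x ∈ D) (c : ℝ) :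
    volume (D ∩ Ico c (c + 16)) = volume (D ∩ Ico 0 16) := by
  have key : ∀ t : ℝ, volume.real (D ∩ Ico t (t + 16)) =
      ∫ x in t..t + 16, D.indicator (fun _ => (1 : ℝ)) x := by
    intro t
    rw [intervalIntegral.integral_of_le (by linarith), ← integral_Ico_eq_integral_Ioc,
      integral_indicator hD, Measure.restrict_restrict hD]
    simp
  have hper : Function.Periodic (D.indicator (fun _ => (1 : ℝ))) 16 := by
    intro x
    by_cases h : x ∈ D
    · rw [indicator_of_mem h, indicator_of_mem ((hp x).2 h)]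
    · rw [indicator_of_notMem h, indicator_of_notMem (fun h' => h ((hp x).1 h'))]
  have h1 : volume.real (D ∩ Ico c (c + 16)) = volume.real (D ∩ Ico 0 16) := by
    have h0 := key 0
    rw [zero_add] at h0
    rw [key c, h0]
    have := hper.intervalIntegral_add_eq c 0
    rwa [zero_add] at this
  have f1 : volume (D ∩ Ico c (c + 16)) ≠ ⊤ :=
    ((measure_mono inter_subset_right).trans_lt measure_Ico_lt_top).ne
  have f2 : volume (D ∩ Ico (0 : ℝ) 16) ≠ ⊤ :=
    ((measure_mono inter_subset_right).trans_lt measure_Ico_lt_top).ne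
  rw [Measure.real, Measure.real] at h1
  exact (ENNReal.toReal_eq_toReal_iff' f1 f2).1 h1

lemma measure_shift {D : Set ℝ} (hD : MeasurableSet D) (hp : ∀ x, x + 16 ∈ D ↔ x ∈ D) (s : ℝ) :
    volume ({u | u + s ∈ D} ∩ Ico 0 16) = volume (D ∩ Ico 0 16) := by
  rw [← measure_period hD hp s]
  have : ({u | u + s ∈ D} ∩ Ico (0 : ℝ) 16) = (fun u => u + s) ⁻¹' (D ∩ Ico s (s + 16)) := by
    ext u
    simp only [mem_inter_iff, mem_ofPred_eq, mem_Ico, mem_preimage]
    constructor
    · rintro ⟨h1, h2, h3⟩; exact ⟨h1, by linarith, by linarith⟩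
    · rintro ⟨h1, h2, h3⟩; exact ⟨h1, by linarith, by linarith⟩
  rw [this, measure_preimage_add_right]

lemma measure_refl {D : Set ℝ} (hD : MeasurableSet D) (hp : ∀ x, x + 16 ∈ D ↔ x ∈ D) (s : ℝ) :
    volume ({u | s - u ∈ D} ∩ Ico 0 16) = volume (D ∩ Ico 0 16) := by
  -- u ∈ [0,16) ↔ s - u ∈ (s-16, s]
  have hp' : ∀ x, x + 16 ∈ {x : ℝ | -x ∈ D} ↔ x ∈ {x : ℝ | -x ∈ D} := by
    intro x
    simp only [mem_ofPred_eq]
    have := hp (-(x + 16))
    rw [show -(x + 16) + 16 = -x by ring] at this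
    exact this.symm
  have hD' : MeasurableSet {x : ℝ | -x ∈ D} := measurable_neg hD
  have h1 := measure_shift hD' hp' (-s)
  have e1 : {u : ℝ | s - u ∈ D} = {u | u + -s ∈ {x : ℝ | -x ∈ D}} := by
    ext u; simp only [mem_ofPred_eq]; rw [show -(u + -s) = s - u by ring]
  rw [e1, h1]
  -- now reflect
  have h2 := measure_period hD hp (-16)
  rw [show (-16 : ℝ) + 16 = 0 by norm_num] at h2
  rw [← h2]
  have h3 : volume ({x : ℝ | -x ∈ D} ∩ Ico 0 16) = volume (D ∩ Ioc (-16) 0) := by
    have : ({x : ℝ | -x ∈ D} ∩ Ico (0 : ℝ) 16) = (fun x => -x) ⁻¹' (D ∩ Ioc (-16) 0) := by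
      ext x
      simp only [mem_inter_iff, mem_ofPred_eq, mem_Ico, mem_preimage, mem_Ioc]
      constructor
      · rintro ⟨h1, h2, h3⟩; exact ⟨h1, by linarith, by linarith⟩
      · rintro ⟨h1, h2, h3⟩; exact ⟨h1, by linarith, by linarith⟩
    rw [this]
    exact Measure.measure_preimage_neg volume _
  rw [h3]
  refine measure_congr ?_
  exact Filter.EventuallyEq.inter (Filter.EventuallyEq.refl _ D) (Ico_ae_eq_Ioc (μ := volume)).symm

end OpenAux

open OpenAux in
theorem s_OPEN (hM : S_MEAS) : S_OPEN := by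
  intro d i V hV hV45
  set W := per V with hW
  have hWo : IsOpen W := per_isOpen hV
  have hWp : ∀ x, x + 16 ∈ W ↔ x ∈ W := fun x => per_add x
  let f : ℝ → ClosedSet d := fun u => ⟨{z | z i - u ∉ W}, by
    have : IsOpen {z : E d | z i - u ∈ W} := hWo.preimage (by fun_prop)
    exact this.isClosed_compl⟩
  have hf : Measurable f := by
    apply hM
    intro K hK
    have : {u : ℝ | ((f u).carrier ∩ K).Nonempty} =
        (((fun z : E d => (z i : ℝ)) '' K : Set ℝ) + (-(Wᶜ) : Set ℝ) : Set ℝ) := by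
      ext u
      simp only [mem_ofPred_eq, Set.mem_add]
      constructor
      · rintro ⟨z, hz1, hz2⟩
        refine ⟨z i, ⟨z, hz2, rfl⟩, u - z i, ?_, by ring⟩
        simp only [mem_neg, neg_sub, mem_compl_iff]
        exact hz1
      · rintro ⟨t, ⟨z, hz, rfl⟩, s, hs, rfl⟩
        refine ⟨z, ?_, hz⟩
        show z i - (z i + s) ∉ W
        rw [show z i - (z i + s) = -s by ring]
        exact hs
    rw [this]
    have hK' : IsCompact ((fun z : E d => (z i : ℝ)) '' K) := hK.image (by fun_prop)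
    exact (IsClosed.add_left_of_isCompact (hWo.isClosed_compl.neg) hK').measurableSet
  have htr : ∀ a : E d, Measurable (translate a) := by
    intro a
    apply hM
    intro K hK
    have hK' : IsCompact ((fun z : E d => z - a) '' K) := hK.image (by fun_prop)
    have : {F : ClosedSet d | ((translate a F).carrier ∩ K).Nonempty}
        = hit d ((fun z : E d => z - a) '' K) := by
      ext F
      simp only [mem_ofPred_eq, hit]
      constructor
      · rintro ⟨z, hz1, hz2⟩
        exact ⟨z - a, hz1, z, hz2, rfl⟩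
      · rintro ⟨_, hz1, z, hz2, rfl⟩
        exact ⟨z, hz1, hz2⟩
    rw [this]
    have ho : IsOpen (hit d ((fun z : E d => z - a) '' K))ᶜ :=
      TopologicalSpace.isOpen_generateFrom_of_mem (Or.inr ⟨_, hK', rfl⟩)
    exact (MeasurableSet.compl_iff.1 ho.measurableSet)
  have htf : ∀ (a : E d) (u : ℝ), translate a (f u) = f (u + a i) := by
    intro a u
    ext x
    show (x - a) i - u ∉ W ↔ x i - (u + a i) ∉ W
    rw [PiLp.sub_apply, show x i - a i - u = x i - (u + a i) by ring]
  have hfp : ∀ u, f (u + 16) = f u := by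
    intro u
    ext x
    show x i - (u + 16) ∉ W ↔ x i - u ∉ W
    have := hWp (x i - (u + 16))
    rw [show x i - (u + 16) + 16 = x i - u by ring] at this
    rw [this]
  let P : Measure ℝ := (ENNReal.ofReal (1 / 16)) • volume.restrict (Ico (0 : ℝ) 16)
  have hP : ∀ s : Set ℝ, MeasurableSet s →
      P s = ENNReal.ofReal (1 / 16) * volume (s ∩ Ico 0 16) := by
    intro s hs
    simp only [P, Measure.smul_apply, Measure.restrict_apply hs, smul_eq_mul]
  have hPp : IsProbabilityMeasure P := by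
    constructor
    rw [hP _ MeasurableSet.univ, univ_inter, Real.volume_Ico, ← ENNReal.ofReal_mul (by norm_num)]
    norm_num
  refine ⟨P.map f, Measure.isProbabilityMeasure_map hf.aemeasurable, ?_, ?_⟩
  · intro a B hB
    rw [Measure.map_apply hf (htr a hB), Measure.map_apply hf hB]
    have hC : MeasurableSet (f ⁻¹' B) := hf hB
    have hCp : ∀ x, x + 16 ∈ f ⁻¹' B ↔ x ∈ f ⁻¹' B := by
      intro x; simp only [mem_preimage, hfp]
    have e : f ⁻¹' (translate a ⁻¹' B) = {u | u + a i ∈ f ⁻¹' B} := by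
      ext u; simp only [mem_preimage, mem_ofPred_eq, htf]
    rw [hP _ (hf (htr a hB)), hP _ hC, e, measure_shift hC hCp]
  · intro x y
    have hm : ∀ x : E d, MeasurableSet {F : ClosedSet d | x ∉ F.carrier} := by
      intro x
      have : {F : ClosedSet d | x ∉ F.carrier} = (hit d {x})ᶜ := by
        ext F
        simp [hit]
      rw [this]
      exact (TopologicalSpace.isOpen_generateFrom_of_mem
        (Or.inr ⟨_, isCompact_singleton, rfl⟩) : IsOpen (hit d {x})ᶜ).measurableSet
    have hm2 : MeasurableSet {F : ClosedSet d | x ∉ F.carrier ∧ y ∉ F.carrier} :=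
      (hm x).inter (hm y)
    let D : Set ℝ := {t | t ∈ W ∧ t + (x i - y i) ∈ W}
    have hD : MeasurableSet D :=
      (hWo.inter (hWo.preimage (f := fun t : ℝ => t + (x i - y i)) (by fun_prop))).measurableSet
    have hDp : ∀ t, t + 16 ∈ D ↔ t ∈ D := by
      intro t
      show (t + 16 ∈ W ∧ t + 16 + (x i - y i) ∈ W) ↔ (t ∈ W ∧ t + (x i - y i) ∈ W)
      rw [hWp t, show t + 16 + (x i - y i) = t + (x i - y i) + 16 by ring, hWp]
    have e : f ⁻¹' {F : ClosedSet d | x ∉ F.carrier ∧ y ∉ F.carrier} = {u | y i - u ∈ D} := by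
      ext u
      show (¬ (x i - u ∉ W) ∧ ¬ (y i - u ∉ W)) ↔ (y i - u ∈ W ∧ y i - u + (x i - y i) ∈ W)
      rw [not_not, not_not, show y i - u + (x i - y i) = x i - u by ring, and_comm]
    have hPe : (P.map f) {F : ClosedSet d | x ∉ F.carrier ∧ y ∉ F.carrier}
        = ENNReal.ofReal (1 / 16) * volume (D ∩ Ico 0 16) := by
      rw [Measure.map_apply hf hm2, hP _ (hf hm2), e, measure_refl hD hDp]
    rw [Measure.real, hPe, ENNReal.toReal_mul, ENNReal.toReal_ofReal (by norm_num)]
    have : D ∩ Ico (0 : ℝ) 16 = {t : ℝ | t ∈ Ico (0 : ℝ) 16 ∧ t ∈ per V ∧ t + (x i - y i) ∈ per V} := by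
      ext t
      simp only [D, mem_inter_iff, mem_ofPred_eq, hW]
      tauto
    rw [this]
    show _ = lag (per V) ((x - y) i) / 16
    rw [PiLp.sub_apply, lag, Measure.real]
    ring

end Pool.Agent.R923.RC
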