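import Pool.Agent.R923.RC.Open
import Pool.Agent.R923.RC.Stm2

/-!
# RC-PER: uniformly shifted periodic closed sets (from helper39's `Open.lean`)
-/

open MeasureTheory Set
open scoped Pointwise

namespace Pool.Agent.R923.RC

open OpenAux in
/-- the law of a uniformly shifted periodic set -/
theorem per_law (hM : S_MEAS) (d : ℕ) (i : Fin d) (W : Set ℝ) (hWo : IsOpen W)
    (hWp : ∀ x, x + 16 ∈ W ↔ x ∈ W) :
    ∃ μ : Measure (ClosedSet d), IsProbabilityMeasure μ ∧ Stationary μ ∧
      (∀ x y : E d, μ.real {F | x ∉ F.carrier ∧ y ∉ F.carrier} = lag W ((x - y) i) / 16) ∧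
      (∀ x y : E d, μ.real {F | x ∈ F.carrier ∧ y ∈ F.carrier} = lag Wᶜ ((x - y) i) / 16) := by
  let f : ℝ → ClosedSet d := fun u => ⟨{z | z i - u ∉ W}, by
    have : IsOpen {z : E d | z i - u ∈ W} := hWo.preimage (by fun_prop)
    exact this.isClosed_compl⟩
  have hf : Measurable f := by
    apply hM
    intro K hK
    have : {u : ℝ | ((f u).carrier ∩ K).Nonempty} =
        (((fun z : E d => (z i : ℝ)) '' K : Set ℝ) + (-(Wᶜ) : Set ℝ) : Set ℝ) := by
      ext u
      simp only [mem_ofPred_eq, Set.mem_add]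
      constructor
      · rintro ⟨z, hz1, hz2⟩
        refine ⟨z i, ⟨z, hz2, rfl⟩, u - z i, ?_, by ring⟩
        simp only [mem_neg, neg_sub, mem_compl_iff]
        exact hz1
      · rintro ⟨t, ⟨z, hz, rfl⟩, s, hs, rfl⟩
        refine ⟨z, ?_, hz⟩
        show z i - (z i + s) ∉ W
        rw [show z i - (z i + s) = -s by ring]
        exact hs
    rw [this]
    have hK' : IsCompact ((fun z : E d => (z i : ℝ)) '' K) := hK.image (by fun_prop)
    exact (IsClosed.add_left_of_isCompact (hWo.isClosed_compl.neg) hK').measurableSet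
  have htr : ∀ a : E d, Measurable (translate a) := by
    intro a
    apply hM
    intro K hK
    have hK' : IsCompact ((fun z : E d => z - a) '' K) := hK.image (by fun_prop)
    have : {F : ClosedSet d | ((translate a F).carrier ∩ K).Nonempty}
        = hit d ((fun z : E d => z - a) '' K) := by
      ext F
      simp only [mem_ofPred_eq, hit]
      constructor
      · rintro ⟨z, hz1, hz2⟩
        exact ⟨z - a, hz1, z, hz2, rfl⟩
      · rintro ⟨_, hz1, z, hz2, rfl⟩
        exact ⟨z, hz1, hz2⟩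
    rw [this]
    have ho : IsOpen (hit d ((fun z : E d => z - a) '' K))ᶜ :=
      TopologicalSpace.isOpen_generateFrom_of_mem (Or.inr ⟨_, hK', rfl⟩)
    exact (MeasurableSet.compl_iff.1 ho.measurableSet)
  have htf : ∀ (a : E d) (u : ℝ), translate a (f u) = f (u + a i) := by
    intro a u
    ext x
    show (x - a) i - u ∉ W ↔ x i - (u + a i) ∉ W
    rw [PiLp.sub_apply, show x i - a i - u = x i - (u + a i) by ring]
  have hfp : ∀ u, f (u + 16) = f u := by
    intro u
    ext x
    show x i - (u + 16) ∉ W ↔ x i - u ∉ W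
    have := hWp (x i - (u + 16))
    rw [show x i - (u + 16) + 16 = x i - u by ring] at this
    rw [this]
  let P : Measure ℝ := (ENNReal.ofReal (1 / 16)) • volume.restrict (Ico (0 : ℝ) 16)
  have hP : ∀ s : Set ℝ, MeasurableSet s →
      P s = ENNReal.ofReal (1 / 16) * volume (s ∩ Ico 0 16) := by
    intro s hs
    simp only [P, Measure.smul_apply, Measure.restrict_apply hs, smul_eq_mul]
  have hPp : IsProbabilityMeasure P := by
    constructor
    rw [hP _ MeasurableSet.univ, univ_inter, Real.volume_Ico, ← ENNReal.ofReal_mul (by norm_num)]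
    norm_num
  refine ⟨P.map f, Measure.isProbabilityMeasure_map hf.aemeasurable, ?_, ?_, ?_⟩
  · intro a B hB
    rw [Measure.map_apply hf (htr a hB), Measure.map_apply hf hB]
    have hC : MeasurableSet (f ⁻¹' B) := hf hB
    have hCp : ∀ x, x + 16 ∈ f ⁻¹' B ↔ x ∈ f ⁻¹' B := by
      intro x; simp only [mem_preimage, hfp]
    have e : f ⁻¹' (translate a ⁻¹' B) = {u | u + a i ∈ f ⁻¹' B} := by
      ext u; simp only [mem_preimage, mem_ofPred_eq, htf]
    rw [hP _ (hf (htr a hB)), hP _ hC, e, measure_shift hC hCp]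
  · intro x y
    have hm : ∀ x : E d, MeasurableSet {F : ClosedSet d | x ∉ F.carrier} := by
      intro x
      have : {F : ClosedSet d | x ∉ F.carrier} = (hit d {x})ᶜ := by
        ext F
        simp [hit]
      rw [this]
      exact (TopologicalSpace.isOpen_generateFrom_of_mem
        (Or.inr ⟨_, isCompact_singleton, rfl⟩) : IsOpen (hit d {x})ᶜ).measurableSet
    have hm2 : MeasurableSet {F : ClosedSet d | x ∉ F.carrier ∧ y ∉ F.carrier} :=
      (hm x).inter (hm y)
    let D : Set ℝ := {t | t ∈ W ∧ t + (x i - y i) ∈ W}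
    have hD : MeasurableSet D :=
      (hWo.inter (hWo.preimage (f := fun t : ℝ => t + (x i - y i)) (by fun_prop))).measurableSet
    have hDp : ∀ t, t + 16 ∈ D ↔ t ∈ D := by
      intro t
      show (t + 16 ∈ W ∧ t + 16 + (x i - y i) ∈ W) ↔ (t ∈ W ∧ t + (x i - y i) ∈ W)
      rw [hWp t, show t + 16 + (x i - y i) = t + (x i - y i) + 16 by ring, hWp]
    have e : f ⁻¹' {F : ClosedSet d | x ∉ F.carrier ∧ y ∉ F.carrier} = {u | y i - u ∈ D} := by
      ext u
      show (¬ (x i - u ∉ W) ∧ ¬ (y i - u ∉ W)) ↔ (y i - u ∈ W ∧ y i - u + (x i - y i) ∈ W)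
      rw [not_not, not_not, show y i - u + (x i - y i) = x i - u by ring, and_comm]
    have hPe : (P.map f) {F : ClosedSet d | x ∉ F.carrier ∧ y ∉ F.carrier}
        = ENNReal.ofReal (1 / 16) * volume (D ∩ Ico 0 16) := by
      rw [Measure.map_apply hf hm2, hP _ (hf hm2), e, measure_refl hD hDp]
    rw [Measure.real, hPe, ENNReal.toReal_mul, ENNReal.toReal_ofReal (by norm_num)]
    have : D ∩ Ico (0 : ℝ) 16 = {t : ℝ | t ∈ Ico (0 : ℝ) 16 ∧ t ∈ W ∧ t + (x i - y i) ∈ W} := by
      ext t
      simp only [D, mem_inter_iff, mem_ofPred_eq]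
      tauto
    rw [this]
    show _ = lag W ((x - y) i) / 16
    rw [PiLp.sub_apply, lag, Measure.real]
    ring

  · intro x y
    have hm' : ∀ x : E d, MeasurableSet {F : ClosedSet d | x ∉ F.carrier} := by
      intro x
      have : {F : ClosedSet d | x ∉ F.carrier} = (hit d {x})ᶜ := by
        ext F
        simp [hit]
      rw [this]
      exact (TopologicalSpace.isOpen_generateFrom_of_mem
        (Or.inr ⟨_, isCompact_singleton, rfl⟩) : IsOpen (hit d {x})ᶜ).measurableSet
    have hm : ∀ x : E d, MeasurableSet {F : ClosedSet d | x ∈ F.carrier} := by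
      intro x
      have h := (hm' x).compl
      have e : {F : ClosedSet d | x ∉ F.carrier}ᶜ = {F : ClosedSet d | x ∈ F.carrier} := by
        ext F; simp
      rwa [e] at h
    have hm2 : MeasurableSet {F : ClosedSet d | x ∈ F.carrier ∧ y ∈ F.carrier} :=
      (hm x).inter (hm y)
    let D : Set ℝ := {t | t ∈ Wᶜ ∧ t + (x i - y i) ∈ Wᶜ}
    have hD : MeasurableSet D :=
      (hWo.isClosed_compl.inter (hWo.isClosed_compl.preimage
        (f := fun t : ℝ => t + (x i - y i)) (by fun_prop))).measurableSet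
    have hDp : ∀ t, t + 16 ∈ D ↔ t ∈ D := by
      intro t
      show (¬ (t + 16 ∈ W) ∧ ¬ (t + 16 + (x i - y i) ∈ W)) ↔ (¬ (t ∈ W) ∧ ¬ (t + (x i - y i) ∈ W))
      rw [hWp t, show t + 16 + (x i - y i) = t + (x i - y i) + 16 by ring, hWp]
    have e : f ⁻¹' {F : ClosedSet d | x ∈ F.carrier ∧ y ∈ F.carrier} = {u | y i - u ∈ D} := by
      ext u
      show (x i - u ∉ W ∧ y i - u ∉ W) ↔ (y i - u ∉ W ∧ y i - u + (x i - y i) ∉ W)
      rw [show y i - u + (x i - y i) = x i - u by ring, and_comm]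
    have hPe : (P.map f) {F : ClosedSet d | x ∈ F.carrier ∧ y ∈ F.carrier}
        = ENNReal.ofReal (1 / 16) * volume (D ∩ Ico 0 16) := by
      rw [Measure.map_apply hf hm2, hP _ (hf hm2), e, measure_refl hD hDp]
    rw [Measure.real, hPe, ENNReal.toReal_mul, ENNReal.toReal_ofReal (by norm_num)]
    have : D ∩ Ico (0 : ℝ) 16 = {t : ℝ | t ∈ Ico (0 : ℝ) 16 ∧ t ∈ Wᶜ ∧ t + (x i - y i) ∈ Wᶜ} := by
      ext t
      simp only [D, mem_inter_iff, mem_ofPred_eq]
      tauto
    rw [this]
    show _ = lag Wᶜ ((x - y) i) / 16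
    rw [PiLp.sub_apply, lag, Measure.real]
    ring


theorem s_PER (hM : S_MEAS) : S_PER := by
  intro d i B hB hBp
  obtain ⟨μ, h1, h2, h3, h4⟩ := per_law hM d i Bᶜ hB.isOpen_compl
    (fun x => not_congr (hBp x).symm)
  rw [compl_compl] at h4
  exact ⟨⟨μ, h1, h2, h4⟩, ⟨μ, h1, h2, h3⟩⟩

end Pool.Agent.R923.RC
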