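import Pool.Agent.R923.RC.Stm

open MeasureTheory Set

namespace Pool.Agent.R923.RC

namespace Stat

variable {d : ℕ}

theorem hit_meas {K : Set (E d)} (hK : IsCompact K) : MeasurableSet (hit d K) := by
  have h1 : IsOpen ((hit d K)ᶜ) :=
    TopologicalSpace.isOpen_generateFrom_of_mem (Or.inr ⟨K, hK, rfl⟩)
  have h2 : MeasurableSet ((hit d K)ᶜ) := h1.measurableSet
  exact h2.of_compl

theorem translate_hit (a : E d) (K : Set (E d)) :
    {F : ClosedSet d | ((translate a F).carrier ∩ K).Nonempty} = hit d ((fun x => x - a) '' K) := by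
  ext F
  constructor
  · intro h
    have h' : ((translate a F).carrier ∩ K).Nonempty := h
    obtain ⟨x, hx, hxK⟩ := h'
    have hx' : x - a ∈ F.carrier := hx
    exact ⟨x - a, hx', ⟨x, hxK, rfl⟩⟩
  · intro h
    have h' : (F.carrier ∩ ((fun x => x - a) '' K)).Nonempty := h
    obtain ⟨z, hz, ⟨x, hxK, hxz⟩⟩ := h'
    have hxz' : x - a = z := hxz
    refine ⟨x, ?_, hxK⟩
    change x - a ∈ F.carrier
    rw [hxz']
    exact hz

theorem sub_compact (a : E d) {K : Set (E d)} (hK : IsCompact K) :
    IsCompact ((fun x => x - a) '' K) :=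
  hK.image (continuous_id.sub continuous_const)

theorem translate_meas (h : S_MEAS) (a : E d) :
    Measurable (translate a : ClosedSet d → ClosedSet d) := by
  apply h d (ClosedSet d) inferInstance (translate a)
  intro K hK
  rw [translate_hit]
  exact hit_meas (sub_compact a hK)

theorem translate_pre (a : E d) (K : Set (E d)) :
    translate a ⁻¹' (hit d K) = hit d ((fun x => x - a) '' K) := by
  rw [← translate_hit]
  rfl

theorem hit_mono {K L : Set (E d)} (h : K ⊆ L) : hit d K ⊆ hit d L := by
  intro F hF
  have hF' : (F.carrier ∩ K).Nonempty := hF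
  obtain ⟨x, hx, hxK⟩ := hF'
  exact ⟨x, hx, h hxK⟩

theorem hit_iInter {K : Set (E d)} (hK : IsCompact K) :
    (⋂ n : ℕ, hit d (Metric.cthickening (1 / ((n : ℝ) + 1)) K)) = hit d K := by
  apply Subset.antisymm
  · intro F hF
    by_contra hcon
    have h1 : K ⊆ F.carrierᶜ := by
      intro x hx hxF
      exact hcon ⟨x, hxF, hx⟩
    obtain ⟨δ, hδ, hδK⟩ := hK.exists_cthickening_subset_open F.isClosed.isOpen_compl h1
    obtain ⟨n, hn⟩ := exists_nat_one_div_lt hδ
    have h2 := mem_iInter.mp hF n
    have h2' : (F.carrier ∩ Metric.cthickening (1 / ((n : ℝ) + 1)) K).Nonempty := h2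
    obtain ⟨x, hx, hxK⟩ := h2'
    exact hδK (Metric.cthickening_mono hn.le K hxK) hx
  · apply subset_iInter
    intro n
    exact hit_mono (Metric.self_subset_cthickening K)

theorem le_aux (A : Set (E d)) (μ : Measure (ClosedSet d)) [IsProbabilityMeasure μ]
    (hA : Dense A)
    (hinv : ∀ a ∈ A, ∀ B : Set (ClosedSet d), MeasurableSet B → μ (translate a ⁻¹' B) = μ B)
    (a : E d) {K : Set (E d)} (hK : IsCompact K) :
    μ (hit d ((fun x => x - a) '' K)) ≤ μ (hit d K) := by
  rw [← hit_iInter hK]
  rw [Antitone.measure_iInter]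
  · apply le_iInf
    intro n
    have hpos : (0 : ℝ) < 1 / ((n : ℝ) + 1) := by positivity
    obtain ⟨b, hbA, hb⟩ := hA.exists_dist_lt a hpos
    have h1 := hinv b hbA (hit d (Metric.cthickening (1 / ((n : ℝ) + 1)) K))
      (hit_meas hK.cthickening)
    rw [translate_pre] at h1
    rw [← h1]
    apply measure_mono
    apply hit_mono
    rintro z ⟨x, hxK, hxz⟩
    have hxz' : x - a = z := hxz
    refine ⟨x - a + b, ?_, ?_⟩
    · apply Metric.mem_cthickening_of_dist_le _ x _ _ hxK
      rw [dist_eq_norm]
      have h3 : x - a + b - x = b - a := by abel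
      rw [h3, ← dist_eq_norm, dist_comm]
      exact hb.le
    · change x - a + b - b = z
      rw [← hxz']
      abel
  · intro m n hmn
    apply hit_mono
    apply Metric.cthickening_mono
    apply one_div_le_one_div_of_le (by positivity)
    have : (m : ℝ) ≤ n := by exact_mod_cast hmn
    linarith
  · intro n
    exact (hit_meas hK.cthickening).nullMeasurableSet
  · exact ⟨0, measure_ne_top _ _⟩

end Stat

theorem s_STAT (h : S_MEAS) (hU : S_UNIQ) : S_STAT := by
  intro d A μ hμ hA hinv a B hB
  have hm := Stat.translate_meas h a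
  have key : μ.map (translate a) = μ := by
    apply hU d
    · exact Measure.isProbabilityMeasure_map hm.aemeasurable
    · exact hμ
    · intro K hK
      rw [Measure.map_apply hm (Stat.hit_meas hK), Stat.translate_pre]
      apply le_antisymm
      · exact Stat.le_aux A μ hA hinv a hK
      · have h1 := Stat.le_aux A μ hA hinv (-a) (Stat.sub_compact a hK)
        have h2 : (fun x => x - -a) '' ((fun x => x - a) '' K) = K := by
          rw [← image_comp]
          have h3 : ((fun x => x - -a) ∘ (fun x => x - a) : E d → E d) = id := by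
            funext x
            simp
          rw [h3, image_id]
        rw [h2] at h1
        exact h1
  rw [← Measure.map_apply hm hB, key]

end Pool.Agent.R923.RC
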