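import Pool.Agent.R923.RC.Defs

/-!
# Statements of the pieces of project RC. Proofs: see `NOTES.md` in this folder.
-/

open MeasureTheory Set

namespace Pool.Agent.R923.RC

/-- RC-MEAS: measurability of maps into the space of closed sets. -/
def S_MEAS : Prop := ∀ (d : ℕ) (Ω : Type) (_ : MeasurableSpace Ω) (f : Ω → ClosedSet d),
  (∀ K : Set (E d), IsCompact K → MeasurableSet {ω | ((f ω).carrier ∩ K).Nonempty}) → Measurable f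

/-- RC-UNIQ: the capacity functional determines the law. -/
def S_UNIQ : Prop := ∀ (d : ℕ) (μ ν : Measure (ClosedSet d)), IsProbabilityMeasure μ →
  IsProbabilityMeasure ν → (∀ K : Set (E d), IsCompact K → μ (hit d K) = ν (hit d K)) → μ = ν

/-- RC-NEC: necessity. -/
def S_NEC : Prop := ∀ (d : ℕ) (S : E d → ℝ), IsCovariance S → Cond S

/-- RC-ALT: theorem of the alternative (finite minimax). -/
def S_ALT : Prop := ∀ (ι κ : Type) (_ : Fintype ι) (_ : Nonempty ι) (_ : Fintype κ)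
  (g : κ → ι → ℝ) (v : κ → ℝ),
  (∀ l : κ → ℝ, (∀ j, 0 ≤ l j) → ∃ i, ∑ j, l j * g j i ≤ ∑ j, l j * v j) →
  ∃ w : ι → ℝ, (∀ i, 0 ≤ w i) ∧ ∑ i, w i = 1 ∧ ∀ j, ∑ i, w i * g j i ≤ v j

/-- RC-FIN: finite weights from the inequalities. -/
def S_FIN : Prop := ∀ (d : ℕ) (S : E d → ℝ) (r : ℕ → ℝ), CondR S r → FinOK S r

/-- RC-COMP: compactness. -/
def S_COMP : Prop := ∀ (d : ℕ) (S : E d → ℝ) (r : ℕ → ℝ) (Γ : Type) (_ : Countable Γ)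
  (e : Γ → E d), FinOK S r → ∃ P : Measure (Γ → Bool), FieldOK e S r P

/-- RC-INV: averaging over an abelian group. -/
def S_INV : Prop := ∀ (d : ℕ) (S : E d → ℝ) (r : ℕ → ℝ) (Γ : Type) (_ : AddCommGroup Γ)
  (_ : Countable Γ) (e : Γ →+ E d), (∃ P : Measure (Γ → Bool), FieldOK e S r P) →
  ∃ P : Measure (Γ → Bool), FieldOK e S r P ∧
    ∀ a : Γ, P.map (fun (ξ : Γ → Bool) (x : Γ) => ξ (x + a)) = P

/-- RC-CLOS: the closure of a field is a random closed set. -/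
def S_CLOS : Prop := ∀ (d : ℕ) (S : E d → ℝ) (r : ℕ → ℝ) (Γ : Type) (_ : AddCommGroup Γ)
  (_ : Countable Γ) (e : Γ →+ E d) (P : Measure (Γ → Bool)), DenseRange e → (∀ k, 0 < r k) →
  FieldOK e S r P → (∀ a : Γ, P.map (fun (ξ : Γ → Bool) (x : Γ) => ξ (x + a)) = P) →
  ∃ μ : Measure (ClosedSet d), IsProbabilityMeasure μ ∧
    (∀ (a : Γ) (B : Set (ClosedSet d)), MeasurableSet B → μ (translate (e a) ⁻¹' B) = μ B) ∧
    ∀ x y : Γ, μ.real {F | e x ∈ F.carrier ∧ e y ∈ F.carrier} = S (e x - e y)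

/-- RC-STAT: invariance under a dense set of translations is invariance. -/
def S_STAT : Prop := ∀ (d : ℕ) (A : Set (E d)) (μ : Measure (ClosedSet d)),
  IsProbabilityMeasure μ → Dense A →
  (∀ a ∈ A, ∀ B : Set (ClosedSet d), MeasurableSet B → μ (translate a ⁻¹' B) = μ B) →
  Stationary μ

/-- RC-CONT1: the inequalities imply continuity. -/
def S_CONT1 : Prop := ∀ (d : ℕ) (S : E d → ℝ), Cond S → Continuous S

/-- RC-CONT2: two point probabilities of stationary random closed sets are continuous. -/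
def S_CONT2 : Prop := ∀ (d : ℕ) (μ : Measure (ClosedSet d)), IsProbabilityMeasure μ →
  Stationary μ → Continuous (fun h : E d => μ.real {F | h ∈ F.carrier ∧ (0 : E d) ∈ F.carrier})

/-! ### The example -/

/-- RC-STR: structure of closed periodic sets with forbidden differences. -/
def S_STR : Prop := ∀ (B : Set ℝ) (a : ℝ), IsClosed B → (∀ x, x ∈ B ↔ x + 16 ∈ B) →
  (∀ x ∈ B, ∀ y ∈ B, ¬ (1 < y - x ∧ y - x < 3) ∧ ¬ (5 < y - x ∧ y - x < 11)) →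
  0 < a → a < 1 → volume.real (B ∩ Ico 0 16) = 1 + a →
  a ≤ ∫ h in Icc (3 : ℝ) 5, lag B h ∧
  ((∫ h in Icc (3 : ℝ) 5, lag B h) = a →
    ∃ W : Set ℝ, IsClosed W ∧ W ⊆ Icc 4 5 ∧ volume.real W = a ∧
      ∀ h ∈ Icc (3 : ℝ) 4, lag B h = volume.real (W ∩ Icc 4 (h + 1)))

/-- RC-ESS: essential support. -/
def S_ESS : Prop := ∀ X : Set ℝ, IsClosed X →
  (∀ᵐ x : ℝ, (x ∈ X ↔ x + 16 ∈ X)) →
  (∀ᵐ p : ℝ × ℝ, ¬ (p.1 ∈ X ∧ p.2 ∈ X ∧ p.2 - p.1 ∈ Ioo (1 : ℝ) 3 ∪ Ioo (5 : ℝ) 11)) →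
  ∃ B ⊆ X, IsClosed B ∧ volume (X \ B) = 0 ∧ (∀ x, x ∈ B ↔ x + 16 ∈ B) ∧
    ∀ x ∈ B, ∀ y ∈ B, ¬ (1 < y - x ∧ y - x < 3) ∧ ¬ (5 < y - x ∧ y - x < 11)

/-- RC-MOD: computations for the model set. -/
def S_MOD : Prop := ∀ V : Set ℝ, IsOpen V → V ⊆ Ioo 4 5 →
  lag (per V) 0 = 1 + volume.real V ∧ lag (per V) 16 = 1 + volume.real V ∧
  (∀ h ∈ Ioo (1 : ℝ) 3 ∪ Ioo (5 : ℝ) 11, lag (per V) h = 0) ∧
  (∫ h in Ico (0 : ℝ) 16, lag (per V) h) = (1 + volume.real V) ^ 2 ∧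
  (∫ h in Icc (3 : ℝ) 5, lag (per V) h) = volume.real V ∧
  (∀ h ∈ Icc (3 : ℝ) 4, lag (per V) h = volume.real (V ∩ Icc 4 (h + 1))) ∧
  Measurable (lag (per V)) ∧ ∀ h, lag (per V) (h + 16) = lag (per V) h

/-- RC-AE: almost sure properties from the two point function. -/
def S_AE : Prop := ∀ (Ω : Type) (_ : MeasurableSpace Ω) (P : Measure Ω) (X : Ω → Set ℝ)
  (V : Set ℝ), IsProbabilityMeasure P → IsOpen V → V ⊆ Ioo 4 5 →
  MeasurableSet {p : Ω × ℝ | p.2 ∈ X p.1} →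
  (∀ s t : ℝ, P.real {ω | s ∈ X ω ∧ t ∈ X ω} = lag (per V) (s - t) / 16) →
  (∀ᵐ ω ∂P, ∀ᵐ x : ℝ, (x ∈ X ω ↔ x + 16 ∈ X ω)) ∧
  (∀ᵐ ω ∂P, ∀ᵐ p : ℝ × ℝ,
    ¬ (p.1 ∈ X ω ∧ p.2 ∈ X ω ∧ p.2 - p.1 ∈ Ioo (1 : ℝ) 3 ∪ Ioo (5 : ℝ) 11)) ∧
  (∀ᵐ ω ∂P, volume.real (X ω ∩ Ico 0 16) = 1 + volume.real V)

/-- RC-EX: expectations of the lag function. -/
def S_EX : Prop := ∀ (Ω : Type) (_ : MeasurableSpace Ω) (P : Measure Ω) (X : Ω → Set ℝ)
  (V : Set ℝ), IsProbabilityMeasure P → IsOpen V → V ⊆ Ioo 4 5 →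
  MeasurableSet {p : Ω × ℝ | p.2 ∈ X p.1} →
  (∀ s t : ℝ, P.real {ω | s ∈ X ω ∧ t ∈ X ω} = lag (per V) (s - t) / 16) →
  (∀ h : ℝ, Integrable (fun ω => lag (X ω) h) P ∧ ∫ ω, lag (X ω) h ∂P = lag (per V) h) ∧
  Integrable (fun ω => ∫ h in Icc (3 : ℝ) 5, lag (X ω) h) P ∧
  ∫ ω, (∫ h in Icc (3 : ℝ) 5, lag (X ω) h) ∂P = ∫ h in Icc (3 : ℝ) 5, lag (per V) h

/-- RC-CTR: the contradiction, on the line. -/
def S_CTR : Prop := ∀ (Ω : Type) (_ : MeasurableSpace Ω) (P : Measure Ω) (X : Ω → Set ℝ)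
  (V : Set ℝ), IsProbabilityMeasure P → IsOpen V → V ⊆ Ioo 4 5 → Icc 4 5 ⊆ closure V →
  volume.real V < 1 → (∀ ω, IsClosed (X ω)) → MeasurableSet {p : Ω × ℝ | p.2 ∈ X p.1} →
  ¬ ∀ s t : ℝ, P.real {ω | s ∈ X ω ∧ t ∈ X ω} = lag (per V) (s - t) / 16

/-- RC-JOINT: joint measurability of the section of a random closed set by a line. -/
def S_JOINT : Prop := ∀ (d : ℕ) (u : E d),
  MeasurableSet {p : ClosedSet d × ℝ | p.2 • u ∈ p.1.carrier}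

/-- RC-OPEN: the covariance of a stationary random open set. -/
def S_OPEN : Prop := ∀ (d : ℕ) (i : Fin d) (V : Set ℝ), IsOpen V → V ⊆ Ioo 4 5 →
  IsOpenCovariance (fun h : E d => lag (per V) (h i) / 16)

/-- RC-V: a dense open set of small measure. -/
def S_V : Prop := ∃ V : Set ℝ, IsOpen V ∧ V ⊆ Ioo 4 5 ∧ Icc 4 5 ⊆ closure V ∧
  volume.real V < 1

end Pool.Agent.R923.RC
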