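import Pool.Agent.R923.RC.Stm

/-!
# Project RC, piece STR: structure of closed periodic sets with forbidden differences
-/

open MeasureTheory Set

namespace Pool.Agent.R923.RC

namespace StrAux

theorem full {C : Set ℝ} {s : ℝ} (hC : IsClosed C) (hsub : C ⊆ Icc s (s + 1))
    (hv : volume.real C = 1) : C = Icc s (s + 1) := by
  refine hsub.antisymm ?_
  have hfin : volume (Icc s (s + 1)) ≠ ⊤ := by rw [Real.volume_Icc]; exact ENNReal.ofReal_ne_top
  have hCf : volume C ≠ ⊤ := ((measure_mono hsub).trans_lt hfin.lt_top).ne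
  have hvC : volume C = 1 := by
    rw [← ENNReal.ofReal_toReal hCf]
    have : (volume C).toReal = 1 := hv
    rw [this, ENNReal.ofReal_one]
  have h1 : volume (Icc s (s + 1) \ C) = 0 := by
    rw [measure_sdiff hsub hC.measurableSet.nullMeasurableSet hCf, hvC, Real.volume_Icc]
    norm_num
  have h3 : Ioo s (s + 1) ⊆ C := by
    intro x hx
    by_contra hxC
    have hop : IsOpen (Ioo s (s + 1) ∩ Cᶜ) := isOpen_Ioo.inter hC.isOpen_compl
    have hpos := hop.measure_pos volume ⟨x, hx, hxC⟩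
    have hle : volume (Ioo s (s + 1) ∩ Cᶜ) ≤ volume (Icc s (s + 1) \ C) :=
      measure_mono fun y hy => ⟨Ioo_subset_Icc_self hy.1, hy.2⟩
    rw [h1] at hle
    exact absurd hpos (not_lt.2 hle)
  calc Icc s (s + 1) = closure (Ioo s (s + 1)) := (closure_Ioo (by linarith)).symm
    _ ⊆ C := hC.closure_subset_iff.2 h3

theorem hull {C : Set ℝ} (hC : IsClosed C) (hne : C.Nonempty) {m : ℝ} (hb : ∀ x ∈ C, m ≤ x)
    (hd : ∀ x ∈ C, ∀ y ∈ C, y - x ≤ 1) : ∃ s ∈ C, C ⊆ Icc s (s + 1) := by
  have hbd : BddBelow C := ⟨m, fun x hx => hb x hx⟩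
  have hs := hC.csInf_mem hne hbd
  refine ⟨sInf C, hs, fun x hx => ⟨csInf_le hbd hx, ?_⟩⟩
  have := hd _ hs x hx
  linarith

theorem vle {C : Set ℝ} {s : ℝ} (hsub : C ⊆ Icc s (s + 1)) : volume.real C ≤ 1 := by
  have h : volume.real C ≤ volume.real (Icc s (s + 1)) :=
    measureReal_mono hsub (by rw [Real.volume_Icc]; exact ENNReal.ofReal_ne_top)
  rw [Real.volume_real_Icc] at h
  refine h.trans ?_
  rw [add_sub_cancel_left]
  norm_num

theorem per_vol {A : Set ℝ} (hA : MeasurableSet A) (hp : ∀ x, x ∈ A ↔ x + 16 ∈ A) (c : ℝ) :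
    volume.real (A ∩ Ico 0 16) = volume.real (A ∩ Ico c (c + 16)) := by
  have hper : Function.Periodic (A.indicator (fun _ => (1 : ℝ))) 16 := by
    intro x
    by_cases hx : x ∈ A
    · rw [indicator_of_mem hx, indicator_of_mem ((hp x).1 hx)]
    · rw [indicator_of_notMem hx, indicator_of_notMem (fun h => hx ((hp x).2 h))]
  have key : ∀ c : ℝ, volume.real (A ∩ Ico c (c + 16)) =
      ∫ x in c..(c + 16), A.indicator (fun _ => (1 : ℝ)) x := by
    intro c
    rw [intervalIntegral.integral_of_le (by linarith), integral_indicator hA,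
      Measure.restrict_restrict hA, setIntegral_const, smul_eq_mul, mul_one]
    have h : (A ∩ Ico c (c + 16) : Set ℝ) =ᵐ[volume] (A ∩ Ioc c (c + 16) : Set ℝ) :=
      Filter.EventuallyEq.rfl.inter Ico_ae_eq_Ioc
    exact measureReal_congr h
  have h0 := key 0
  rw [zero_add] at h0
  rw [h0, key c]
  have h1 := hper.intervalIntegral_add_eq 0 c
  rw [zero_add] at h1
  exact h1

/-- Fubini for two closed sets whose differences lie in `[3,5]` -/
theorem fub {L R : Set ℝ} (hL : IsClosed L) (hR : IsClosed R)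
    (hLf : volume L ≠ ⊤) (hd : ∀ x ∈ L, ∀ y ∈ R, 3 ≤ y - x ∧ y - x ≤ 5) :
    ∫ h in Icc (3 : ℝ) 5, volume.real {x : ℝ | x ∈ L ∧ x + h ∈ R} =
      volume.real L * volume.real R := by
  have hD' : MeasurableSet {p : ℝ × ℝ | p.2 ∈ L ∧ p.2 + p.1 ∈ R} :=
    ((hL.preimage continuous_snd).inter
      (hR.preimage (continuous_snd.add continuous_fst))).measurableSet
  have hm : Measurable fun h : ℝ => volume {x : ℝ | x ∈ L ∧ x + h ∈ R} :=
    measurable_measure_prodMk_left hD'
  have h1 : ∫ h in Icc (3 : ℝ) 5, volume.real {x : ℝ | x ∈ L ∧ x + h ∈ R} =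
      (∫⁻ h in Icc (3 : ℝ) 5, volume {x : ℝ | x ∈ L ∧ x + h ∈ R}).toReal := by
    refine integral_toReal hm.aemeasurable (Filter.Eventually.of_forall fun h => ?_)
    exact (measure_mono fun x hx => hx.1).trans_lt hLf.lt_top
  have hD : MeasurableSet {p : ℝ × ℝ | p.1 ∈ Icc (3 : ℝ) 5 ∧ p.2 ∈ L ∧ p.2 + p.1 ∈ R} :=
    ((isClosed_Icc.preimage continuous_fst).inter ((hL.preimage continuous_snd).inter
      (hR.preimage (continuous_snd.add continuous_fst)))).measurableSet
  have h2 : (∫⁻ h in Icc (3 : ℝ) 5, volume {x : ℝ | x ∈ L ∧ x + h ∈ R}) =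
      ((volume : Measure ℝ).prod volume)
        {p : ℝ × ℝ | p.1 ∈ Icc (3 : ℝ) 5 ∧ p.2 ∈ L ∧ p.2 + p.1 ∈ R} := by
    rw [Measure.prod_apply hD, ← lintegral_indicator measurableSet_Icc]
    refine lintegral_congr fun h => ?_
    by_cases hh : h ∈ Icc (3 : ℝ) 5
    · rw [indicator_of_mem hh]
      congr 1
      ext x
      exact ⟨fun hx => ⟨hh, hx⟩, fun hx => hx.2⟩
    · rw [indicator_of_notMem hh]
      symm
      rw [show (Prod.mk h ⁻¹' {p : ℝ × ℝ | p.1 ∈ Icc (3 : ℝ) 5 ∧ p.2 ∈ L ∧ p.2 + p.1 ∈ R}) = ∅ from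
        eq_empty_of_forall_notMem fun x hx => hh hx.1, measure_empty]
  have h3 : ((volume : Measure ℝ).prod volume)
        {p : ℝ × ℝ | p.1 ∈ Icc (3 : ℝ) 5 ∧ p.2 ∈ L ∧ p.2 + p.1 ∈ R} = volume L * volume R := by
    rw [Measure.prod_apply_symm hD]
    have : ∀ x : ℝ, volume ((fun h : ℝ => (h, x)) ⁻¹'
        {p : ℝ × ℝ | p.1 ∈ Icc (3 : ℝ) 5 ∧ p.2 ∈ L ∧ p.2 + p.1 ∈ R}) =
        L.indicator (fun _ => volume R) x := by
      intro x
      by_cases hx : x ∈ L
      · rw [indicator_of_mem hx, ← measure_preimage_add volume x R]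
        congr 1
        ext h
        constructor
        · intro hh
          exact hh.2.2
        · intro hh
          have h5 := hd x hx (x + h) hh
          exact ⟨⟨by linarith [h5.1], by linarith [h5.2]⟩, hx, hh⟩
      · rw [indicator_of_notMem hx]
        rw [show ((fun h : ℝ => (h, x)) ⁻¹'
          {p : ℝ × ℝ | p.1 ∈ Icc (3 : ℝ) 5 ∧ p.2 ∈ L ∧ p.2 + p.1 ∈ R}) = ∅ from
          eq_empty_of_forall_notMem fun h hh => hx hh.2.1, measure_empty]
    simp only [this]
    rw [lintegral_indicator hL.measurableSet, setLIntegral_const, mul_comm]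
  rw [h1, h2, h3, ENNReal.toReal_mul]
  rfl

end StrAux

open StrAux

theorem s_STR : S_STR := by
  intro B a hB hper hforb ha0 ha1 hvol
  have hper' : ∀ x, x ∈ B ↔ x - 16 ∈ B := by
    intro x
    have := hper (x - 16)
    rw [sub_add_cancel] at this
    exact this.symm
  -- all differences
  have hdiff : ∀ x ∈ B, ∀ y ∈ B, |y - x| ≤ 8 →
      |y - x| ≤ 1 ∨ (3 ≤ |y - x| ∧ |y - x| ≤ 5) := by
    intro x hx y hy h8
    by_contra hcon
    push Not at hcon
    obtain ⟨h1, h2⟩ := hcon
    have h3 : (1 < |y - x| ∧ |y - x| < 3) ∨ (5 < |y - x| ∧ |y - x| < 11) := by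
      by_cases h : 3 ≤ |y - x|
      · exact Or.inr ⟨h2 h, by linarith⟩
      · exact Or.inl ⟨h1, not_le.1 h⟩
    rcases abs_cases (y - x) with ⟨he, _⟩ | ⟨he, _⟩
    · rw [he] at h3
      rcases h3 with h3 | h3
      · exact (hforb x hx y hy).1 h3
      · exact (hforb x hx y hy).2 h3
    · rw [he] at h3
      have e : -(y - x) = x - y := by ring
      rw [e] at h3
      rcases h3 with h3 | h3
      · exact (hforb y hy x hx).1 h3
      · exact (hforb y hy x hx).2 h3
  have hnear : ∀ x ∈ B, ∀ y ∈ B, ¬ (5 < y - x ∧ y - x < 11) := fun x hx y hy =>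
    (hforb x hx y hy).2
  -- base point
  obtain ⟨x1, hx1⟩ : B.Nonempty := by
    by_contra hne
    rw [not_nonempty_iff_eq_empty] at hne
    rw [hne, empty_inter, measureReal_empty] at hvol
    linarith
  obtain ⟨x0, hx0, hleft⟩ : ∃ x0 ∈ B, ∀ y ∈ B, ¬ (-5 ≤ y - x0 ∧ y - x0 ≤ -3) := by
    by_cases h : ∃ y ∈ B, -5 ≤ y - x1 ∧ y - x1 ≤ -3
    · obtain ⟨y, hy, h1, h2⟩ := h
      refine ⟨y, hy, fun z hz hz2 => ?_⟩
      exact hnear z hz x1 hx1 ⟨by linarith [hz2.2], by linarith [hz2.1]⟩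
    · push Not at h
      exact ⟨x1, hx1, fun y hy hy2 => by linarith [h y hy hy2.1, hy2.2]⟩
  obtain ⟨L, hLdef⟩ : ∃ L : Set ℝ, L = B ∩ Icc (x0 - 1) (x0 + 1) := ⟨_, rfl⟩
  obtain ⟨R, hRdef⟩ : ∃ R : Set ℝ, R = B ∩ Icc (x0 + 3) (x0 + 5) := ⟨_, rfl⟩
  have hLB : ∀ x ∈ L, x ∈ B ∧ x0 - 1 ≤ x ∧ x ≤ x0 + 1 := fun x hx => by
    rw [hLdef] at hx; exact ⟨hx.1, hx.2.1, hx.2.2⟩
  have hRB : ∀ x ∈ R, x ∈ B ∧ x0 + 3 ≤ x ∧ x ≤ x0 + 5 := fun x hx => by
    rw [hRdef] at hx; exact ⟨hx.1, hx.2.1, hx.2.2⟩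
  have hLc : IsClosed L := by rw [hLdef]; exact hB.inter isClosed_Icc
  have hRc : IsClosed R := by rw [hRdef]; exact hB.inter isClosed_Icc
  -- the window
  have hwin : ∀ x ∈ B, x0 - 8 ≤ x → x < x0 + 8 → x ∈ L ∨ x ∈ R := by
    intro x hx h1 h2
    have h3 := hdiff x0 hx0 x hx (abs_le.2 ⟨by linarith, by linarith⟩)
    rcases h3 with h3 | ⟨h3, h4⟩
    · left
      rw [abs_le] at h3
      rw [hLdef]
      exact ⟨hx, by linarith [h3.1], by linarith [h3.2]⟩
    · rcases abs_cases (x - x0) with ⟨he, _⟩ | ⟨he, _⟩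
      · right
        rw [he] at h3 h4
        rw [hRdef]
        exact ⟨hx, by linarith, by linarith⟩
      · exfalso
        rw [he] at h3 h4
        exact hleft x hx ⟨by linarith, by linarith⟩
  have hLd : ∀ x ∈ L, ∀ y ∈ L, y - x ≤ 1 := by
    intro x hx y hy
    obtain ⟨a1, a2, a3⟩ := hLB x hx
    obtain ⟨b1, b2, b3⟩ := hLB y hy
    by_contra hcon
    push Not at hcon
    exact (hforb x a1 y b1).1 ⟨hcon, by linarith⟩
  have hRd : ∀ x ∈ R, ∀ y ∈ R, y - x ≤ 1 := by
    intro x hx y hy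
    obtain ⟨a1, a2, a3⟩ := hRB x hx
    obtain ⟨b1, b2, b3⟩ := hRB y hy
    by_contra hcon
    push Not at hcon
    exact (hforb x a1 y b1).1 ⟨hcon, by linarith⟩
  have hLR : ∀ x ∈ L, ∀ y ∈ R, 3 ≤ y - x ∧ y - x ≤ 5 := by
    intro x hx y hy
    obtain ⟨a1, a2, a3⟩ := hLB x hx
    obtain ⟨b1, b2, b3⟩ := hRB y hy
    constructor
    · by_contra hcon
      push Not at hcon
      exact (hforb x a1 y b1).1 ⟨by linarith, hcon⟩
    · by_contra hcon
      push Not at hcon
      exact (hforb x a1 y b1).2 ⟨hcon, by linarith⟩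
  have hwinset : B ∩ Ico (x0 - 8) (x0 - 8 + 16) = L ∪ R := by
    ext x
    constructor
    · intro hx
      exact hwin x hx.1 hx.2.1 (by linarith [hx.2.2])
    · rintro (hx | hx)
      · obtain ⟨a1, a2, a3⟩ := hLB x hx
        exact ⟨a1, by linarith, by linarith⟩
      · obtain ⟨a1, a2, a3⟩ := hRB x hx
        exact ⟨a1, by linarith, by linarith⟩
  have hdisj : Disjoint L R := by
    rw [Set.disjoint_left]
    intro x hx hx'
    have h1 := (hLB x hx).2.2
    have h2 := (hRB x hx').2.1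
    linarith
  have hLf : volume L ≠ ⊤ := by
    have : volume L ≤ volume (Icc (x0 - 1) (x0 + 1)) := measure_mono (by
      rw [hLdef]; exact inter_subset_right)
    rw [Real.volume_Icc] at this
    exact (this.trans_lt ENNReal.ofReal_lt_top).ne
  have hRf : volume R ≠ ⊤ := by
    have : volume R ≤ volume (Icc (x0 + 3) (x0 + 5)) := measure_mono (by
      rw [hRdef]; exact inter_subset_right)
    rw [Real.volume_Icc] at this
    exact (this.trans_lt ENNReal.ofReal_lt_top).ne
  have hsum : volume.real L + volume.real R = 1 + a := by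
    rw [← hvol, per_vol hB.measurableSet hper (x0 - 8), hwinset,
      measureReal_union hdisj hRc.measurableSet hLf hRf]
  -- both sets are nonempty
  have hLne : L.Nonempty := ⟨x0, by rw [hLdef]; exact ⟨hx0, by linarith, by linarith⟩⟩
  obtain ⟨s, hsL, hLs⟩ := hull hLc hLne (fun x hx => (hLB x hx).2.1) hLd
  have hL1 : volume.real L ≤ 1 := vle hLs
  have hRne : R.Nonempty := by
    by_contra hne
    rw [not_nonempty_iff_eq_empty] at hne
    rw [hne, measureReal_empty] at hsum
    linarith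
  obtain ⟨t, htR, hRt⟩ := hull hRc hRne (fun x hx => (hRB x hx).2.1) hRd
  have hR1 : volume.real R ≤ 1 := vle hRt
  -- the lag function
  have hlag : ∀ h ∈ Icc (3 : ℝ) 5, lag B h = volume.real {x : ℝ | x ∈ L ∧ x + h ∈ R} := by
    intro h hh
    have hA : MeasurableSet {x : ℝ | x ∈ B ∧ x + h ∈ B} :=
      (hB.inter (hB.preimage (continuous_id.add continuous_const))).measurableSet
    have hAp : ∀ x, x ∈ {x : ℝ | x ∈ B ∧ x + h ∈ B} ↔ x + 16 ∈ {x : ℝ | x ∈ B ∧ x + h ∈ B} := by
      intro x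
      have e1 := hper x
      have e2 := hper (x + h)
      have e3 : x + h + 16 = x + 16 + h := by ring
      rw [e3] at e2
      exact and_congr e1 e2
    have e0 : {x : ℝ | x ∈ Ico (0 : ℝ) 16 ∧ x ∈ B ∧ x + h ∈ B} =
        {x : ℝ | x ∈ B ∧ x + h ∈ B} ∩ Ico 0 16 := by
      ext x
      exact and_comm
    unfold lag
    rw [e0, per_vol hA hAp (x0 - 8)]
    congr 1
    ext x
    constructor
    · rintro ⟨⟨h1, h2⟩, h3, h4⟩
      rcases hwin x h1 h3 (by linarith) with h5 | h5
      · refine ⟨h5, ?_⟩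
        obtain ⟨_, a2, a3⟩ := hLB x h5
        rcases hwin (x + h) h2 (by linarith [hh.1]) (by linarith [hh.2]) with h6 | h6
        · exfalso
          have := (hLB _ h6).2.2
          linarith [hh.1]
        · exact h6
      · exfalso
        obtain ⟨_, a2, a3⟩ := hRB x h5
        exact hnear x0 hx0 (x + h) h2 ⟨by linarith [hh.1], by linarith [hh.2]⟩
    · rintro ⟨h1, h2⟩
      obtain ⟨a1, a2, a3⟩ := hLB x h1
      obtain ⟨b1, b2, b3⟩ := hRB _ h2
      exact ⟨⟨a1, b1⟩, by linarith, by linarith⟩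
  have hint : ∫ h in Icc (3 : ℝ) 5, lag B h = volume.real L * volume.real R := by
    rw [← fub hLc hRc hLf hLR]
    exact setIntegral_congr_fun measurableSet_Icc hlag
  rw [hint]
  refine ⟨by nlinarith [mul_nonneg (sub_nonneg.2 hL1) (sub_nonneg.2 hR1)], fun heq => ?_⟩
  have hprod : (1 - volume.real L) * (1 - volume.real R) = 0 := by
    linear_combination heq - hsum
  rcases mul_eq_zero.1 hprod with h1 | h1
  · -- `L` is an interval
    have hu : volume.real L = 1 := by linarith
    have hv : volume.real R = a := by linarith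
    have hLI := full hLc hLs hu
    have hs1 : s + 1 ∈ L := by rw [hLI]; exact ⟨by linarith, le_refl _⟩
    have hRI : ∀ y ∈ R, s + 4 ≤ y ∧ y ≤ s + 5 := by
      intro y hy
      have h2 := (hLR (s + 1) hs1 y hy).1
      have h3 := (hLR s hsL y hy).2
      constructor <;> linarith
    refine ⟨(fun w => s + w) ⁻¹' R, hRc.preimage (continuous_const.add continuous_id), ?_, ?_, ?_⟩
    · intro w hw
      have := hRI _ hw
      exact ⟨by linarith [this.1], by linarith [this.2]⟩
    · rw [measureReal_def, measure_preimage_add]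
      exact hv
    · intro h hh
      rw [hlag h ⟨hh.1, by linarith [hh.2]⟩, measureReal_def, measureReal_def,
        ← measure_preimage_add volume (s - h) {x : ℝ | x ∈ L ∧ x + h ∈ R}]
      congr 2
      ext w
      have e1 : s - h + w + h = s + w := by ring
      constructor
      · rintro ⟨h2, h3⟩
        rw [e1] at h3
        rw [hLI] at h2
        have h4 := hRI _ h3
        exact ⟨h3, by linarith [h4.1], by linarith [h2.2]⟩
      · rintro ⟨h2, h3⟩
        refine ⟨?_, ?_⟩
        · rw [hLI]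
          exact ⟨by linarith [h3.1, hh.2], by linarith [h3.2]⟩
        · rw [e1]
          exact h2
  · -- `R` is an interval
    have hv : volume.real R = 1 := by linarith
    have hu : volume.real L = a := by linarith
    have hRI := full hRc hRt hv
    have ht1 : t + 1 ∈ R := by rw [hRI]; exact ⟨by linarith, le_refl _⟩
    have hLI : ∀ x ∈ L, t - 4 ≤ x ∧ x ≤ t - 3 := by
      intro x hx
      have h2 := (hLR x hx (t + 1) ht1).2
      have h3 := (hLR x hx t htR).1
      constructor <;> linarith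
    refine ⟨(fun w => (t + 1) - w) ⁻¹' L, hLc.preimage (continuous_const.sub continuous_id),
      ?_, ?_, ?_⟩
    · intro w hw
      have := hLI _ hw
      exact ⟨by linarith [this.2], by linarith [this.1]⟩
    · rw [measureReal_def, (Measure.measurePreserving_sub_left volume (t + 1)).measure_preimage
        hLc.measurableSet.nullMeasurableSet]
      exact hu
    · intro h hh
      have hAm : MeasurableSet {x : ℝ | x ∈ L ∧ x + h ∈ R} :=
        (hLc.inter (hRc.preimage (continuous_id.add continuous_const))).measurableSet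
      rw [hlag h ⟨hh.1, by linarith [hh.2]⟩, measureReal_def, measureReal_def,
        ← (Measure.measurePreserving_sub_left volume (t + 1)).measure_preimage hAm.nullMeasurableSet]
      congr 2
      ext w
      constructor
      · rintro ⟨h2, h3⟩
        have h4 := hLI _ h2
        have h3' : t + 1 - w + h ∈ R := h3
        rw [hRI] at h3'
        exact ⟨h2, by linarith [h4.2], by linarith [h3'.1]⟩
      · rintro ⟨h2, h3⟩
        refine ⟨h2, ?_⟩
        show t + 1 - w + h ∈ R
        rw [hRI]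
        exact ⟨by linarith [h3.2], by linarith [h3.1, hh.2]⟩

end Pool.Agent.R923.RC
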