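import Pool.Agent.R923.RC.Stm

/-!
# Project RC: sufficiency, assembly (helper923)
-/

open MeasureTheory Set

namespace Pool.Agent.R923.RC

/-- The rational points of `ℝ^d`. -/
noncomputable def eQ (d : ℕ) : (Fin d → ℚ) →+ E d where
  toFun q := WithLp.toLp 2 (fun i => ((q i : ℚ) : ℝ))
  map_zero' := by ext i; simp
  map_add' a b := by ext i; simp

lemma denseRange_eQ (d : ℕ) : DenseRange (eQ d) := by
  have h1 : DenseRange (fun (q : Fin d → ℚ) (i : Fin d) => ((q i : ℚ) : ℝ)) := by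
    have := DenseRange.piMap (f := fun (_ : Fin d) (q : ℚ) => (q : ℝ)) (fun _ => Rat.denseRange_cast)
    exact this
  have h2 : DenseRange (WithLp.toLp 2 : (Fin d → ℝ) → E d) :=
    (PiLp.homeomorph 2 (fun _ : Fin d => ℝ)).symm.surjective.denseRange
  exact h2.comp h1 (PiLp.continuous_toLp 2 _)

lemma isClosed_mem {d : ℕ} (x : E d) : IsClosed {F : ClosedSet d | x ∈ F.carrier} := by
  have : {F : ClosedSet d | x ∈ F.carrier} = hit d {x} := by
    ext F; simp [hit, Set.inter_singleton_nonempty]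
  rw [this]
  refine ⟨?_⟩
  exact TopologicalSpace.isOpen_generateFrom_of_mem (Or.inr ⟨{x}, isCompact_singleton, rfl⟩)

lemma measurableSet_mem {d : ℕ} (x : E d) : MeasurableSet {F : ClosedSet d | x ∈ F.carrier} :=
  (isClosed_mem x).measurableSet

lemma measurableSet_mem2 {d : ℕ} (x y : E d) :
    MeasurableSet {F : ClosedSet d | x ∈ F.carrier ∧ y ∈ F.carrier} :=
  (measurableSet_mem x).inter (measurableSet_mem y)

lemma real_mem2_eq {d : ℕ} {μ : Measure (ClosedSet d)} (h : Stationary μ) (x y : E d) :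
    μ.real {F | x ∈ F.carrier ∧ y ∈ F.carrier} =
      μ.real {F | x - y ∈ F.carrier ∧ (0 : E d) ∈ F.carrier} := by
  have h1 := h (-y) _ (measurableSet_mem2 (x - y) 0)
  have h2 : translate (-y) ⁻¹' {F : ClosedSet d | x - y ∈ F.carrier ∧ (0 : E d) ∈ F.carrier} =
      {F | x ∈ F.carrier ∧ y ∈ F.carrier} := by
    ext F
    simp [translate]
  rw [h2] at h1
  simp [Measure.real, h1]

theorem suf (h1 : S_FIN) (h2 : S_COMP) (h3 : S_INV) (h4 : S_CLOS) (h5 : S_STAT) (h6 : S_CONT1)
    (h7 : S_CONT2) {d : ℕ} (S : E d → ℝ) (hS : Cond S) : IsCovariance S := by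
  have hc := h6 d S hS
  obtain ⟨r, hr, hC⟩ := hS
  have hF := h1 d S r hC
  have hP := h2 d S r (Fin d → ℚ) inferInstance (eQ d) hF
  obtain ⟨P, hP, hinv⟩ := h3 d S r (Fin d → ℚ) inferInstance inferInstance (eQ d) hP
  obtain ⟨μ, hμ, hμ2, hμ3⟩ := h4 d S r (Fin d → ℚ) inferInstance inferInstance (eQ d) P
    (denseRange_eQ d) hr hP hinv
  have hstat : Stationary μ := by
    refine h5 d (range (eQ d)) μ hμ (denseRange_eQ d) ?_
    rintro _ ⟨a, rfl⟩ B hB
    exact hμ2 a B hB
  refine ⟨μ, hμ, hstat, fun x y => ?_⟩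
  rw [real_mem2_eq hstat]
  have hT := h7 d μ hμ hstat
  have : (fun h : E d => μ.real {F | h ∈ F.carrier ∧ (0 : E d) ∈ F.carrier}) = S := by
    refine (denseRange_eQ d).equalizer hT hc ?_
    funext q
    have := hμ3 q 0
    simp only [map_zero, sub_zero] at this
    exact this
  exact congrFun this (x - y)

end Pool.Agent.R923.RC
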