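import Pool.Agent.R923.RC.Stm

/-!
# RC-UNIQ: the capacity functional determines the law (helper656)
-/

set_option autoImplicit false

open MeasureTheory Set

namespace Pool.Agent.R923.RC

theorem uniq_hitc_meas {d : ℕ} {K : Set (E d)} (hK : IsCompact K) :
    MeasurableSet (hit d K)ᶜ := by
  have h : IsOpen (hit d K)ᶜ := by
    apply TopologicalSpace.isOpen_generateFrom_of_mem
    exact Or.inr ⟨K, hK, rfl⟩
  exact h.measurableSet

theorem uniq_hit_meas {d : ℕ} {K : Set (E d)} (hK : IsCompact K) :
    MeasurableSet (hit d K) := by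
  have h := (uniq_hitc_meas hK).compl
  rwa [compl_compl] at h

/-- the capacity functional determines the law -/
theorem s_UNIQ (hM : S_MEAS) : S_UNIQ := by
  intro d μ ν hμ hν h
  obtain ⟨C, hC⟩ : ∃ C : Set (Set (ClosedSet d)),
      C = {U | ∃ K : Set (E d), IsCompact K ∧ U = (hit d K)ᶜ} := ⟨_, rfl⟩
  have hCm : ∀ U ∈ C, MeasurableSet U := by
    intro U hU
    rw [hC] at hU
    obtain ⟨K, hK, rfl⟩ := hU
    exact uniq_hitc_meas hK
  have hgen : (inferInstance : MeasurableSpace (ClosedSet d)) = MeasurableSpace.generateFrom C := by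
    apply le_antisymm
    · have h1 := hM d (ClosedSet d) (MeasurableSpace.generateFrom C) id (by
        intro K hK
        have h2 : (hit d K)ᶜ ∈ C := by
          rw [hC]
          exact ⟨K, hK, rfl⟩
        have h3 := (MeasurableSpace.measurableSet_generateFrom h2).compl
        rw [compl_compl] at h3
        exact h3)
      intro s hs
      have h4 := h1 hs
      exact h4
    · exact MeasurableSpace.generateFrom_le hCm
  have hpi : IsPiSystem C := by
    intro A hA B hB _
    rw [hC] at hA hB ⊢
    obtain ⟨K, hK, rfl⟩ := hA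
    obtain ⟨K', hK', rfl⟩ := hB
    refine ⟨K ∪ K', hK.union hK', ?_⟩
    rw [← compl_union]
    congr 1
    ext F
    unfold hit
    simp only [mem_union, mem_setOf_eq, inter_union_distrib_left, union_nonempty]
  refine ext_of_generate_finite C hgen hpi ?_ ?_
  · intro A hA
    rw [hC] at hA
    obtain ⟨K, hK, rfl⟩ := hA
    rw [prob_compl_eq_one_sub (uniq_hit_meas hK), prob_compl_eq_one_sub (uniq_hit_meas hK), h K hK]
  · rw [measure_univ, measure_univ]

end Pool.Agent.R923.RC
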