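import Pool.Agent.R923.RC.Stm

/-!
# RC-V: a dense open set of small measure
-/

set_option autoImplicit false

open MeasureTheory Set

namespace Pool.Agent.R923.RC

theorem s_V : S_V := by
  have h0 : volume (Set.range ((↑) : ℚ → ℝ)) < 1 := by
    rw [(Set.countable_range _).measure_zero]
    exact one_pos
  obtain ⟨U, hU, hUo, hU1⟩ := Set.exists_isOpen_lt_of_lt _ _ h0
  have hd : Dense U := (Rat.denseRange_cast (𝕜 := ℝ)).mono hU
  refine ⟨Ioo 4 5 ∩ U, isOpen_Ioo.inter hUo, inter_subset_left, ?_, ?_⟩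
  · rw [← closure_Ioo (by norm_num : (4 : ℝ) ≠ 5)]
    exact closure_minimal (hd.open_subset_closure_inter isOpen_Ioo) isClosed_closure
  · have h1 : volume (Ioo 4 5 ∩ U) < 1 := (measure_mono inter_subset_right).trans_lt hU1
    rw [Measure.real]
    have := (ENNReal.toReal_lt_toReal (h1.trans ENNReal.one_lt_top).ne ENNReal.one_ne_top).2 h1
    simpa using this

end Pool.Agent.R923.RC
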